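import Pool.Agent.Work.MP_88b7aa_gt.CH.Crs

/-!
# Powers of an elliptic element return near the identity.  Size: M.

PROOF of `Bnd`.  `W z = μ z`, `z` negative, `|μ| = 1`.  Put `N(w) = herm w w + (2/|herm z z|) |herm w z|²` (real).  It is invariant under `W`
(`|herm (W w) z| = |herm w z|` because `W z = μ z`) and positive definite: write `w = w' + (herm w z/herm z z) z`, `herm w' z = 0`;
`N(w) = herm w' w' + |herm w z|²/|herm z z|`, and `herm w' w' > 0` for `w' ≠ 0` (Cauchy–Schwarz, see `EigO`).  By compactness of the unit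
sphere (or an explicit estimate) `N(w) ≥ c ‖w‖²` and `N(w) ≤ C ‖w‖²` with `c > 0`.  So `‖W^k w‖² ≤ (C/c) ‖w‖²` and the entries of `W^k` are bounded.
PROOF of `Ret`.  The sequence `W^k` lies in a compact set of matrices (entries bounded by `C`), so it has a convergent subsequence and there
are `k < l` with all entries of `W^l - W^k` smaller than `δ`.  `W^k` is invertible with inverse `J (W^k)ᴴ J` (entries bounded by `C`;
from `hW`: `(W^k)ᴴ J W^k = J`), and `W^(l-k) - 1 = (W^k)⁻¹ (W^l - W^k)`, entries `≤ 3 C δ < ε`.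
-/

namespace Pool.Agent.Work.MP_88b7aa_gt.Cb

open Pool.Agent.Work.MP_88b7aa_gt.CH

private theorem herm_pow (W : Matrix (Fin 3) (Fin 3) ℂ)
    (hW : ∀ z w, herm (W.mulVec z) (W.mulVec w) = herm z w) (k : ℕ) (z w : Fin 3 → ℂ) :
    herm ((W ^ k).mulVec z) ((W ^ k).mulVec w) = herm z w := by
  induction k generalizing z w with
  | zero => simp
  | succ k ih => rw [pow_succ, ← Matrix.mulVec_mulVec, ← Matrix.mulVec_mulVec, ih, hW]

/-- The real inequality behind positive definiteness. -/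
private theorem num (a x0 x1 t p0 p1 r h : ℝ) (ha : 0 < a) (hx0 : 0 ≤ x0) (hx1 : 0 ≤ x1) (ht : 0 ≤ t)
    (hp0 : 0 ≤ p0) (hp1 : 0 ≤ p1) (hr : 0 ≤ r) (hh : 0 ≤ h) (har : r ^ 2 - (p0 ^ 2 + p1 ^ 2) = a)
    (htr : t * r ≤ x0 * p0 + x1 * p1 + h) :
    a / 3 * (x0 ^ 2 + x1 ^ 2) + h ^ 2 ≤ r ^ 2 * (x0 ^ 2 + x1 ^ 2 - t ^ 2 + 2 / a * h ^ 2) := by
  have hA0 : 0 ≤ x0 * p0 + x1 * p1 := by positivity
  have hA2 : (x0 * p0 + x1 * p1) ^ 2 ≤ (x0 ^ 2 + x1 ^ 2) * (p0 ^ 2 + p1 ^ 2) := by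
    nlinarith [sq_nonneg (x0 * p1 - x1 * p0)]
  set A := x0 * p0 + x1 * p1 with hA
  set s := x0 ^ 2 + x1 ^ 2 with hs
  set P := p0 ^ 2 + p1 ^ 2 with hP
  have hs0 : 0 ≤ s := by positivity
  have hP0 : 0 ≤ P := by positivity
  have h1 : (t * r) ^ 2 ≤ (A + h) ^ 2 := pow_le_pow_left₀ (by positivity) htr 2
  -- `2 A h ≤ (2a/3) s + (3P/(2a)) h²`
  have h2 : 2 * A * h ≤ 2 * a / 3 * s + 3 * P / (2 * a) * h ^ 2 := by
    have hq := Real.sqrt_nonneg P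
    have hσ := Real.sqrt_nonneg s
    have hq2 := Real.sq_sqrt hP0
    have hσ2 := Real.sq_sqrt hs0
    have hAle : A ≤ Real.sqrt s * Real.sqrt P := by
      apply (pow_le_pow_iff_left₀ hA0 (by positivity) two_ne_zero).1
      rw [mul_pow, hσ2, hq2]; exact hA2
    have h3 : 2 * A * h ≤ 2 * (Real.sqrt s * Real.sqrt P) * h := by
      have := mul_le_mul_of_nonneg_right hAle hh
      linarith
    refine h3.trans ?_
    rw [← sub_nonneg]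
    have : 2 * a / 3 * s + 3 * P / (2 * a) * h ^ 2 - 2 * (Real.sqrt s * Real.sqrt P) * h =
        (2 * a * Real.sqrt s - 3 * Real.sqrt P * h) ^ 2 / (6 * a) := by
      field_simp
      rw [sub_sq, mul_pow, mul_pow, mul_pow, mul_pow, hσ2, hq2]
      ring
    rw [this]
    positivity
  have hr2 : r ^ 2 = P + a := by linarith
  have h4 : r ^ 2 * t ^ 2 ≤ A ^ 2 + 2 * A * h + h ^ 2 := by nlinarith
  have h5 : r ^ 2 * (s - t ^ 2 + 2 / a * h ^ 2) = r ^ 2 * s - r ^ 2 * t ^ 2 + (2 * P / a + 2) * h ^ 2 := by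
    rw [hr2]; field_simp
  rw [h5]
  have h6 : 0 ≤ P / (2 * a) * h ^ 2 := by positivity
  have h7 : (2 * P / a + 2) * h ^ 2 = 3 * P / (2 * a) * h ^ 2 + P / (2 * a) * h ^ 2 + 2 * h ^ 2 := by
    field_simp; ring
  rw [h7]
  nlinarith

/-- The invariant positive definite form. -/
private noncomputable def Nf (a : ℝ) (z w : Fin 3 → ℂ) : ℝ :=
  ‖w 0‖ ^ 2 + ‖w 1‖ ^ 2 - ‖w 2‖ ^ 2 + 2 / a * ‖herm w z‖ ^ 2

private theorem herm_self_re (w : Fin 3 → ℂ) : (herm w w).re = ‖w 0‖ ^ 2 + ‖w 1‖ ^ 2 - ‖w 2‖ ^ 2 := by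
  simp only [herm, Complex.mul_conj, Complex.normSq_eq_norm_sq]
  norm_cast

private theorem Nf_lower (a : ℝ) (z w : Fin 3 → ℂ) (ha : 0 < a) (haz : (herm z z).re = -a) :
    a / 3 * (‖w 0‖ ^ 2 + ‖w 1‖ ^ 2) + ‖herm w z‖ ^ 2 ≤ ‖z 2‖ ^ 2 * Nf a z w := by
  rw [herm_self_re] at haz
  apply num a ‖w 0‖ ‖w 1‖ ‖w 2‖ ‖z 0‖ ‖z 1‖ ‖z 2‖ ‖herm w z‖ ha (norm_nonneg _) (norm_nonneg _)
    (norm_nonneg _) (norm_nonneg _) (norm_nonneg _) (norm_nonneg _) (norm_nonneg _) (by linarith)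
  have : w 2 * (starRingEnd ℂ) (z 2) = w 0 * (starRingEnd ℂ) (z 0) + w 1 * (starRingEnd ℂ) (z 1) -
      herm w z := by
    simp only [herm]; ring
  calc ‖w 2‖ * ‖z 2‖ = ‖w 2 * (starRingEnd ℂ) (z 2)‖ := by rw [norm_mul, RCLike.norm_conj]
    _ = ‖w 0 * (starRingEnd ℂ) (z 0) + w 1 * (starRingEnd ℂ) (z 1) - herm w z‖ := by rw [this]
    _ ≤ ‖w 0 * (starRingEnd ℂ) (z 0) + w 1 * (starRingEnd ℂ) (z 1)‖ + ‖herm w z‖ := norm_sub_le _ _
    _ ≤ ‖w 0 * (starRingEnd ℂ) (z 0)‖ + ‖w 1 * (starRingEnd ℂ) (z 1)‖ + ‖herm w z‖ := by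
        gcongr; exact norm_add_le _ _
    _ = ‖w 0‖ * ‖z 0‖ + ‖w 1‖ * ‖z 1‖ + ‖herm w z‖ := by
        rw [norm_mul, norm_mul, RCLike.norm_conj, RCLike.norm_conj]

/-- Each coordinate is bounded by the form. -/
private theorem coord_le (a : ℝ) (z w : Fin 3 → ℂ) (ha : 0 < a) (haz : (herm z z).re = -a) (i : Fin 3) :
    ‖w i‖ ^ 2 ≤ (3 * ‖z 2‖ ^ 2 / a + 1) * Nf a z w := by
  have h1 := Nf_lower a z w ha haz
  have hz2 : a ≤ ‖z 2‖ ^ 2 := by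
    rw [herm_self_re] at haz
    nlinarith [sq_nonneg ‖z 0‖, sq_nonneg ‖z 1‖]
  have hR : 0 < ‖z 2‖ ^ 2 := by linarith
  have hN : 0 ≤ Nf a z w := by
    by_contra hc
    push Not at hc
    have : ‖z 2‖ ^ 2 * Nf a z w < 0 := mul_neg_of_pos_of_neg hR hc
    have h3 : 0 ≤ a / 3 * (‖w 0‖ ^ 2 + ‖w 1‖ ^ 2) + ‖herm w z‖ ^ 2 := by positivity
    linarith
  have h2 : ‖w 0‖ ^ 2 + ‖w 1‖ ^ 2 ≤ 3 * ‖z 2‖ ^ 2 / a * Nf a z w := by
    have h3 : a / 3 * (‖w 0‖ ^ 2 + ‖w 1‖ ^ 2) ≤ ‖z 2‖ ^ 2 * Nf a z w := by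
      nlinarith [sq_nonneg ‖herm w z‖]
    have h4 : ‖w 0‖ ^ 2 + ‖w 1‖ ^ 2 = 3 / a * (a / 3 * (‖w 0‖ ^ 2 + ‖w 1‖ ^ 2)) := by field_simp
    rw [h4]
    calc 3 / a * (a / 3 * (‖w 0‖ ^ 2 + ‖w 1‖ ^ 2)) ≤ 3 / a * (‖z 2‖ ^ 2 * Nf a z w) := by gcongr
      _ = 3 * ‖z 2‖ ^ 2 / a * Nf a z w := by ring
  have h5 : ‖w 2‖ ^ 2 ≤ (3 * ‖z 2‖ ^ 2 / a + 1) * Nf a z w := by
    -- `‖w 2‖² = ‖w 0‖² + ‖w 1‖² + (2/a) ‖herm w z‖² - N`
    have h6 : ‖w 2‖ ^ 2 = ‖w 0‖ ^ 2 + ‖w 1‖ ^ 2 + 2 / a * ‖herm w z‖ ^ 2 - Nf a z w := by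
      simp only [Nf]; ring
    have h7 : 3 / a * (a / 3 * (‖w 0‖ ^ 2 + ‖w 1‖ ^ 2) + ‖herm w z‖ ^ 2) ≤ 3 / a * (‖z 2‖ ^ 2 * Nf a z w) := by
      gcongr
    have h8 : 3 / a * (a / 3 * (‖w 0‖ ^ 2 + ‖w 1‖ ^ 2) + ‖herm w z‖ ^ 2) =
        ‖w 0‖ ^ 2 + ‖w 1‖ ^ 2 + 3 / a * ‖herm w z‖ ^ 2 := by field_simp
    have h9 : 3 / a * (‖z 2‖ ^ 2 * Nf a z w) = 3 * ‖z 2‖ ^ 2 / a * Nf a z w := by ring
    have h10 : 2 / a * ‖herm w z‖ ^ 2 ≤ 3 / a * ‖herm w z‖ ^ 2 := by gcongr; norm_num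
    rw [h8, h9] at h7
    nlinarith
  have h11 : ∀ j : Fin 3, j ≠ 2 → ‖w j‖ ^ 2 ≤ ‖w 0‖ ^ 2 + ‖w 1‖ ^ 2 := by
    intro j hj
    fin_cases j
    · simp only [Fin.zero_eta]; nlinarith [sq_nonneg ‖w 1‖]
    · simp only [Fin.mk_one]; nlinarith [sq_nonneg ‖w 0‖]
    · exact absurd rfl hj
  by_cases hi : i = 2
  · rw [hi]; exact h5
  · have := h11 i hi
    nlinarith

theorem Bnd (W : Matrix (Fin 3) (Fin 3) ℂ) (hW : ∀ z w, herm (W.mulVec z) (W.mulVec w) = herm z w)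
    (h : Elliptic W) : ∃ C : ℝ, ∀ (k : ℕ) (i j : Fin 3), ‖(W ^ k) i j‖ ≤ C := by
  obtain ⟨z, hz, μ, hμ⟩ := h
  set a : ℝ := -(herm z z).re with ha
  have ha0 : 0 < a := by linarith
  have haz : (herm z z).re = -a := by linarith
  -- `|μ| = 1`
  have hzz : herm z z ≠ 0 := by
    intro h0; rw [h0] at hz; simp at hz
  have hμ1 : ‖μ‖ = 1 := by
    have h1 := hW z z
    rw [hμ, herm_smul_left, herm_smul_right, ← mul_assoc, Complex.mul_conj] at h1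
    have h2 : ((Complex.normSq μ : ℝ) : ℂ) = 1 := by
      apply mul_right_cancel₀ hzz
      rw [h1, one_mul]
    have h3 : Complex.normSq μ = 1 := by exact_mod_cast h2
    rw [Complex.normSq_eq_norm_sq] at h3
    nlinarith [norm_nonneg μ]
  -- invariance
  have hinv1 : ∀ w, ‖herm (W.mulVec w) z‖ = ‖herm w z‖ := by
    intro w
    have h1 := hW w z
    rw [hμ, herm_smul_right] at h1
    have h2 := congrArg (fun t => ‖t‖) h1
    simp only [norm_mul, RCLike.norm_conj, hμ1, one_mul] at h2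
    exact h2
  have hinv : ∀ w, Nf a z (W.mulVec w) = Nf a z w := by
    intro w
    have h1 := congrArg Complex.re (hW w w)
    rw [herm_self_re, herm_self_re] at h1
    simp only [Nf, hinv1]
    rw [h1]
  have hinvk : ∀ (k : ℕ) w, Nf a z ((W ^ k).mulVec w) = Nf a z w := by
    intro k
    induction k with
    | zero => intro w; simp
    | succ k ih => intro w; rw [pow_succ, ← Matrix.mulVec_mulVec, ih, hinv]
  have hpos : ∀ w, 0 ≤ (3 * ‖z 2‖ ^ 2 / a + 1) * Nf a z w := fun w =>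
    (sq_nonneg _).trans (coord_le a z w ha0 haz 0)
  refine ⟨Real.sqrt (∑ j : Fin 3, (3 * ‖z 2‖ ^ 2 / a + 1) * Nf a z (Pi.single j 1)), fun k i j => ?_⟩
  apply Real.le_sqrt_of_sq_le
  have h1 : (W ^ k) i j = (W ^ k).mulVec (Pi.single j 1) i := by
    rw [Matrix.mulVec_single_one]; rfl
  rw [h1]
  refine (coord_le a z _ ha0 haz i).trans ?_
  rw [hinvk]
  exact Finset.single_le_sum (f := fun j : Fin 3 => (3 * ‖z 2‖ ^ 2 / a + 1) * Nf a z (Pi.single j 1))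
    (fun j _ => hpos _) (Finset.mem_univ j)

private theorem herm_le (x y : Fin 3 → ℂ) (δ C : ℝ) (hx : ∀ m, ‖x m‖ ≤ δ) (hy : ∀ m, ‖y m‖ ≤ C) (hδ : 0 ≤ δ) :
    ‖herm x y‖ ≤ 3 * (δ * C) := by
  have hm : ∀ m, ‖x m * (starRingEnd ℂ) (y m)‖ ≤ δ * C := by
    intro m
    rw [norm_mul, RCLike.norm_conj]
    exact mul_le_mul (hx m) (hy m) (norm_nonneg _) hδ
  calc ‖herm x y‖ ≤ ‖x 0 * (starRingEnd ℂ) (y 0) + x 1 * (starRingEnd ℂ) (y 1)‖ + ‖x 2 * (starRingEnd ℂ) (y 2)‖ :=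
        norm_sub_le _ _
    _ ≤ ‖x 0 * (starRingEnd ℂ) (y 0)‖ + ‖x 1 * (starRingEnd ℂ) (y 1)‖ + ‖x 2 * (starRingEnd ℂ) (y 2)‖ := by
        gcongr; exact norm_add_le _ _
    _ ≤ 3 * (δ * C) := by linarith [hm 0, hm 1, hm 2]

private theorem herm_single (x : Fin 3 → ℂ) (i : Fin 3) : ‖herm x (Pi.single i 1)‖ = ‖x i‖ := by
  fin_cases i <;> simp [herm]

theorem Ret (W : Matrix (Fin 3) (Fin 3) ℂ) (hW : ∀ z w, herm (W.mulVec z) (W.mulVec w) = herm z w)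
    (C : ℝ) (hC : ∀ (k : ℕ) (i j : Fin 3), ‖(W ^ k) i j‖ ≤ C) (ε : ℝ) (hε : 0 < ε) :
    ∃ k : ℕ, 1 ≤ k ∧ ∀ i j : Fin 3, ‖(W ^ k) i j - (if i = j then 1 else 0)‖ < ε := by
  have hC0 : 0 ≤ C := (norm_nonneg _).trans (hC 0 0 0)
  set δ : ℝ := ε / (3 * (C + 1)) with hδ
  have hδ0 : 0 < δ := by positivity
  let f : ℕ → (Fin 3 → Fin 3 → ℂ) := fun k i j => (W ^ k) i j
  have hf : ∀ k, f k ∈ Metric.closedBall (0 : Fin 3 → Fin 3 → ℂ) C := by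
    intro k
    rw [mem_closedBall_zero_iff, pi_norm_le_iff_of_nonneg hC0]
    intro i
    rw [pi_norm_le_iff_of_nonneg hC0]
    intro j
    exact hC k i j
  obtain ⟨A, _, φ, hφ, hlim⟩ := (isCompact_closedBall (0 : Fin 3 → Fin 3 → ℂ) C).tendsto_subseq hf
  have hcau := hlim.cauchySeq
  rw [Metric.cauchySeq_iff] at hcau
  obtain ⟨n, hn⟩ := hcau δ hδ0
  have hd := hn (n + 1) (by omega) n le_rfl
  have hlt : φ n < φ (n + 1) := hφ (Nat.lt_succ_self n)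
  have hent : ∀ i j, ‖(W ^ φ (n + 1)) i j - (W ^ φ n) i j‖ < δ := by
    intro i j
    rw [dist_eq_norm] at hd
    have h1 := norm_le_pi_norm ((f ∘ φ) (n + 1) - (f ∘ φ) n) i
    have h2 := norm_le_pi_norm (((f ∘ φ) (n + 1) - (f ∘ φ) n) i) j
    exact lt_of_le_of_lt (h2.trans h1) hd
  refine ⟨φ (n + 1) - φ n, by omega, fun i j => ?_⟩
  set l := φ (n + 1)
  set k := φ n
  have hpow : W ^ l = W ^ k * W ^ (l - k) := by
    rw [← pow_add]; congr 1; omega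
  set x : Fin 3 → ℂ := (W ^ (l - k)).mulVec (Pi.single j 1) - Pi.single j 1 with hx
  have hxi : (W ^ (l - k)) i j - (if i = j then 1 else 0) = x i := by
    rw [hx, Pi.sub_apply, Matrix.mulVec_single_one, Pi.single_apply]; rfl
  have hWx : ∀ m, (W ^ k).mulVec x m = (W ^ l) m j - (W ^ k) m j := by
    intro m
    rw [hx, Matrix.mulVec_sub, Matrix.mulVec_mulVec, ← hpow, Pi.sub_apply, Matrix.mulVec_single_one,
      Matrix.mulVec_single_one]; rfl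
  rw [hxi, ← herm_single x i, ← herm_pow W hW k]
  have hb := herm_le ((W ^ k).mulVec x) ((W ^ k).mulVec (Pi.single i 1)) δ C
    (fun m => by rw [hWx m]; exact (hent m j).le)
    (fun m => by rw [Matrix.mulVec_single_one]; exact hC k m i) hδ0.le
  refine lt_of_le_of_lt hb ?_
  rw [hδ]
  have : 3 * (ε / (3 * (C + 1)) * C) = ε * (C / (C + 1)) := by field_simp
  rw [this]
  have h1 : C / (C + 1) < 1 := by
    rw [div_lt_one (by linarith)]; linarith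
  nlinarith

end Pool.Agent.Work.MP_88b7aa_gt.Cb
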