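import Pool.Agent.Work.MP_88b7aa_gt.Iv.Defs

/-!
# A checker for the discriminant cubic

Points `(ζ, a, b)` with nonnegative coordinates; a natural number `v` stands for `v / 32768`.
`pF = -16 F`, `pP`, `pR` (`-F = b³ (1 - 9 b) + a P + ζ R`), `pG = 4 F'`, `pC = 4 (F''/2)` where `F`, `F'`, `F''/2` are the value and the
derivatives of the cubic `FD` at `D = DA`, for `x = 1 - ζ - a - b`, `y = 1 - ζ - a`, `z = 1 - ζ`.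
-/

namespace Pool.Agent.Work.MP_88b7aa_gt.Cb

open Pool.Agent.Work.MP_88b7aa_gt.Iv

/-- the monomial `c ζ^i a^j b^k` -/
structure Mn where
  c : Nat
  i : Nat
  j : Nat
  k : Nat

/-- the polynomial `p - n` -/
structure Pol where
  p : List Mn
  n : List Mn

/-- a polynomial with its three partial derivatives -/
structure PolG where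
  f : Pol
  z : Pol
  a : Pol
  b : Pol

/-- value at a point times `32768 ^ D` -/
def ev (D z a b : Nat) : List Mn → Nat
  | [] => 0
  | m :: l => Nat.add (Nat.mul m.c (Nat.mul (Nat.pow z m.i) (Nat.mul (Nat.pow a m.j) (Nat.mul (Nat.pow b m.k)
      (Nat.pow 32768 (Nat.sub D (Nat.add m.i (Nat.add m.j m.k)))))))) (ev D z a b l)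

/-- a box -/
structure Bx where
  zl : Nat
  zh : Nat
  al : Nat
  ah : Nat
  bl : Nat
  bh : Nat

def nlo (D : Nat) (P : Pol) (B : Bx) : Int :=
  Int.subNatNat (ev D B.zl B.al B.bl P.p) (ev D B.zh B.ah B.bh P.n)

def nhi (D : Nat) (P : Pol) (B : Bx) : Int :=
  Int.subNatNat (ev D B.zh B.ah B.bh P.p) (ev D B.zl B.al B.bl P.n)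

def gM (D : Nat) (P : Pol) (B : Bx) : Nat := Nat.max (nlo D P B).natAbs (nhi D P B).natAbs

def mdl (l h : Nat) : Nat := Nat.div (Nat.add l h) 2

/-- radius of the mean value form -/
def rad (D : Nat) (G : PolG) (B : Bx) : Nat :=
  Nat.add (Nat.mul (gM (Nat.sub D 1) G.z B) (Nat.sub B.zh (mdl B.zl B.zh)))
    (Nat.add (Nat.mul (gM (Nat.sub D 1) G.a B) (Nat.sub B.ah (mdl B.al B.ah)))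
      (Nat.mul (gM (Nat.sub D 1) G.b B) (Nat.sub B.bh (mdl B.bl B.bh))))

def cen (D : Nat) (P : Pol) (B : Bx) : Int :=
  Int.subNatNat (ev D (mdl B.zl B.zh) (mdl B.al B.ah) (mdl B.bl B.bh) P.p)
    (ev D (mdl B.zl B.zh) (mdl B.al B.ah) (mdl B.bl B.bh) P.n)

/-- the polynomial is `≥ 0` on the box -/
def ge0 (D : Nat) (G : PolG) (B : Bx) : Bool :=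
  match leb 0 (nlo D G.f B) with
  | true => true
  | false => leb 0 (Int.sub (cen D G.f B) (Int.ofNat (rad D G B)))

/-- the polynomial is `> 0` on the box -/
def gt0 (D : Nat) (G : PolG) (B : Bx) : Bool :=
  match posb (nlo D G.f B) with
  | true => true
  | false => posb (Int.sub (cen D G.f B) (Int.ofNat (rad D G B)))

/-- the polynomial is `≤ 0` on the box -/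
def le0 (D : Nat) (G : PolG) (B : Bx) : Bool :=
  match leb (nhi D G.f B) 0 with
  | true => true
  | false => leb (Int.add (cen D G.f B) (Int.ofNat (rad D G B))) 0

/-- partial derivatives of a list of monomials -/
def dz : List Mn → List Mn
  | [] => []
  | m :: l => match m.i with
    | 0 => dz l
    | i + 1 => ⟨m.c * (i + 1), i, m.j, m.k⟩ :: dz l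

def da : List Mn → List Mn
  | [] => []
  | m :: l => match m.j with
    | 0 => da l
    | j + 1 => ⟨m.c * (j + 1), m.i, j, m.k⟩ :: da l

def db : List Mn → List Mn
  | [] => []
  | m :: l => match m.k with
    | 0 => db l
    | k + 1 => ⟨m.c * (k + 1), m.i, m.j, k⟩ :: db l

/-- the fourth component is really the gradient -/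
def isG (G : PolG) : Prop :=
  G.z.p = dz G.f.p ∧ G.z.n = dz G.f.n ∧ G.a.p = da G.f.p ∧ G.a.n = da G.f.n ∧ G.b.p = db G.f.p ∧ G.b.n = db G.f.n

def pF : PolG :=
  { f := ⟨[⟨16, 0, 0, 3⟩, ⟨16, 0, 1, 1⟩, ⟨384, 0, 1, 4⟩, ⟨16, 0, 2, 0⟩, ⟨80, 0, 2, 2⟩, ⟨1024, 0, 2, 3⟩, ⟨1120, 0, 3,
    1⟩, ⟨256, 0, 3, 2⟩, ⟨560, 0, 4, 0⟩, ⟨8, 1, 0, 1⟩, ⟨384, 1, 0, 4⟩, ⟨16, 1, 1, 0⟩, ⟨32, 1, 1, 2⟩, ⟨1920, 1, 1,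
    3⟩, ⟨2400, 1, 2, 1⟩, ⟨896, 1, 2, 2⟩, ⟨1600, 1, 3, 0⟩, ⟨3, 2, 0, 0⟩, ⟨896, 2, 0, 3⟩, ⟨1568, 2, 1, 1⟩, ⟨1024,
    2, 1, 2⟩, ⟨1568, 2, 2, 0⟩, ⟨288, 3, 0, 1⟩, ⟨384, 3, 0, 2⟩, ⟨576, 3, 1, 0⟩, ⟨48, 4, 0, 0⟩],
    [⟨144, 0, 0, 4⟩, ⟨128, 0, 1, 2⟩, ⟨480, 0, 1, 3⟩, ⟨480, 0, 2, 1⟩, ⟨256, 0, 2, 4⟩, ⟨320, 0, 3, 0⟩, ⟨512, 0, 3,
    3⟩, ⟨640, 0, 4, 1⟩, ⟨256, 0, 4, 2⟩, ⟨256, 0, 5, 0⟩, ⟨56, 1, 0, 2⟩, ⟨384, 1, 0, 3⟩, ⟨552, 1, 1, 1⟩, ⟨512, 1,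
    1, 4⟩, ⟨552, 1, 2, 0⟩, ⟨1536, 1, 2, 3⟩, ⟨2048, 1, 3, 1⟩, ⟨1024, 1, 3, 2⟩, ⟨1024, 1, 4, 0⟩, ⟨144, 2, 0, 1⟩,
    ⟨64, 2, 0, 2⟩, ⟨256, 2, 0, 4⟩, ⟨288, 2, 1, 0⟩, ⟨1536, 2, 1, 3⟩, ⟨2304, 2, 2, 1⟩, ⟨1536, 2, 2, 2⟩, ⟨1536, 2,
    3, 0⟩, ⟨40, 3, 0, 0⟩, ⟨512, 3, 0, 3⟩, ⟨1024, 3, 1, 1⟩, ⟨1024, 3, 1, 2⟩, ⟨1024, 3, 2, 0⟩, ⟨128, 4, 0, 1⟩,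
    ⟨256, 4, 0, 2⟩, ⟨256, 4, 1, 0⟩]⟩,
    z := ⟨[⟨8, 0, 0, 1⟩, ⟨384, 0, 0, 4⟩, ⟨16, 0, 1, 0⟩, ⟨32, 0, 1, 2⟩, ⟨1920, 0, 1, 3⟩, ⟨2400, 0, 2, 1⟩, ⟨896, 0, 2,
    2⟩, ⟨1600, 0, 3, 0⟩, ⟨6, 1, 0, 0⟩, ⟨1792, 1, 0, 3⟩, ⟨3136, 1, 1, 1⟩, ⟨2048, 1, 1, 2⟩, ⟨3136, 1, 2, 0⟩, ⟨864,
    2, 0, 1⟩, ⟨1152, 2, 0, 2⟩, ⟨1728, 2, 1, 0⟩, ⟨192, 3, 0, 0⟩],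
    [⟨56, 0, 0, 2⟩, ⟨384, 0, 0, 3⟩, ⟨552, 0, 1, 1⟩, ⟨512, 0, 1, 4⟩, ⟨552, 0, 2, 0⟩, ⟨1536, 0, 2, 3⟩, ⟨2048, 0,
    3, 1⟩, ⟨1024, 0, 3, 2⟩, ⟨1024, 0, 4, 0⟩, ⟨288, 1, 0, 1⟩, ⟨128, 1, 0, 2⟩, ⟨512, 1, 0, 4⟩, ⟨576, 1, 1, 0⟩,
    ⟨3072, 1, 1, 3⟩, ⟨4608, 1, 2, 1⟩, ⟨3072, 1, 2, 2⟩, ⟨3072, 1, 3, 0⟩, ⟨120, 2, 0, 0⟩, ⟨1536, 2, 0, 3⟩, ⟨3072,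
    2, 1, 1⟩, ⟨3072, 2, 1, 2⟩, ⟨3072, 2, 2, 0⟩, ⟨512, 3, 0, 1⟩, ⟨1024, 3, 0, 2⟩, ⟨1024, 3, 1, 0⟩]⟩,
    a := ⟨[⟨16, 0, 0, 1⟩, ⟨384, 0, 0, 4⟩, ⟨32, 0, 1, 0⟩, ⟨160, 0, 1, 2⟩, ⟨2048, 0, 1, 3⟩, ⟨3360, 0, 2, 1⟩, ⟨768, 0, 2,
    2⟩, ⟨2240, 0, 3, 0⟩, ⟨16, 1, 0, 0⟩, ⟨32, 1, 0, 2⟩, ⟨1920, 1, 0, 3⟩, ⟨4800, 1, 1, 1⟩, ⟨1792, 1, 1, 2⟩, ⟨4800,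
    1, 2, 0⟩, ⟨1568, 2, 0, 1⟩, ⟨1024, 2, 0, 2⟩, ⟨3136, 2, 1, 0⟩, ⟨576, 3, 0, 0⟩],
    [⟨128, 0, 0, 2⟩, ⟨480, 0, 0, 3⟩, ⟨960, 0, 1, 1⟩, ⟨512, 0, 1, 4⟩, ⟨960, 0, 2, 0⟩, ⟨1536, 0, 2, 3⟩, ⟨2560, 0,
    3, 1⟩, ⟨1024, 0, 3, 2⟩, ⟨1280, 0, 4, 0⟩, ⟨552, 1, 0, 1⟩, ⟨512, 1, 0, 4⟩, ⟨1104, 1, 1, 0⟩, ⟨3072, 1, 1, 3⟩,
    ⟨6144, 1, 2, 1⟩, ⟨3072, 1, 2, 2⟩, ⟨4096, 1, 3, 0⟩, ⟨288, 2, 0, 0⟩, ⟨1536, 2, 0, 3⟩, ⟨4608, 2, 1, 1⟩, ⟨3072,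
    2, 1, 2⟩, ⟨4608, 2, 2, 0⟩, ⟨1024, 3, 0, 1⟩, ⟨1024, 3, 0, 2⟩, ⟨2048, 3, 1, 0⟩, ⟨256, 4, 0, 0⟩]⟩,
    b := ⟨[⟨48, 0, 0, 2⟩, ⟨16, 0, 1, 0⟩, ⟨1536, 0, 1, 3⟩, ⟨160, 0, 2, 1⟩, ⟨3072, 0, 2, 2⟩, ⟨1120, 0, 3, 0⟩, ⟨512, 0,
    3, 1⟩, ⟨8, 1, 0, 0⟩, ⟨1536, 1, 0, 3⟩, ⟨64, 1, 1, 1⟩, ⟨5760, 1, 1, 2⟩, ⟨2400, 1, 2, 0⟩, ⟨1792, 1, 2, 1⟩,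
    ⟨2688, 2, 0, 2⟩, ⟨1568, 2, 1, 0⟩, ⟨2048, 2, 1, 1⟩, ⟨288, 3, 0, 0⟩, ⟨768, 3, 0, 1⟩],
    [⟨576, 0, 0, 3⟩, ⟨256, 0, 1, 1⟩, ⟨1440, 0, 1, 2⟩, ⟨480, 0, 2, 0⟩, ⟨1024, 0, 2, 3⟩, ⟨1536, 0, 3, 2⟩, ⟨640, 0,
    4, 0⟩, ⟨512, 0, 4, 1⟩, ⟨112, 1, 0, 1⟩, ⟨1152, 1, 0, 2⟩, ⟨552, 1, 1, 0⟩, ⟨2048, 1, 1, 3⟩, ⟨4608, 1, 2, 2⟩,
    ⟨2048, 1, 3, 0⟩, ⟨2048, 1, 3, 1⟩, ⟨144, 2, 0, 0⟩, ⟨128, 2, 0, 1⟩, ⟨1024, 2, 0, 3⟩, ⟨4608, 2, 1, 2⟩, ⟨2304,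
    2, 2, 0⟩, ⟨3072, 2, 2, 1⟩, ⟨1536, 3, 0, 2⟩, ⟨1024, 3, 1, 0⟩, ⟨2048, 3, 1, 1⟩, ⟨128, 4, 0, 0⟩, ⟨512, 4, 0,
    1⟩]⟩ }

def pP : PolG :=
  { f := ⟨[⟨16, 0, 0, 1⟩, ⟨384, 0, 0, 4⟩, ⟨16, 0, 1, 0⟩, ⟨80, 0, 1, 2⟩, ⟨1024, 0, 1, 3⟩, ⟨1120, 0, 2, 1⟩, ⟨256, 0, 2,
    2⟩, ⟨560, 0, 3, 0⟩, ⟨16, 1, 0, 0⟩, ⟨32, 1, 0, 2⟩, ⟨1920, 1, 0, 3⟩, ⟨2400, 1, 1, 1⟩, ⟨896, 1, 1, 2⟩, ⟨1600,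
    1, 2, 0⟩, ⟨1568, 2, 0, 1⟩, ⟨1024, 2, 0, 2⟩, ⟨1568, 2, 1, 0⟩, ⟨576, 3, 0, 0⟩],
    [⟨128, 0, 0, 2⟩, ⟨480, 0, 0, 3⟩, ⟨480, 0, 1, 1⟩, ⟨256, 0, 1, 4⟩, ⟨320, 0, 2, 0⟩, ⟨512, 0, 2, 3⟩, ⟨640, 0, 3,
    1⟩, ⟨256, 0, 3, 2⟩, ⟨256, 0, 4, 0⟩, ⟨552, 1, 0, 1⟩, ⟨512, 1, 0, 4⟩, ⟨552, 1, 1, 0⟩, ⟨1536, 1, 1, 3⟩, ⟨2048,
    1, 2, 1⟩, ⟨1024, 1, 2, 2⟩, ⟨1024, 1, 3, 0⟩, ⟨288, 2, 0, 0⟩, ⟨1536, 2, 0, 3⟩, ⟨2304, 2, 1, 1⟩, ⟨1536, 2, 1,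
    2⟩, ⟨1536, 2, 2, 0⟩, ⟨1024, 3, 0, 1⟩, ⟨1024, 3, 0, 2⟩, ⟨1024, 3, 1, 0⟩, ⟨256, 4, 0, 0⟩]⟩,
    z := ⟨[⟨16, 0, 0, 0⟩, ⟨32, 0, 0, 2⟩, ⟨1920, 0, 0, 3⟩, ⟨2400, 0, 1, 1⟩, ⟨896, 0, 1, 2⟩, ⟨1600, 0, 2, 0⟩, ⟨3136, 1,
    0, 1⟩, ⟨2048, 1, 0, 2⟩, ⟨3136, 1, 1, 0⟩, ⟨1728, 2, 0, 0⟩],
    [⟨552, 0, 0, 1⟩, ⟨512, 0, 0, 4⟩, ⟨552, 0, 1, 0⟩, ⟨1536, 0, 1, 3⟩, ⟨2048, 0, 2, 1⟩, ⟨1024, 0, 2, 2⟩, ⟨1024,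
    0, 3, 0⟩, ⟨576, 1, 0, 0⟩, ⟨3072, 1, 0, 3⟩, ⟨4608, 1, 1, 1⟩, ⟨3072, 1, 1, 2⟩, ⟨3072, 1, 2, 0⟩, ⟨3072, 2, 0,
    1⟩, ⟨3072, 2, 0, 2⟩, ⟨3072, 2, 1, 0⟩, ⟨1024, 3, 0, 0⟩]⟩,
    a := ⟨[⟨16, 0, 0, 0⟩, ⟨80, 0, 0, 2⟩, ⟨1024, 0, 0, 3⟩, ⟨2240, 0, 1, 1⟩, ⟨512, 0, 1, 2⟩, ⟨1680, 0, 2, 0⟩, ⟨2400, 1,
    0, 1⟩, ⟨896, 1, 0, 2⟩, ⟨3200, 1, 1, 0⟩, ⟨1568, 2, 0, 0⟩],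
    [⟨480, 0, 0, 1⟩, ⟨256, 0, 0, 4⟩, ⟨640, 0, 1, 0⟩, ⟨1024, 0, 1, 3⟩, ⟨1920, 0, 2, 1⟩, ⟨768, 0, 2, 2⟩, ⟨1024, 0,
    3, 0⟩, ⟨552, 1, 0, 0⟩, ⟨1536, 1, 0, 3⟩, ⟨4096, 1, 1, 1⟩, ⟨2048, 1, 1, 2⟩, ⟨3072, 1, 2, 0⟩, ⟨2304, 2, 0, 1⟩,
    ⟨1536, 2, 0, 2⟩, ⟨3072, 2, 1, 0⟩, ⟨1024, 3, 0, 0⟩]⟩,
    b := ⟨[⟨16, 0, 0, 0⟩, ⟨1536, 0, 0, 3⟩, ⟨160, 0, 1, 1⟩, ⟨3072, 0, 1, 2⟩, ⟨1120, 0, 2, 0⟩, ⟨512, 0, 2, 1⟩, ⟨64, 1,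
    0, 1⟩, ⟨5760, 1, 0, 2⟩, ⟨2400, 1, 1, 0⟩, ⟨1792, 1, 1, 1⟩, ⟨1568, 2, 0, 0⟩, ⟨2048, 2, 0, 1⟩],
    [⟨256, 0, 0, 1⟩, ⟨1440, 0, 0, 2⟩, ⟨480, 0, 1, 0⟩, ⟨1024, 0, 1, 3⟩, ⟨1536, 0, 2, 2⟩, ⟨640, 0, 3, 0⟩, ⟨512, 0,
    3, 1⟩, ⟨552, 1, 0, 0⟩, ⟨2048, 1, 0, 3⟩, ⟨4608, 1, 1, 2⟩, ⟨2048, 1, 2, 0⟩, ⟨2048, 1, 2, 1⟩, ⟨4608, 2, 0, 2⟩,
    ⟨2304, 2, 1, 0⟩, ⟨3072, 2, 1, 1⟩, ⟨1024, 3, 0, 0⟩, ⟨2048, 3, 0, 1⟩]⟩ }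

def pR : PolG :=
  { f := ⟨[⟨8, 0, 0, 1⟩, ⟨384, 0, 0, 4⟩, ⟨3, 1, 0, 0⟩, ⟨896, 1, 0, 3⟩, ⟨288, 2, 0, 1⟩, ⟨384, 2, 0, 2⟩, ⟨48, 3, 0, 0⟩],
    [⟨56, 0, 0, 2⟩, ⟨384, 0, 0, 3⟩, ⟨144, 1, 0, 1⟩, ⟨64, 1, 0, 2⟩, ⟨256, 1, 0, 4⟩, ⟨40, 2, 0, 0⟩, ⟨512, 2, 0,
    3⟩, ⟨128, 3, 0, 1⟩, ⟨256, 3, 0, 2⟩]⟩,
    z := ⟨[⟨3, 0, 0, 0⟩, ⟨896, 0, 0, 3⟩, ⟨576, 1, 0, 1⟩, ⟨768, 1, 0, 2⟩, ⟨144, 2, 0, 0⟩],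
    [⟨144, 0, 0, 1⟩, ⟨64, 0, 0, 2⟩, ⟨256, 0, 0, 4⟩, ⟨80, 1, 0, 0⟩, ⟨1024, 1, 0, 3⟩, ⟨384, 2, 0, 1⟩, ⟨768, 2, 0,
    2⟩]⟩,
    a := ⟨[],
    []⟩,
    b := ⟨[⟨8, 0, 0, 0⟩, ⟨1536, 0, 0, 3⟩, ⟨2688, 1, 0, 2⟩, ⟨288, 2, 0, 0⟩, ⟨768, 2, 0, 1⟩],
    [⟨112, 0, 0, 1⟩, ⟨1152, 0, 0, 2⟩, ⟨144, 1, 0, 0⟩, ⟨128, 1, 0, 1⟩, ⟨1024, 1, 0, 3⟩, ⟨1536, 2, 0, 2⟩, ⟨128, 3,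
    0, 0⟩, ⟨512, 3, 0, 1⟩]⟩ }

def pG : PolG :=
  { f := ⟨[⟨36, 0, 0, 2⟩, ⟨48, 0, 0, 3⟩, ⟨204, 0, 1, 1⟩, ⟨204, 0, 2, 0⟩, ⟨64, 0, 2, 2⟩, ⟨256, 0, 3, 1⟩, ⟨128, 0, 4,
    0⟩, ⟨108, 1, 0, 1⟩, ⟨216, 1, 1, 0⟩, ⟨64, 1, 1, 2⟩, ⟨576, 1, 2, 1⟩, ⟨384, 1, 3, 0⟩, ⟨48, 2, 0, 0⟩, ⟨384, 2,
    1, 1⟩, ⟨384, 2, 2, 0⟩, ⟨64, 3, 0, 1⟩, ⟨128, 3, 1, 0⟩],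
    [⟨4, 0, 0, 1⟩, ⟨8, 0, 1, 0⟩, ⟨64, 0, 1, 2⟩, ⟨64, 0, 1, 3⟩, ⟨480, 0, 2, 1⟩, ⟨320, 0, 3, 0⟩, ⟨3, 1, 0, 0⟩,
    ⟨32, 1, 0, 2⟩, ⟨64, 1, 0, 3⟩, ⟨656, 1, 1, 1⟩, ⟨656, 1, 2, 0⟩, ⟨192, 2, 0, 1⟩, ⟨384, 2, 1, 0⟩, ⟨48, 3, 0, 0⟩]⟩,
    z := ⟨[⟨108, 0, 0, 1⟩, ⟨216, 0, 1, 0⟩, ⟨64, 0, 1, 2⟩, ⟨576, 0, 2, 1⟩, ⟨384, 0, 3, 0⟩, ⟨96, 1, 0, 0⟩, ⟨768, 1, 1,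
    1⟩, ⟨768, 1, 2, 0⟩, ⟨192, 2, 0, 1⟩, ⟨384, 2, 1, 0⟩],
    [⟨3, 0, 0, 0⟩, ⟨32, 0, 0, 2⟩, ⟨64, 0, 0, 3⟩, ⟨656, 0, 1, 1⟩, ⟨656, 0, 2, 0⟩, ⟨384, 1, 0, 1⟩, ⟨768, 1, 1, 0⟩,
    ⟨144, 2, 0, 0⟩]⟩,
    a := ⟨[⟨204, 0, 0, 1⟩, ⟨408, 0, 1, 0⟩, ⟨128, 0, 1, 2⟩, ⟨768, 0, 2, 1⟩, ⟨512, 0, 3, 0⟩, ⟨216, 1, 0, 0⟩, ⟨64, 1, 0,
    2⟩, ⟨1152, 1, 1, 1⟩, ⟨1152, 1, 2, 0⟩, ⟨384, 2, 0, 1⟩, ⟨768, 2, 1, 0⟩, ⟨128, 3, 0, 0⟩],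
    [⟨8, 0, 0, 0⟩, ⟨64, 0, 0, 2⟩, ⟨64, 0, 0, 3⟩, ⟨960, 0, 1, 1⟩, ⟨960, 0, 2, 0⟩, ⟨656, 1, 0, 1⟩, ⟨1312, 1, 1,
    0⟩, ⟨384, 2, 0, 0⟩]⟩,
    b := ⟨[⟨72, 0, 0, 1⟩, ⟨144, 0, 0, 2⟩, ⟨204, 0, 1, 0⟩, ⟨128, 0, 2, 1⟩, ⟨256, 0, 3, 0⟩, ⟨108, 1, 0, 0⟩, ⟨128, 1, 1,
    1⟩, ⟨576, 1, 2, 0⟩, ⟨384, 2, 1, 0⟩, ⟨64, 3, 0, 0⟩],
    [⟨4, 0, 0, 0⟩, ⟨128, 0, 1, 1⟩, ⟨192, 0, 1, 2⟩, ⟨480, 0, 2, 0⟩, ⟨64, 1, 0, 1⟩, ⟨192, 1, 0, 2⟩, ⟨656, 1, 1,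
    0⟩, ⟨192, 2, 0, 0⟩]⟩ }

def pC : PolG :=
  { f := ⟨[⟨72, 0, 0, 1⟩, ⟨16, 0, 0, 2⟩, ⟨144, 0, 1, 0⟩, ⟨72, 1, 0, 0⟩],
    [⟨3, 0, 0, 0⟩, ⟨128, 0, 1, 1⟩, ⟨128, 0, 2, 0⟩, ⟨96, 1, 0, 1⟩, ⟨192, 1, 1, 0⟩, ⟨48, 2, 0, 0⟩]⟩,
    z := ⟨[⟨72, 0, 0, 0⟩],
    [⟨96, 0, 0, 1⟩, ⟨192, 0, 1, 0⟩, ⟨96, 1, 0, 0⟩]⟩,
    a := ⟨[⟨144, 0, 0, 0⟩],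
    [⟨128, 0, 0, 1⟩, ⟨256, 0, 1, 0⟩, ⟨192, 1, 0, 0⟩]⟩,
    b := ⟨[⟨72, 0, 0, 0⟩, ⟨32, 0, 0, 1⟩],
    [⟨128, 0, 1, 0⟩, ⟨96, 1, 0, 0⟩]⟩ }

theorem isG_F : isG pF := by unfold isG; exact ⟨rfl, rfl, rfl, rfl, rfl, rfl⟩
theorem isG_P : isG pP := by unfold isG; exact ⟨rfl, rfl, rfl, rfl, rfl, rfl⟩
theorem isG_R : isG pR := by unfold isG; exact ⟨rfl, rfl, rfl, rfl, rfl, rfl⟩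
theorem isG_G : isG pG := by unfold isG; exact ⟨rfl, rfl, rfl, rfl, rfl, rfl⟩
theorem isG_C : isG pC := by unfold isG; exact ⟨rfl, rfl, rfl, rfl, rfl, rfl⟩

/-- `-F > 0` on the box, from `-F = b³ (1 - 9 b) + a P + ζ R`. -/
def prt (B : Bx) : Bool :=
  Nat.blt 0 B.bl && Nat.blt (Nat.mul 9 B.bh) 32768 && ge0 5 pP B && ge0 5 pR B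

/-- one leaf; `0`: nothing to check (`ζ > 1/2`, or `ζ + a + b > 3/4`, or `≤ 1/32`). -/
def leaf (k : Nat) (B : Bx) : Bool :=
  match k with
  | 0 => Nat.blt 24576 (Nat.add B.zl (Nat.add B.al B.bl)) || Nat.blt 16384 B.zl ||
      Nat.blt (Nat.add B.zh (Nat.add B.ah B.bh)) 1024
  | 1 => ge0 2 pC B && ge0 4 pG B
  | 2 => ge0 2 pC B && prt B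
  | 3 => ge0 2 pC B && gt0 6 pF B
  | 4 => prt B && le0 4 pG B
  | _ => gt0 6 pF B && le0 4 pG B

/-- a tree of boxes -/
inductive Tc
  | l (k : Nat)
  | z (x y : Tc)
  | a (x y : Tc)
  | b (x y : Tc)

def chk : Tc → Bx → Bool
  | .l k, B => leaf k B
  | .z x y, B => chk x ⟨B.zl, mdl B.zl B.zh, B.al, B.ah, B.bl, B.bh⟩ && chk y ⟨mdl B.zl B.zh, B.zh, B.al, B.ah, B.bl, B.bh⟩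
  | .a x y, B => chk x ⟨B.zl, B.zh, B.al, mdl B.al B.ah, B.bl, B.bh⟩ && chk y ⟨B.zl, B.zh, mdl B.al B.ah, B.ah, B.bl, B.bh⟩
  | .b x y, B => chk x ⟨B.zl, B.zh, B.al, B.ah, B.bl, mdl B.bl B.bh⟩ && chk y ⟨B.zl, B.zh, B.al, B.ah, mdl B.bl B.bh, B.bh⟩

end Pool.Agent.Work.MP_88b7aa_gt.Cb
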