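import Pool.Agent.Work.MP_88b7aa_gt.CH.Real

/-!
# The discriminant cubic.  Size: S-M.

`FD S P D` is `fB / 256` as a cubic polynomial in `D = Δ = S + 2 cp cq cr u` (`S = x + y + z - 1`, `P = 4 x y z`, `x = cp²`, ...).
`FD1`, `FD2` are its first derivative and half of its second derivative; `DAf x y z` is the value of `D` with `fA = 1`.

PROOF of `CubUp`.  For `h ≥ 0`: `FD S P (D + h) = f0 + f1 h + f2 h² + 8 h³` with `f0 = FD S P D`, `f1 = FD1 S P D`, `f2 = FD2 S D` (ring).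
Write `s = D + h1`, `t = D + h2`, `0 ≤ h1 ≤ h2`.  Case 1 (`f1, f2 ≥ 0`): increasing in `h`.
Case 2 (`f2 ≥ 0`, `f0 < 0`): `h1 > 0`; `(FD(D+h) - f0)/h = f1 + f2 h + 8 h²` is increasing in `h`, so
`FD t ≥ f0 + (h2/h1)(FD s - f0) ≥ f0 + (h2/h1)(-f0) ≥ 0`.
Case 3 (`f0 < 0`, `f1 ≤ 0`): `h1 > 0`; `FD s ≥ 0` reads `f2 + 8 h1 ≥ (-f0)/h1² + (-f1)/h1`, the left side increases and the right side
decreases when `h1` is replaced by `h2`.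
PROOF of `fB_eq`, `fA_iff`: `ring` after unfolding, resp. linear arithmetic.
-/

namespace Pool.Agent.Work.MP_88b7aa_gt.Cb

open Pool.Agent.Work.MP_88b7aa_gt.CH

noncomputable def FD (S P D : ℝ) : ℝ :=
  8 * D ^ 3 + (4 * S ^ 2 - 10 * S + 13 / 4) * D ^ 2 + (1 - S / 2 + (4 * S - 5) * (P - S ^ 2)) * D +
    (P - S ^ 2) * (P - S ^ 2 - 1 / 4)

noncomputable def FD1 (S P D : ℝ) : ℝ :=
  24 * D ^ 2 + 2 * (4 * S ^ 2 - 10 * S + 13 / 4) * D + (1 - S / 2 + (4 * S - 5) * (P - S ^ 2))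

noncomputable def FD2 (S D : ℝ) : ℝ := 24 * D + (4 * S ^ 2 - 10 * S + 13 / 4)

noncomputable def DAf (x y z : ℝ) : ℝ := (z - (1 - 2 * x) * (1 - 2 * y)) / 2

/-- The criterion at `D = DAf x y z`. -/
def Crit (x y z : ℝ) : Prop :=
  (0 ≤ FD2 (x + y + z - 1) (DAf x y z) ∧ 0 ≤ FD1 (x + y + z - 1) (4 * (x * y * z)) (DAf x y z)) ∨
  (0 ≤ FD2 (x + y + z - 1) (DAf x y z) ∧ FD (x + y + z - 1) (4 * (x * y * z)) (DAf x y z) < 0) ∨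
  (FD (x + y + z - 1) (4 * (x * y * z)) (DAf x y z) < 0 ∧
    FD1 (x + y + z - 1) (4 * (x * y * z)) (DAf x y z) ≤ 0)

theorem CubUp (S P D : ℝ)
    (h : (0 ≤ FD2 S D ∧ 0 ≤ FD1 S P D) ∨ (0 ≤ FD2 S D ∧ FD S P D < 0) ∨ (FD S P D < 0 ∧ FD1 S P D ≤ 0))
    (s t : ℝ) (hs : D ≤ s) (hst : s ≤ t) (h0 : 0 ≤ FD S P s) : 0 ≤ FD S P t := by
  have hexp : ∀ h : ℝ, FD S P (D + h) = FD S P D + FD1 S P D * h + FD2 S D * h ^ 2 + 8 * h ^ 3 := by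
    intro h
    unfold FD FD1 FD2
    ring
  obtain ⟨h1, rfl⟩ : ∃ h1, s = D + h1 := ⟨s - D, by ring⟩
  obtain ⟨h2, rfl⟩ : ∃ h2, t = D + h2 := ⟨t - D, by ring⟩
  have hh1 : 0 ≤ h1 := by linarith
  have hh2 : h1 ≤ h2 := by linarith
  rw [hexp] at h0 ⊢
  set f0 := FD S P D with hf0
  set f1 := FD1 S P D with hf1
  set f2 := FD2 S D with hf2
  have hd : 0 ≤ h2 - h1 := by linarith
  have hh2' : 0 ≤ h2 := by linarith
  have hh12 : 0 ≤ h1 * h2 := mul_nonneg hh1 hh2'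
  rcases h with ⟨h2p, h1p⟩ | ⟨h2p, h0n⟩ | ⟨h0n, h1n⟩
  · have e1 : 0 ≤ f1 * (h2 - h1) := mul_nonneg h1p hd
    have e2 : 0 ≤ f2 * ((h2 - h1) * (h2 + h1)) := mul_nonneg h2p (mul_nonneg hd (by linarith))
    have e3 : 0 ≤ (h2 - h1) * (h2 ^ 2 + h1 * h2 + h1 ^ 2) := mul_nonneg hd (by positivity)
    nlinarith
  · have hpos : 0 < h1 := by
      rcases eq_or_lt_of_le hh1 with h | h
      · rw [← h] at h0
        nlinarith
      · exact h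
    have e0 : 0 ≤ -f0 * (h2 - h1) := mul_nonneg (by linarith) hd
    have e1 : 0 ≤ f2 * (h1 * h2 * (h2 - h1)) := mul_nonneg h2p (mul_nonneg hh12 hd)
    have e2 : 0 ≤ h1 * h2 * ((h2 - h1) * (h2 + h1)) :=
      mul_nonneg hh12 (mul_nonneg hd (by linarith))
    have e3 : 0 ≤ h2 * (f0 + f1 * h1 + f2 * h1 ^ 2 + 8 * h1 ^ 3) := mul_nonneg hh2' h0
    have e4 : 0 ≤ h1 * (f0 + f1 * h2 + f2 * h2 ^ 2 + 8 * h2 ^ 3) := by
      have : h1 * (f0 + f1 * h2 + f2 * h2 ^ 2 + 8 * h2 ^ 3) =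
          h2 * (f0 + f1 * h1 + f2 * h1 ^ 2 + 8 * h1 ^ 3) + -f0 * (h2 - h1) +
            f2 * (h1 * h2 * (h2 - h1)) + 8 * (h1 * h2 * ((h2 - h1) * (h2 + h1))) := by ring
      rw [this]
      linarith
    exact nonneg_of_mul_nonneg_right e4 hpos
  · have hpos : 0 < h1 := by
      rcases eq_or_lt_of_le hh1 with h | h
      · rw [← h] at h0
        nlinarith
      · exact h
    have e0 : 0 ≤ -f0 * ((h2 - h1) * (h2 + h1)) :=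
      mul_nonneg (by linarith) (mul_nonneg hd (by linarith))
    have e1 : 0 ≤ -f1 * (h1 * h2 * (h2 - h1)) := mul_nonneg (by linarith) (mul_nonneg hh12 hd)
    have e2 : 0 ≤ h1 * h2 * (h1 * h2) * (h2 - h1) := mul_nonneg (mul_nonneg hh12 hh12) hd
    have e3 : 0 ≤ h2 ^ 2 * (f0 + f1 * h1 + f2 * h1 ^ 2 + 8 * h1 ^ 3) :=
      mul_nonneg (by positivity) h0
    have e4 : 0 ≤ h1 ^ 2 * (f0 + f1 * h2 + f2 * h2 ^ 2 + 8 * h2 ^ 3) := by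
      have : h1 ^ 2 * (f0 + f1 * h2 + f2 * h2 ^ 2 + 8 * h2 ^ 3) =
          h2 ^ 2 * (f0 + f1 * h1 + f2 * h1 ^ 2 + 8 * h1 ^ 3) + -f0 * ((h2 - h1) * (h2 + h1)) +
            -f1 * (h1 * h2 * (h2 - h1)) + 8 * (h1 * h2 * (h1 * h2) * (h2 - h1)) := by ring
      rw [this]
      linarith
    exact nonneg_of_mul_nonneg_right e4 (by positivity)

theorem fB_eq (cp cq cr u : ℝ) : fB cp cq cr u =
    256 * FD (cp ^ 2 + cq ^ 2 + cr ^ 2 - 1) (4 * (cp ^ 2 * cq ^ 2 * cr ^ 2))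
      (cp ^ 2 + cq ^ 2 + cr ^ 2 - 1 + 2 * (cp * cq * cr) * u) := by
  unfold fB FD reB im2B
  ring

theorem fA_iff (cp cq cr u : ℝ) : 1 ≤ fA cp cq cr u ↔
    DAf (cp ^ 2) (cq ^ 2) (cr ^ 2) ≤ cp ^ 2 + cq ^ 2 + cr ^ 2 - 1 + 2 * (cp * cq * cr) * u := by
  unfold fA DAf
  constructor
  · intro h
    linarith
  · intro h
    linarith

end Pool.Agent.Work.MP_88b7aa_gt.Cb
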