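import Pool.Agent.Work.MP_88b7aa_gt.Cb.Chk

/-! Trees for the discriminant cubic, checked by the kernel. -/

set_option maxRecDepth 100000

namespace Pool.Agent.Work.MP_88b7aa_gt.Cb

def u03 : Tc :=
  (.z (.a (.b (.z (.a (.b (.z (.a (.b (.z (.l 2) (.a (.l 2) (.l 3))) (.z (.a (.l 2) (.l 3)) (.a (.l 3) (.b (.l 3) (.z (.l 3) (.l 3)))))) (.b (.z (.a (.l 3) (.b (.l 3) (.z (.l 3) (.a (.l 3) (.l 1))))) (.a (.b (.l 3) (.z (.l 3) (.l 3))) (.b (.z (.l 3) (.l 1)) (.l 1)))) (.z (.a (.b (.l 3) (.z (.l 3) (.a (.l 3) (.l 1)))) (.b (.z (.a (.l 1) (.l 1)) (.l 1)) (.l 1))) (.a (.b (.z (.l 3) (.a (.l 1) (.l 1))) (.z (.l 1) (.l 1))) (.l 1))))) (.a (.b (.z (.a (.l 3) (.b (.l 3) (.l 3))) (.a (.l 3) (.b (.l 3) (.z (.l 3) (.a (.l 3) (.l 1)))))) (.z (.a (.b (.l 3) (.l 3)) (.b (.z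 (.l 3) (.a (.l 3) (.l 1))) (.z (.a (.l 3) (.l 1)) (.a (.l 1) (.l 1))))) (.a (.b (.l 3) (.z (.l 3) (.a (.l 3) (.l 1)))) (.b (.z (.a (.l 3) (.l 1)) (.l 1)) (.l 1))))) (.b (.z (.a (.b (.z (.l 3) (.l 3)) (.z (.a (.l 3) (.l 1)) (.l 1))) (.l 1)) (.a (.b (.l 1) (.l 1)) (.l 1))) (.z (.a (.l 1) (.l 1)) (.l 1))))) (.z (.a (.b (.z (.a (.b (.l 3) (.l 3)) (.b (.l 3) (.z (.l 3) (.a (.l 3) (.l 1))))) (.a (.b (.l 3) (.z (.l 3) (.l 3))) (.b (.z (.a (.l 3) (.l 1)) (.a (.l 3) (.l 1))) (.z (.a (.l 3) (.l 1)) (.l 1))))) (.z (.a (.b (.z (.l 3) (.l 3)) (.z (.l 3) (.a (.l 3) (.l 3)))) (.b (.z (.a (.l 3) (.l 1)) (.a (.l 3) (.l 1))) (.z (.a (.l 1) (.l 1)) (.l 1)))) (.a (.b (.z (.a (.l 3) (.l 3)) (.a (.l 3) (.l 1))) (.z (.a (.l 3) (.l 1)) (.a (.l 1) (.l 1)))) (.l 1)))) (.b (.z (.a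 (.b (.z (.a (.l 3) (.l 1)) (.l 1)) (.l 1)) (.l 1)) (.a (.l 1) (.l 1))) (.z (.l 1) (.l 1)))) (.a (.b (.z (.a (.b (.z (.l 3) (.a (.l 3) (.l 3))) (.z (.a (.l 3) (.l 1)) (.a (.l 3) (.l 1)))) (.b (.z (.l 1) (.l 1)) (.l 1))) (.a (.b (.z (.a (.l 3) (.l 1)) (.a (.l 1) (.l 1))) (.l 1)) (.l 1))) (.z (.a (.b (.z (.a (.l 3) (.l 1)) (.l 1)) (.l 1)) (.l 1)) (.a (.l 1) (.l 1)))) (.b (.l 1) (.l 1))))) (.b (.z (.a (.b (.z (.a (.b (.l 1) (.l 1)) (.l 1)) (.l 1)) (.l 1)) (.l 1)) (.a (.l 1) (.l 1))) (.z (.a (.l 1) (.l 1)) (.l 1)))) (.a (.b (.z (.a (.b (.z (.a (.b (.l 3) (.z (.l 3) (.l 3))) (.b (.z (.a (.l 3) (.l 1)) (.l 1)) (.l 1))) (.a (.b (.z (.l 3) (.a (.l 3) (.l 1))) (.z (.a (.l 3) (.l 1)) (.l 1))) (.l 1))) (.z (.a (.b (.z (.a (.l 3) (.l 1)) (.a (.l 3) (.l 1))) (.z (.a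 (.l 1) (.l 1)) (.l 1))) (.l 1)) (.a (.b (.l 1) (.l 1)) (.l 1)))) (.b (.z (.l 1) (.l 1)) (.l 1))) (.a (.b (.z (.a (.b (.z (.a (.l 1) (.l 1)) (.l 1)) (.l 1)) (.l 1)) (.a (.l 1) (.l 1))) (.z (.l 1) (.l 1))) (.l 1))) (.z (.a (.b (.z (.a (.l 1) (.l 1)) (.l 1)) (.l 1)) (.l 1)) (.a (.l 1) (.l 1)))) (.b (.z (.a (.l 1) (.l 1)) (.l 1)) (.l 1)))) (.z (.a (.b (.z (.a (.b (.z (.a (.b (.z (.a (.l 3) (.b (.l 3) (.l 1))) (.a (.l 3) (.l 1))) (.z (.a (.b (.l 3) (.l 1)) (.l 1)) (.l 1))) (.l 1)) (.a (.b (.z (.l 1) (.l 1)) (.l 1)) (.l 1))) (.z (.a (.b (.l 1) (.l 1)) (.l 1)) (.l 1))) (.l 1)) (.a (.b (.z (.l 1) (.l 1)) (.l 1)) (.l 1))) (.z (.a (.b (.l 1) (.l 1)) (.l 1)) (.a (.l 1) (.l 1)))) (.b (.l 1) (.l 1))) (.a (.b (.z (.a (.l 1) (.l 1)) (.l 1)) (.l 1)) (.l 1)))) (.b (.z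 (.a (.b (.l 1) (.l 1)) (.l 1)) (.a (.l 1) (.l 1))) (.z (.a (.l 1) (.l 1)) (.l 1)))) (.a (.b (.z (.a (.b (.z (.a (.b (.l 1) (.l 1)) (.l 1)) (.a (.l 1) (.l 1))) (.z (.a (.l 1) (.l 1)) (.l 1))) (.b (.l 1) (.l 1))) (.a (.b (.z (.l 1) (.l 1)) (.l 1)) (.l 1))) (.z (.a (.b (.l 1) (.l 1)) (.l 1)) (.a (.l 1) (.l 1)))) (.b (.z (.a (.l 1) (.l 1)) (.l 1)) (.l 1))))

theorem hu03 : chk u03 ⟨0, 2048, 0, 2048, 2048, 4096⟩ = true := by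
  decide +kernel

def u04 : Tc :=
  (.b (.z (.a (.b (.z (.a (.b (.l 1) (.l 1)) (.l 1)) (.a (.l 1) (.l 1))) (.z (.a (.l 1) (.l 1)) (.l 1))) (.b (.l 1) (.l 1))) (.a (.b (.z (.a (.l 1) (.l 1)) (.l 1)) (.l 1)) (.b (.l 1) (.l 1)))) (.z (.a (.b (.l 1) (.l 1)) (.l 1)) (.a (.b (.l 1) (.l 1)) (.l 1))))

theorem hu04 : chk u04 ⟨0, 2048, 2048, 4096, 0, 4096⟩ = true := by
  decide +kernel

def u05 : Tc :=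
  (.a (.b (.z (.a (.b (.z (.a (.b (.z (.a (.b (.z (.a (.b (.l 3) (.z (.l 3) (.a (.l 3) (.l 1)))) (.b (.z (.a (.l 1) (.l 1)) (.l 1)) (.l 1))) (.a (.b (.z (.l 3) (.a (.l 1) (.l 1))) (.z (.l 1) (.l 1))) (.l 1))) (.z (.a (.b (.z (.a (.l 1) (.l 1)) (.l 1)) (.l 1)) (.l 1)) (.a (.l 1) (.l 1)))) (.b (.z (.a (.l 1) (.l 1)) (.l 1)) (.l 1))) (.a (.b (.z (.a (.b (.z (.l 1) (.l 1)) (.l 1)) (.l 1)) (.a (.l 1) (.l 1))) (.z (.l 1) (.l 1))) (.b (.l 1) (.l 1)))) (.z (.a (.b (.z (.a (.l 1) (.l 1)) (.l 1)) (.l 1)) (.l 1)) (.a (.b (.l 1) (.l 1)) (.l 1)))) (.b (.z (.a (.l 1) (.l 1)) (.l 1)) (.z (.l 1) (.l 1)))) (.a (.b (.z (.a (.b (.z (.l 1) (.l 1)) (.l 1)) (.l 1)) (.a (.l 1) (.l 1))) (.z (.a (.l 1) (.l 1)) (.l 1))) (.b (.l 1) (.l 1)))) (.z (.a (.b (.z (.a (.l 1) (.l 1)) (.a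 (.l 1) (.l 1))) (.z (.l 1) (.l 1))) (.b (.l 1) (.l 1))) (.a (.b (.l 1) (.l 1)) (.l 1)))) (.b (.z (.a (.l 1) (.l 1)) (.a (.l 1) (.l 1))) (.z (.a (.l 1) (.l 1)) (.l 1)))) (.a (.b (.z (.a (.b (.z (.a (.l 1) (.l 1)) (.l 1)) (.l 1)) (.l 1)) (.a (.b (.l 1) (.l 1)) (.l 1))) (.z (.a (.l 1) (.l 1)) (.a (.l 1) (.l 1)))) (.b (.z (.a (.l 1) (.l 1)) (.l 1)) (.l 1)))) (.z (.a (.b (.z (.a (.b (.l 1) (.l 1)) (.l 1)) (.a (.l 1) (.l 1))) (.z (.a (.l 1) (.l 1)) (.l 1))) (.b (.l 1) (.l 1))) (.a (.b (.z (.a (.l 1) (.l 1)) (.l 1)) (.l 1)) (.b (.l 1) (.l 1))))) (.b (.z (.a (.b (.l 1) (.l 1)) (.l 1)) (.a (.b (.l 1) (.l 1)) (.l 1))) (.z (.a (.l 1) (.l 1)) (.a (.l 1) (.l 1)))))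

theorem hu05 : chk u05 ⟨2048, 4096, 0, 4096, 0, 4096⟩ = true := by
  decide +kernel

def u06 : Tc :=
  (.z (.a (.b (.z (.a (.b (.z (.a (.b (.z (.l 1) (.l 1)) (.l 1)) (.l 1)) (.a (.l 1) (.l 1))) (.z (.a (.l 1) (.l 1)) (.l 1))) (.b (.l 1) (.l 1))) (.a (.b (.z (.a (.l 1) (.l 1)) (.l 1)) (.l 1)) (.l 1))) (.z (.a (.b (.l 1) (.l 1)) (.l 1)) (.a (.l 1) (.l 1)))) (.b (.z (.a (.l 1) (.l 1)) (.a (.l 1) (.l 1))) (.z (.l 1) (.l 1)))) (.a (.b (.z (.a (.b (.l 1) (.l 1)) (.l 1)) (.a (.l 1) (.l 1))) (.z (.a (.l 1) (.l 1)) (.a (.l 1) (.l 1)))) (.b (.z (.l 1) (.l 1)) (.l 1))))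

theorem hu06 : chk u06 ⟨0, 4096, 0, 4096, 4096, 8192⟩ = true := by
  decide +kernel

def u07 : Tc :=
  (.b (.z (.a (.b (.z (.a (.l 1) (.l 1)) (.a (.l 1) (.l 1))) (.z (.a (.l 1) (.l 1)) (.l 1))) (.b (.z (.l 1) (.l 1)) (.l 1))) (.a (.b (.z (.a (.l 1) (.l 1)) (.l 1)) (.z (.l 1) (.l 1))) (.b (.l 1) (.l 1)))) (.z (.a (.b (.l 1) (.l 1)) (.b (.l 1) (.l 1))) (.a (.b (.l 1) (.l 1)) (.b (.l 1) (.l 1)))))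

theorem hu07 : chk u07 ⟨0, 4096, 4096, 8192, 0, 8192⟩ = true := by
  decide +kernel

def u08 : Tc :=
  (.a (.b (.z (.a (.b (.z (.a (.b (.z (.a (.l 1) (.l 1)) (.a (.l 1) (.l 1))) (.z (.a (.l 1) (.l 1)) (.l 1))) (.b (.l 1) (.l 1))) (.a (.b (.z (.a (.l 1) (.l 1)) (.l 1)) (.l 1)) (.b (.l 1) (.l 1)))) (.z (.a (.b (.l 1) (.l 1)) (.l 1)) (.a (.b (.l 1) (.l 1)) (.l 1)))) (.b (.z (.a (.l 1) (.l 1)) (.a (.l 1) (.l 1))) (.z (.a (.l 1) (.l 1)) (.a (.l 1) (.l 1))))) (.a (.b (.z (.a (.b (.l 1) (.l 1)) (.l 1)) (.a (.b (.l 1) (.l 1)) (.l 1))) (.z (.a (.l 1) (.l 1)) (.a (.l 1) (.l 1)))) (.b (.z (.a (.l 1) (.l 1)) (.a (.l 1) (.l 1))) (.z (.l 1) (.l 1))))) (.z (.a (.b (.z (.a (.l 1) (.l 1)) (.a (.l 1) (.l 1))) (.z (.l 1) (.l 1))) (.b (.z (.l 1) (.l 1)) (.l 1))) (.a (.b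 (.z (.a (.l 1) (.l 1)) (.l 1)) (.z (.l 1) (.l 1))) (.b (.l 1) (.l 1))))) (.b (.z (.a (.b (.z (.l 1) (.l 1)) (.l 1)) (.b (.l 1) (.l 1))) (.a (.b (.z (.l 1) (.l 1)) (.l 1)) (.b (.l 1) (.l 1)))) (.z (.a (.b (.l 1) (.l 1)) (.l 1)) (.a (.b (.l 1) (.l 1)) (.b (.l 1) (.l 1))))))

theorem hu08 : chk u08 ⟨4096, 8192, 0, 8192, 0, 8192⟩ = true := by
  decide +kernel

def u09 : Tc :=
  (.z (.a (.b (.z (.a (.b (.z (.a (.l 1) (.l 1)) (.l 1)) (.l 1)) (.b (.l 1) (.l 1))) (.a (.b (.z (.l 1) (.l 1)) (.l 1)) (.b (.l 1) (.l 1)))) (.z (.a (.l 1) (.l 1)) (.a (.l 1) (.l 1)))) (.b (.z (.a (.l 1) (.l 1)) (.a (.l 1) (.l 1))) (.z (.a (.l 1) (.l 1)) (.a (.l 1) (.l 1))))) (.a (.b (.z (.a (.b (.l 1) (.l 1)) (.l 1)) (.a (.b (.l 1) (.l 1)) (.l 1))) (.z (.a (.l 1) (.l 1)) (.a (.l 1) (.l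 1)))) (.b (.z (.a (.l 1) (.l 1)) (.a (.l 1) (.l 1))) (.z (.a (.l 1) (.l 1)) (.a (.l 1) (.l 1))))))

theorem hu09 : chk u09 ⟨0, 8192, 0, 8192, 8192, 16384⟩ = true := by
  decide +kernel

end Pool.Agent.Work.MP_88b7aa_gt.Cb
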