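import Pool.Agent.Work.MP_88b7aa_gt.Cb.Chk

/-! Trees for the discriminant cubic, checked by the kernel. -/

set_option maxRecDepth 100000

namespace Pool.Agent.Work.MP_88b7aa_gt.Cb

def u10 : Tc :=
  (.b (.z (.a (.b (.z (.a (.b (.l 1) (.l 1)) (.l 1)) (.a (.b (.l 1) (.l 1)) (.l 1))) (.z (.a (.l 1) (.l 1)) (.a (.l 1) (.l 1)))) (.b (.z (.a (.l 1) (.l 1)) (.a (.l 1) (.l 1))) (.z (.a (.l 1) (.l 1)) (.a (.l 1) (.b (.l 1) (.l 1)))))) (.a (.b (.z (.a (.b (.l 1) (.l 1)) (.b (.l 1) (.l 1))) (.a (.b (.l 1) (.l 1)) (.b (.l 1) (.l 1)))) (.z (.a (.l 1) (.l 1)) (.a (.b (.l 1) (.l 1)) (.b (.l 1) (.l 1))))) (.b (.z (.a (.b (.l 1) (.l 1)) (.b (.l 1) (.l 1))) (.a (.b (.l 1) (.l 1)) (.b (.z (.l 1) (.l 1)) (.z (.l 1) (.l 1))))) (.z (.a (.b (.l 1) (.l 1)) (.b (.l 1) (.l 1)))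 (.a (.b (.l 1) (.l 1)) (.b (.z (.l 1) (.l 0)) (.l 0))))))) (.z (.a (.b (.z (.a (.l 1) (.l 1)) (.a (.l 1) (.l 1))) (.z (.a (.l 1) (.l 1)) (.a (.l 1) (.l 1)))) (.b (.z (.a (.l 1) (.l 1)) (.a (.l 1) (.b (.l 1) (.l 0)))) (.z (.a (.l 1) (.l 0)) (.l 0)))) (.a (.b (.z (.a (.l 1) (.l 1)) (.a (.l 1) (.b (.l 1) (.l 0)))) (.z (.a (.l 1) (.l 0)) (.l 0))) (.b (.z (.a (.b (.l 1) (.l 0)) (.l 0)) (.l 0)) (.l 0)))))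

theorem hu10 : chk u10 ⟨0, 8192, 8192, 16384, 0, 16384⟩ = true := by
  decide +kernel

def u11 : Tc :=
  (.a (.b (.z (.a (.b (.z (.a (.b (.z (.a (.l 1) (.l 1)) (.a (.l 1) (.l 1))) (.z (.a (.l 1) (.l 1)) (.a (.l 1) (.l 1)))) (.b (.z (.l 1) (.l 1)) (.z (.l 1) (.l 1)))) (.a (.b (.z (.a (.l 1) (.l 1)) (.a (.l 1) (.l 1))) (.z (.l 1) (.l 1))) (.b (.z (.l 1) (.l 1)) (.z (.l 1) (.l 1))))) (.z (.a (.b (.z (.l 1) (.l 1)) (.l 1)) (.b (.l 1) (.l 1))) (.a (.b (.z (.l 1) (.l 1)) (.l 1)) (.b (.l 1) (.l 1))))) (.b (.z (.a (.b (.z (.l 1) (.l 1)) (.l 1)) (.b (.l 1) (.l 1))) (.a (.b (.l 1) (.l 1)) (.b (.l 1) (.l 1)))) (.z (.a (.b (.l 1) (.l 1)) (.b (.l 1) (.l 1))) (.a (.b (.l 1) (.l 1)) (.b (.l 1) (.l 1)))))) (.a (.b (.z (.a (.b (.z (.a (.l 1) (.l 1)) (.l 1)) (.z (.l 1)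 (.l 1))) (.b (.z (.l 1) (.l 1)) (.l 1))) (.a (.b (.z (.l 1) (.l 1)) (.z (.l 1) (.l 1))) (.b (.z (.l 1) (.l 1)) (.z (.l 1) (.l 1))))) (.z (.a (.b (.l 1) (.l 1)) (.b (.l 1) (.l 1))) (.a (.b (.l 1) (.l 1)) (.b (.l 1) (.l 1))))) (.b (.z (.a (.b (.z (.l 1) (.l 1)) (.l 1)) (.b (.z (.l 1) (.l 1)) (.z (.l 1) (.l 1)))) (.a (.b (.z (.l 1) (.l 1)) (.z (.l 1) (.l 1))) (.b (.z (.l 1) (.l 1)) (.z (.l 1) (.a (.l 1) (.l 1)))))) (.z (.a (.b (.l 1) (.l 1)) (.b (.z (.l 1) (.l 1)) (.z (.l 1) (.l 0)))) (.a (.b (.z (.l 1) (.l 1)) (.z (.l 1) (.l 0))) (.b (.z (.l 1) (.l 0)) (.l 0))))))) (.z (.a (.b (.z (.a (.b (.l 1) (.l 1)) (.l 1)) (.a (.b (.l 1) (.l 1)) (.l 1))) (.z (.a (.l 1) (.l 1)) (.a (.l 1) (.l 1)))) (.b (.z (.a (.l 1) (.l 1)) (.a (.b (.l 1) (.l 1)) (.b (.l 1) (.l 0))))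 (.z (.a (.l 1) (.l 0)) (.l 0)))) (.a (.b (.z (.a (.b (.l 1) (.l 1)) (.b (.l 1) (.l 1))) (.a (.b (.l 1) (.l 1)) (.b (.l 1) (.l 0)))) (.z (.a (.l 1) (.l 0)) (.l 0))) (.b (.z (.a (.b (.l 1) (.l 0)) (.l 0)) (.l 0)) (.l 0))))) (.b (.z (.a (.b (.z (.a (.b (.l 1) (.l 1)) (.b (.l 1) (.l 1))) (.a (.b (.l 1) (.l 1)) (.b (.z (.l 1) (.l 1)) (.z (.l 1) (.l 1))))) (.z (.a (.b (.l 1) (.l 1)) (.b (.l 1) (.l 1))) (.a (.b (.z (.l 1) (.l 1)) (.z (.l 1) (.l 0))) (.b (.z (.l 1) (.l 0)) (.l 0))))) (.b (.z (.a (.b (.z (.l 1) (.l 1)) (.z (.l 1) (.l 1))) (.b (.z (.l 1) (.a (.l 1) (.l 1))) (.z (.l 1) (.l 0)))) (.a (.b (.z (.l 1) (.a (.l 1) (.l 1))) (.z (.a (.l 1) (.l 0)) (.l 0))) (.b (.z (.a (.l 1) (.l 0)) (.l 0)) (.l 0)))) (.z (.a (.b (.z (.l 1) (.l 0)) (.l 0)) (.l 0)) (.l 0))))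 (.a (.b (.z (.a (.b (.z (.l 1) (.l 1)) (.z (.l 1) (.l 1))) (.b (.z (.a (.l 1) (.l 1)) (.a (.l 1) (.l 1))) (.z (.a (.l 1) (.l 0)) (.l 0)))) (.a (.b (.z (.a (.l 1) (.l 1)) (.a (.l 1) (.l 1))) (.z (.a (.l 1) (.l 0)) (.l 0))) (.b (.z (.a (.l 1) (.l 0)) (.l 0)) (.l 0)))) (.z (.a (.b (.z (.l 1) (.l 0)) (.l 0)) (.l 0)) (.l 0))) (.b (.z (.a (.b (.z (.a (.l 1) (.l 0)) (.l 0)) (.l 0)) (.l 0)) (.l 0)) (.l 0)))) (.z (.a (.b (.z (.a (.b (.l 1) (.l 0)) (.l 0)) (.l 0)) (.l 0)) (.l 0)) (.l 0))))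

theorem hu11 : chk u11 ⟨8192, 16384, 0, 16384, 0, 16384⟩ = true := by
  decide +kernel

def u12 : Tc :=
  (.z (.a (.b (.z (.a (.b (.z (.l 1) (.l 1)) (.l 1)) (.b (.z (.l 1) (.l 1)) (.l 1))) (.a (.b (.z (.l 1) (.l 1)) (.l 1)) (.b (.z (.l 1) (.l 0)) (.l 0)))) (.z (.a (.l 1) (.l 0)) (.l 0))) (.b (.z (.a (.b (.z (.l 1) (.l 0)) (.l 0)) (.l 0)) (.l 0)) (.l 0))) (.a (.b (.z (.a (.b (.z (.a (.l 1) (.l 0)) (.l 0)) (.l 0)) (.l 0)) (.l 0)) (.l 0)) (.l 0)))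

theorem hu12 : chk u12 ⟨0, 16384, 0, 16384, 16384, 32768⟩ = true := by
  decide +kernel

def u13 : Tc :=
  (.b (.z (.a (.b (.z (.a (.b (.z (.a (.l 1) (.b (.l 1) (.l 1))) (.a (.b (.l 1) (.l 1)) (.b (.l 1) (.l 1)))) (.z (.a (.l 1) (.b (.l 1) (.l 1))) (.a (.b (.l 1) (.l 1)) (.b (.z (.l 1) (.l 0)) (.l 0))))) (.b (.z (.a (.b (.l 1) (.l 1)) (.b (.z (.l 1) (.l 1)) (.z (.l 1) (.l 0)))) (.a (.b (.z (.l 1) (.l 1)) (.z (.l 1) (.l 0))) (.b (.z (.a (.l 1) (.l 0)) (.l 0)) (.l 0)))) (.z (.a (.b (.l 1) (.l 0)) (.l 0)) (.l 0)))) (.a (.b (.z (.a (.b (.l 1) (.z (.l 1) (.l 1))) (.b (.z (.l 1) (.l 1)) (.z (.l 1) (.l 0)))) (.a (.b (.z (.l 1) (.a (.l 1) (.l 1))) (.z (.l 1) (.l 0))) (.b (.z (.a (.l 1) (.l 0)) (.l 0)) (.l 0)))) (.z (.a (.b (.z (.l 1) (.l 0)) (.l 0)) (.l 0))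 (.l 0))) (.b (.z (.a (.b (.z (.a (.l 1) (.l 0)) (.l 0)) (.l 0)) (.l 0)) (.l 0)) (.l 0)))) (.z (.a (.b (.z (.a (.l 1) (.l 0)) (.l 0)) (.l 0)) (.l 0)) (.l 0))) (.b (.z (.a (.b (.z (.a (.b (.z (.l 1) (.l 0)) (.l 0)) (.l 0)) (.l 0)) (.l 0)) (.l 0)) (.l 0)) (.l 0))) (.a (.b (.z (.a (.b (.z (.a (.b (.z (.a (.l 1) (.l 0)) (.l 0)) (.l 0)) (.l 0)) (.l 0)) (.l 0)) (.l 0)) (.l 0)) (.l 0)) (.l 0))) (.l 0))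

theorem hu13 : chk u13 ⟨0, 16384, 16384, 32768, 0, 32768⟩ = true := by
  decide +kernel

def u14 : Tc :=
  (.a (.b (.z (.a (.b (.z (.a (.b (.z (.a (.b (.z (.l 1) (.l 0)) (.z (.l 1) (.l 0))) (.b (.z (.l 1) (.l 0)) (.z (.l 1) (.l 0)))) (.l 0)) (.z (.a (.b (.z (.l 1) (.l 0)) (.l 1)) (.b (.z (.l 1) (.l 0)) (.z (.l 1) (.l 0)))) (.l 0))) (.b (.z (.a (.b (.z (.l 1) (.l 0)) (.z (.l 1) (.l 0))) (.b (.z (.a (.l 1) (.l 1)) (.l 0)) (.z (.a (.l 1) (.l 0)) (.l 0)))) (.l 0)) (.z (.a (.b (.z (.l 1) (.l 0)) (.l 0)) (.l 0)) (.l 0)))) (.l 0)) (.z (.a (.b (.z (.a (.b (.l 1) (.l 0)) (.l 0)) (.l 0)) (.l 0)) (.l 0)) (.l 0))) (.b (.z (.a (.b (.z (.a (.b (.z (.a (.l 1) (.l 0)) (.l 0)) (.l 0)) (.l 0)) (.l 0)) (.l 0)) (.l 0)) (.l 0)) (.l 0))) (.l 0)) (.l 0)) (.l 0))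

theorem hu14 : chk u14 ⟨16384, 32768, 0, 32768, 0, 32768⟩ = true := by
  decide +kernel

end Pool.Agent.Work.MP_88b7aa_gt.Cb
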