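import Pool.Agent.Work.MP_88b7aa_gt.Cb.E01
import Pool.Agent.Work.MP_88b7aa_gt.Cb.E02
import Pool.Agent.Work.MP_88b7aa_gt.Cb.E03
import Pool.Agent.Work.MP_88b7aa_gt.Cb.E04

/-! The root box is covered. -/

namespace Pool.Agent.Work.MP_88b7aa_gt.Cb

theorem chk_z (x y : Tc) (zl zh al ah bl bh m : Nat) (hm : m = mdl zl zh) (h1 : chk x ⟨zl, m, al, ah, bl, bh⟩ = true)
    (h2 : chk y ⟨m, zh, al, ah, bl, bh⟩ = true) : chk (.z x y) ⟨zl, zh, al, ah, bl, bh⟩ = true := by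
  subst hm; simp only [chk, h1, h2, Bool.and_self]

theorem chk_a (x y : Tc) (zl zh al ah bl bh m : Nat) (hm : m = mdl al ah) (h1 : chk x ⟨zl, zh, al, m, bl, bh⟩ = true)
    (h2 : chk y ⟨zl, zh, m, ah, bl, bh⟩ = true) : chk (.a x y) ⟨zl, zh, al, ah, bl, bh⟩ = true := by
  subst hm; simp only [chk, h1, h2, Bool.and_self]

theorem chk_b (x y : Tc) (zl zh al ah bl bh m : Nat) (hm : m = mdl bl bh) (h1 : chk x ⟨zl, zh, al, ah, bl, m⟩ = true)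
    (h2 : chk y ⟨zl, zh, al, ah, m, bh⟩ = true) : chk (.b x y) ⟨zl, zh, al, ah, bl, bh⟩ = true := by
  subst hm; simp only [chk, h1, h2, Bool.and_self]

theorem root : ∃ T, chk T ⟨0, 32768, 0, 32768, 0, 32768⟩ = true :=
  ⟨(.z (.a (.b (.z (.a (.b (.z (.a (.b (.z (.a (.b (.z (.a u00 u01) u02) u03) u04) u05) u06) u07) u08) u09) u10) u11) u12) u13) u14),
    (chk_z _ _ 0 32768 0 32768 0 32768 16384 rfl (chk_a _ _ 0 16384 0 32768 0 32768 16384 rfl (chk_b _ _ 0 16384 0 16384 0 32768 16384 rfl (chk_z _ _ 0 16384 0 16384 0 16384 8192 rfl (chk_a _ _ 0 8192 0 16384 0 16384 8192 rfl (chk_b _ _ 0 8192 0 8192 0 16384 8192 rfl (chk_z _ _ 0 8192 0 8192 0 8192 4096 rfl (chk_a _ _ 0 4096 0 8192 0 8192 4096 rfl (chk_b _ _ 0 4096 0 4096 0 8192 4096 rfl (chk_z _ _ 0 4096 0 4096 0 4096 2048 rfl (chk_a _ _ 0 2048 0 4096 0 4096 2048 rfl (chk_b _ _ 0 2048 0 2048 0 4096 2048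 rfl (chk_z _ _ 0 2048 0 2048 0 2048 1024 rfl (chk_a _ _ 0 1024 0 2048 0 2048 1024 rfl hu00 hu01) hu02) hu03) hu04) hu05) hu06) hu07) hu08) hu09) hu10) hu11) hu12) hu13) hu14)⟩

end Pool.Agent.Work.MP_88b7aa_gt.Cb
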