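import Pool.Agent.Work.MP_88b7aa_gt.CH.FrR
import Pool.Agent.Work.MP_88b7aa_gt.CH.Real

/-!
# A double eigenvalue of `W_B` with a two dimensional eigenspace.  Size: M.

Let `g = ⟨n 0, n 1⟩`, `|g| = cos (π/q) =: c > 0`.
PROOF.  (1) Let `K = span (y1, y2)`, `W y = λ y` on `K`.  The vectors `refl (n 2) y`, `y ∈ K`, form a two dimensional space, so there is
`y ∈ K`, `y ≠ 0`, such that `x := refl (n 2) y` satisfies `⟨x, n 2⟩ = 0` (one linear condition on `α y1 + β y2`; `⟨refl (n 2) y, n 2⟩ = ⟨y, n 2⟩`).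
`refl (n 2) x = y` and `= -x`, so `y = -x`; and `W y = refl (n 0) (refl (n 1) (refl (n 2) y)) = refl (n 0) (refl (n 1) x) = λ y = -λ x`.
Thus `x ≠ 0`, `⟨x, n 2⟩ = 0`, `refl (n 1) x = -λ refl (n 0) x`:
`-x + 2⟨x,n 1⟩ n 1 = λ x - 2λ⟨x,n 0⟩ n 0`, i.e. `(1+λ) x = 2 b n 1 + 2 λ a n 0`, `a = ⟨x,n 0⟩`, `b = ⟨x,n 1⟩`.
(2) If `λ = -1` then `b n 1 = a n 0`, by independence (`Dt n ≠ 0`) `a = b = 0`, together with `⟨x,n 2⟩ = 0` and `Dt n ≠ 0`: `x = 0`, contradiction.
(3) Inner products of the identity with `n 0` and `n 1`: `(1+λ) a = 2 b conj g + 2 λ a`, `(1+λ) b = 2 b + 2 λ a g`: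
`(1-λ) a = 2 b conj g`, `(λ-1) b = 2 λ a g`.  If `a = 0` then `b = 0`, contradiction as in (2); so `a, b ≠ 0`, `λ ≠ 1`, and taking moduli (`|λ| = 1`):
`|1-λ| |a| = 2c|b|`, `|1-λ| |b| = 2c|a|`, so `|1-λ| = 2c`, `|a| = |b|`.
(4) `⟨x,n 2⟩ = 0`: `2 b ⟨n 1,n 2⟩ + 2 λ a ⟨n 0,n 2⟩ = 0`, so `|⟨n 1,n 2⟩| = |⟨n 0,n 2⟩|`, i.e. `cos (π/p) = cos (π/r)`, `p = r`, so `p = q = r`
(`p ≤ q ≤ r`).  Hence all three moduli are `c`.
(5) Insert `b = (1-λ) a/(2 conj g)`: `(1-λ)⟨n 1,n 2⟩ + 2 λ conj g ⟨n 0,n 2⟩ = 0`; multiply by `g ⟨n 2,n 0⟩`: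
`(1-λ)(-c³ e^{iθ}) + 2 λ c² c² = 0` (`hT.angle`), so `e^{iθ} = 2 c λ/(1-λ)` and `cos θ = 2 c Re (λ/(1-λ)) = -c` (`Re (λ/(1-λ)) = -1/2` for unit
`λ ≠ 1`).  Then `fA c c c (-c) = c² + 4c⁴ - 4c⁴ = c² < 1`.
-/

namespace Pool.Agent.Work.MP_88b7aa_gt.Cb

open Pool.Agent.Work.MP_88b7aa_gt.CH

private theorem hsl (c : ℂ) (z w : Fin 3 → ℂ) : herm (c • z) w = c * herm z w := by
  simp only [herm, Pi.smul_apply, smul_eq_mul]; ring

private theorem hal (z z' w : Fin 3 → ℂ) : herm (z + z') w = herm z w + herm z' w := by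
  simp only [herm, Pi.add_apply]; ring

private theorem hsy (z w : Fin 3 → ℂ) : herm w z = (starRingEnd ℂ) (herm z w) := by
  simp only [herm, map_add, map_sub, map_mul, Complex.conj_conj]; ring

private theorem zero_of_herm (n : Fin 3 → Fin 3 → ℂ) (hD : Dt n ≠ 0) (y : Fin 3 → ℂ)
    (h : ∀ i, herm y (n i) = 0) : y = 0 := by
  have hdet : ((Matrix.of n).map (starRingEnd ℂ)).det ≠ 0 := by
    have h1 : ((Matrix.of n).map (starRingEnd ℂ)).det = (starRingEnd ℂ) (Matrix.of n).det := by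
      rw [RingHom.map_det]; rfl
    rw [h1]
    intro h2
    exact hD ((map_eq_zero (starRingEnd ℂ)).mp h2)
  have hv : ((Matrix.of n).map (starRingEnd ℂ)).mulVec ![y 0, y 1, -y 2] = 0 := by
    ext i
    have := h i
    simp only [herm] at this
    simp only [Matrix.mulVec, dotProduct, Fin.sum_univ_three, Matrix.map_apply, Matrix.of_apply, Matrix.cons_val_zero,
      Matrix.cons_val_one, Matrix.cons_val, Pi.zero_apply]
    linear_combination this
  have h0 := Matrix.eq_zero_of_mulVec_eq_zero hdet hv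
  have e0 := congrFun h0 0
  have e1 := congrFun h0 1
  have e2 := congrFun h0 2
  simp only [Matrix.cons_val_zero, Matrix.cons_val_one, Matrix.cons_val, Pi.zero_apply, neg_eq_zero] at e0 e1 e2
  ext i
  fin_cases i
  · exact e0
  · exact e1
  · exact e2

private theorem coef_zero (n : Fin 3 → Fin 3 → ℂ) (hD : Dt n ≠ 0) (a b : ℂ) (h : a • n 0 = b • n 1) :
    a = 0 ∧ b = 0 := by
  have hv : Matrix.vecMul ![a, -b, 0] (Matrix.of n) = 0 := by
    ext i
    have := congrFun h i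
    simp only [Pi.smul_apply, smul_eq_mul] at this
    simp only [Matrix.vecMul, dotProduct, Fin.sum_univ_three, Matrix.of_apply, Matrix.cons_val_zero,
      Matrix.cons_val_one, Matrix.cons_val, Pi.zero_apply]
    linear_combination this
  have h0 := Matrix.eq_zero_of_vecMul_eq_zero hD hv
  have e0 := congrFun h0 0
  have e1 := congrFun h0 1
  simp only [Matrix.cons_val_zero, Matrix.cons_val_one, Pi.zero_apply, neg_eq_zero] at e0 e1
  exact ⟨e0, e1⟩

/-- a nonzero vector of the eigenspace orthogonal to `n 2`. -/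
private theorem exists_y (n : Fin 3 → Fin 3 → ℂ) (y1 y2 : Fin 3 → ℂ) (hy : LinearIndependent ℂ ![y1, y2]) (lam : ℂ)
    (h1 : (WB n).mulVec y1 = lam • y1) (h2 : (WB n).mulVec y2 = lam • y2) :
    ∃ y : Fin 3 → ℂ, y ≠ 0 ∧ herm y (n 2) = 0 ∧ (WB n).mulVec y = lam • y := by
  rw [LinearIndependent.pair_iff] at hy
  by_cases hh : herm y2 (n 2) = 0
  · refine ⟨y2, ?_, hh, h2⟩
    intro h0
    have := hy 0 1 (by rw [h0]; simp)
    exact one_ne_zero this.2
  · refine ⟨herm y2 (n 2) • y1 + (-herm y1 (n 2)) • y2, ?_, ?_, ?_⟩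
    · intro h0
      exact hh (hy _ _ h0).1
    · rw [hal, hsl, hsl]; ring
    · rw [Matrix.mulVec_add, Matrix.mulVec_smul, Matrix.mulVec_smul, h1, h2, smul_add, smul_comm lam, smul_comm lam]

private theorem key (n : Fin 3 → Fin 3 → ℂ) (hu : ∀ i, herm (n i) (n i) = 1) (y : Fin 3 → ℂ) (lam : ℂ)
    (hy : herm y (n 2) = 0) (hW : (WB n).mulVec y = lam • y) :
    (1 + lam) • y = (2 * herm y (n 1)) • n 1 + (2 * lam * herm y (n 0)) • n 0 := by
  have e1 : (CH.refl (n 2)).mulVec y = -y := by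
    rw [refl_mulVec, hy]; simp
  have e2 : (CH.refl (n 0)).mulVec ((CH.refl (n 1)).mulVec (-y)) = lam • y := by
    rw [← e1, Matrix.mulVec_mulVec, Matrix.mulVec_mulVec]
    exact hW
  have e3 : (CH.refl (n 1)).mulVec (-y) = lam • (CH.refl (n 0)).mulVec y := by
    rw [← Matrix.mulVec_smul, ← e2, Matrix.mulVec_mulVec, refl_sq _ (hu 0), Matrix.one_mulVec]
  rw [Matrix.mulVec_neg, refl_mulVec, refl_mulVec] at e3
  ext i
  have e4 := congrFun e3 i
  simp only [Pi.neg_apply, Pi.add_apply, Pi.smul_apply, smul_eq_mul] at e4 ⊢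
  linear_combination e4

theorem Dbl (p q r : ℕ) (hp : 3 ≤ p) (hpq : p ≤ q) (hqr : q ≤ r) (θ : ℝ) (n : Fin 3 → Fin 3 → ℂ)
    (hT : IsTriangle p q r θ n) (hD : Dt n ≠ 0) (y1 y2 : Fin 3 → ℂ) (hy : LinearIndependent ℂ ![y1, y2]) (lam : ℂ)
    (hl : ‖lam‖ = 1) (h1 : (WB n).mulVec y1 = lam • y1) (h2 : (WB n).mulVec y2 = lam • y2) :
    fA (Real.cos (Real.pi / p)) (Real.cos (Real.pi / q)) (Real.cos (Real.pi / r)) (Real.cos θ) < 1 := by
  have hp0 : (0:ℝ) < p := by
    have : 0 < p := by omega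
    exact_mod_cast this
  have hq0 : (0:ℝ) < q := by
    have : 0 < q := by omega
    exact_mod_cast this
  have hr0 : (0:ℝ) < r := by
    have : 0 < r := by omega
    exact_mod_cast this
  have hpq' : (p:ℝ) ≤ q := by exact_mod_cast hpq
  have hqr' : (q:ℝ) ≤ r := by exact_mod_cast hqr
  have hq3 : (3:ℝ) ≤ q := by
    have : 3 ≤ q := by omega
    exact_mod_cast this
  have hp3 : (3:ℝ) ≤ p := by exact_mod_cast hp
  have hpi := Real.pi_pos
  have hpp : Real.pi / p ≤ Real.pi := div_le_self hpi.le (by linarith)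
  have hqp : Real.pi / q ≤ Real.pi / p := div_le_div_of_nonneg_left hpi.le hp0 hpq'
  have hrq : Real.pi / r ≤ Real.pi / q := div_le_div_of_nonneg_left hpi.le hq0 hqr'
  have hq3' : Real.pi / q ≤ Real.pi / 3 := div_le_div_of_nonneg_left hpi.le (by norm_num) hq3
  have hr00 : 0 < Real.pi / r := div_pos hpi hr0
  have hq00 : 0 < Real.pi / q := div_pos hpi hq0
  have c1 : Real.cos (Real.pi / p) ≤ Real.cos (Real.pi / q) :=
    Real.cos_le_cos_of_nonneg_of_le_pi hq00.le hpp hqp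
  have c2 : Real.cos (Real.pi / q) ≤ Real.cos (Real.pi / r) :=
    Real.cos_le_cos_of_nonneg_of_le_pi hr00.le (by linarith) hrq
  have c3 : 0 < Real.cos (Real.pi / q) := Real.cos_pos_of_mem_Ioo ⟨by linarith, by linarith⟩
  have c4 : Real.cos (Real.pi / q) < 1 := by
    have := Real.cos_lt_cos_of_nonneg_of_le_pi (le_refl (0:ℝ)) (by linarith : Real.pi / q ≤ Real.pi) hq00
    rwa [Real.cos_zero] at this
  obtain ⟨y, hy0, hyn, hW⟩ := exists_y n y1 y2 hy lam h1 h2
  have hk := key n hT.unit y lam hyn hW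
  obtain ⟨hu, h23, h12, h31, hang⟩ := hT
  set c := Real.cos (Real.pi / q) with hc
  set g := herm (n 0) (n 1) with hg
  set a := herm y (n 0) with ha
  set b := herm y (n 1) with hb
  have hng : ‖herm (n 1) (n 0)‖ = c := by
    rw [hsy (n 0) (n 1), RCLike.norm_conj]; exact h12
  have hn02 : ‖herm (n 0) (n 2)‖ = Real.cos (Real.pi / r) := by
    rw [hsy (n 2) (n 0), RCLike.norm_conj]; exact h31
  have hab : ¬ (a = 0 ∧ b = 0) := by
    rintro ⟨h0, h1'⟩
    apply hy0
    apply zero_of_herm n hD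
    intro i
    fin_cases i
    · exact h0
    · exact h1'
    · exact hyn
  have E0 : (1 + lam) * a = 2 * b * herm (n 1) (n 0) + 2 * lam * a := by
    have := congrArg (fun z => herm z (n 0)) hk
    simp only [hal, hsl, hu, ← ha] at this
    rw [this]; ring
  have E1 : (1 + lam) * b = 2 * b + 2 * lam * a * g := by
    have := congrArg (fun z => herm z (n 1)) hk
    simp only [hal, hsl, hu, ← hb, ← hg] at this
    rw [this]; ring
  have E2 : 0 = 2 * b * herm (n 1) (n 2) + 2 * lam * a * herm (n 0) (n 2) := by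
    have := congrArg (fun z => herm z (n 2)) hk
    simp only [hal, hsl, hyn, mul_zero] at this
    exact this
  have hg0 : g ≠ 0 := by
    intro h0
    rw [h0, norm_zero] at h12
    linarith
  have hg0' : herm (n 1) (n 0) ≠ 0 := by
    intro h0
    rw [h0, norm_zero] at hng
    linarith
  have hl0 : lam ≠ 0 := by
    intro h0
    rw [h0, norm_zero] at hl
    exact zero_ne_one hl
  have F0 : (1 - lam) * a = 2 * b * herm (n 1) (n 0) := by linear_combination E0
  have F1 : (lam - 1) * b = 2 * lam * a * g := by linear_combination E1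
  have ha0 : a ≠ 0 := by
    intro h0
    rw [h0, mul_zero] at F0
    have : b = 0 := by
      rcases mul_eq_zero.mp F0.symm with h | h
      · rcases mul_eq_zero.mp h with h | h
        · exact absurd h two_ne_zero
        · exact h
      · exact absurd h hg0'
    exact hab ⟨h0, this⟩
  have hb0 : b ≠ 0 := by
    intro h0
    rw [h0, mul_zero] at F1
    rcases mul_eq_zero.mp F1.symm with h | h
    · rcases mul_eq_zero.mp h with h | h
      · rcases mul_eq_zero.mp h with h | h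
        · exact absurd h two_ne_zero
        · exact hl0 h
      · exact ha0 h
    · exact hg0 h
  have N0 : ‖1 - lam‖ * ‖a‖ = 2 * ‖b‖ * c := by
    rw [← norm_mul, F0, norm_mul, norm_mul, hng]; simp
  have N1 : ‖1 - lam‖ * ‖b‖ = 2 * ‖a‖ * c := by
    have : ‖lam - 1‖ * ‖b‖ = 2 * ‖a‖ * c := by
      rw [← norm_mul, F1, norm_mul, norm_mul, norm_mul, h12, hl]; simp
    rwa [norm_sub_rev] at this
  have pa : 0 < ‖a‖ := norm_pos_iff.mpr ha0
  have pb : 0 < ‖b‖ := norm_pos_iff.mpr hb0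
  have hL : ‖1 - lam‖ = 2 * c := by
    have h3 : (‖1 - lam‖ ^ 2 - (2 * c) ^ 2) * (‖a‖ * ‖b‖) = 0 := by
      linear_combination (‖1 - lam‖ * ‖b‖) * N0 + (2 * ‖b‖ * c) * N1
    have h4 : ‖1 - lam‖ ^ 2 - (2 * c) ^ 2 = 0 := by
      rcases mul_eq_zero.mp h3 with h | h
      · exact h
      · exact absurd h (mul_pos pa pb).ne'
    have h5 : ‖1 - lam‖ ^ 2 = (2 * c) ^ 2 := by linarith
    exact (pow_left_inj₀ (norm_nonneg _) (by linarith) two_ne_zero).mp h5
  have hAB : ‖a‖ = ‖b‖ := by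
    rw [hL] at N0
    have : 2 * c * (‖a‖ - ‖b‖) = 0 := by linear_combination N0
    rcases mul_eq_zero.mp this with h | h
    · exact absurd h (by linarith)
    · linarith
  have hPR : Real.cos (Real.pi / p) = Real.cos (Real.pi / r) := by
    have h3 : b * herm (n 1) (n 2) = -(lam * a * herm (n 0) (n 2)) := by linear_combination (-1/2 : ℂ) * E2
    have h4 := congrArg norm h3
    rw [norm_neg, norm_mul, norm_mul, norm_mul, h23, hn02, hl, one_mul, hAB] at h4
    exact mul_left_cancel₀ pb.ne' h4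
  have hP : Real.cos (Real.pi / p) = c := by linarith
  have hR : Real.cos (Real.pi / r) = c := by linarith
  rw [hP, hR] at hang
  rw [hR] at hn02
  have hgg : herm (n 1) (n 0) * g = (c : ℂ) ^ 2 := by
    rw [hsy (n 0) (n 1), ← hg, ← Complex.normSq_eq_conj_mul_self, Complex.normSq_eq_norm_sq, h12]
    push_cast; ring
  have hhh : herm (n 0) (n 2) * herm (n 2) (n 0) = (c : ℂ) ^ 2 := by
    rw [hsy (n 0) (n 2), Complex.mul_conj, Complex.normSq_eq_norm_sq, hn02]
    push_cast; ring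
  have hcC : (c : ℂ) ≠ 0 := by
    exact_mod_cast c3.ne'
  have G1 : (1 - lam) * Complex.exp (θ * Complex.I) = 2 * lam * c := by
    have h3 : a * (c : ℂ) ^ 3 * ((1 - lam) * Complex.exp (θ * Complex.I) - 2 * lam * c) = 0 := by
      push_cast at hang
      linear_combination ((1 - lam) * a) * hang - (g * herm (n 1) (n 2) * herm (n 2) (n 0)) * F0 +
        (g * herm (n 2) (n 0) * herm (n 1) (n 0)) * E2 + (2 * lam * a * (herm (n 1) (n 0) * g)) * hhh +
        (2 * lam * a * (c : ℂ) ^ 2) * hgg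
    rcases mul_eq_zero.mp h3 with h | h
    · rcases mul_eq_zero.mp h with h | h
      · exact absurd h ha0
      · exact absurd h (pow_ne_zero _ hcC)
    · linear_combination h
  have hll : lam * (starRingEnd ℂ) lam = 1 := by
    rw [Complex.mul_conj, Complex.normSq_eq_norm_sq, hl]; simp
  have hLL : (1 - lam) * (1 - (starRingEnd ℂ) lam) = 4 * (c : ℂ) ^ 2 := by
    have : (1 - lam) * (starRingEnd ℂ) (1 - lam) = 4 * (c : ℂ) ^ 2 := by
      rw [Complex.mul_conj, Complex.normSq_eq_norm_sq, hL]; push_cast; ring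
    rw [map_sub, map_one] at this
    exact this
  have G2 : 2 * (c : ℂ) * Complex.exp (θ * Complex.I) = lam - 1 := by
    have h3 : 2 * (c : ℂ) * (2 * (c : ℂ) * Complex.exp (θ * Complex.I) - (lam - 1)) = 0 := by
      linear_combination (1 - (starRingEnd ℂ) lam) * G1 - Complex.exp (θ * Complex.I) * hLL - 2 * (c : ℂ) * hll
    rcases mul_eq_zero.mp h3 with h | h
    · exact absurd h (mul_ne_zero two_ne_zero hcC)
    · linear_combination h
  have hre : 2 * c * Real.cos θ = lam.re - 1 := by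
    have := congrArg Complex.re G2
    have h6 : (2 * (c : ℂ) * Complex.exp (θ * Complex.I)).re = 2 * c * Real.cos θ := by
      have h7 : (2 * (c : ℂ)) = ((2 * c : ℝ) : ℂ) := by push_cast; ring
      rw [h7, Complex.re_ofReal_mul, Complex.exp_ofReal_mul_I_re]
    rw [h6, Complex.sub_re, Complex.one_re] at this
    exact this
  have hL2 : 2 - 2 * lam.re = 4 * c ^ 2 := by
    have := congrArg Complex.re hLL
    have h5 := congrArg Complex.re hll
    have h6 : (4 * (c : ℂ) ^ 2).re = 4 * c ^ 2 := by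
      have h7 : (4 * (c : ℂ) ^ 2) = ((4 * c ^ 2 : ℝ) : ℂ) := by push_cast; ring
      rw [h7, Complex.ofReal_re]
    rw [h6] at this
    simp only [Complex.mul_re, Complex.sub_re, Complex.one_re, Complex.sub_im, Complex.one_im, Complex.conj_re,
      Complex.conj_im] at this h5
    linarith
  have hcos : Real.cos θ = -c := by
    have h3 : 2 * c * (Real.cos θ + c) = 0 := by linear_combination hre - hL2 / 2
    rcases mul_eq_zero.mp h3 with h | h
    · exact absurd h (by linarith)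
    · linarith
  rw [hP, hR, hcos]
  unfold fA
  nlinarith

end Pool.Agent.Work.MP_88b7aa_gt.Cb
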