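import Pool.Agent.Work.MP_88b7aa_gt.CH.Real
import Pool.Agent.Work.MP_88b7aa_gt.CH.Dts

/-!
# `fA ≥ 1` implies that the triangle is not degenerate.  Size: S.

PROOF.  `x = cp²`, `y = cq²`, `z = cr²`, `1/4 ≤ x ≤ y ≤ z < 1`, `z ≥ 1/2`.  `fA ≥ 1` gives
`Δ := x + y + z - 1 + 2 cp cq cr u ≥ (z - (1-2x)(1-2y))/2`.  If `(1-2x)(1-2y) ≤ 0`: `≥ z/2 > 0`.  If `x, y < 1/2`: the product is `≤ 1/4 < z`.
If `x, y ≥ 1/2`: `(2x-1)(2y-1) ≤ 2x - 1 < x ≤ z` .  `Del (ang p q r) (θ/2)` is `Δ` for `u = cos θ`.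
-/

namespace Pool.Agent.Work.MP_88b7aa_gt.Cb

open Pool.Agent.Work.MP_88b7aa_gt.CH

private lemma cbd (p : ℕ) (hp : 3 ≤ p) :
    1 / 2 ≤ Real.cos (Real.pi / p) ∧ Real.cos (Real.pi / p) < 1 := by
  have hpi := Real.pi_pos
  have hp' : (3 : ℝ) ≤ p := by exact_mod_cast hp
  have h1 : Real.pi / p ≤ Real.pi / 3 := div_le_div_of_nonneg_left hpi.le (by norm_num) hp'
  have h2 : 0 < Real.pi / p := div_pos hpi (by linarith)
  refine ⟨?_, ?_⟩
  · rw [← Real.cos_pi_div_three]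
    exact Real.cos_le_cos_of_nonneg_of_le_pi h2.le (by linarith) h1
  · rw [← Real.cos_zero]
    exact Real.cos_lt_cos_of_nonneg_of_le_pi le_rfl (by linarith) h2

private lemma cmo (p q : ℕ) (hp : 3 ≤ p) (hpq : p ≤ q) :
    Real.cos (Real.pi / p) ≤ Real.cos (Real.pi / q) := by
  have hpi := Real.pi_pos
  have hp' : (3 : ℝ) ≤ p := by exact_mod_cast hp
  have hpq' : (p : ℝ) ≤ q := by exact_mod_cast hpq
  refine Real.cos_le_cos_of_nonneg_of_le_pi (div_pos hpi (by linarith)).le ?_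
    (div_le_div_of_nonneg_left hpi.le (by linarith) hpq')
  rw [div_le_iff₀ (by linarith)]
  nlinarith

private lemma crt (r : ℕ) (hr : 4 ≤ r) : 1 / 2 ≤ Real.cos (Real.pi / r) ^ 2 := by
  have hpi := Real.pi_pos
  have hr' : (4 : ℝ) ≤ r := by exact_mod_cast hr
  have h1 : Real.pi / r ≤ Real.pi / 4 := div_le_div_of_nonneg_left hpi.le (by norm_num) hr'
  have h2 : 0 < Real.pi / r := div_pos hpi (by linarith)
  have h3 : Real.cos (Real.pi / 4) ≤ Real.cos (Real.pi / r) :=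
    Real.cos_le_cos_of_nonneg_of_le_pi h2.le (by linarith) h1
  have h4 : Real.cos (Real.pi / 4) ^ 2 = 1 / 2 := by
    rw [Real.cos_pi_div_four, div_pow, Real.sq_sqrt (by norm_num)]
    norm_num
  rw [← h4]
  exact pow_le_pow_left₀ (by rw [Real.cos_pi_div_four]; positivity) h3 2

theorem DelA (p q r : ℕ) (hp : 3 ≤ p) (hpq : p ≤ q) (hqr : q ≤ r) (hr : 4 ≤ r) (θ : ℝ)
    (h : 1 ≤ fA (Real.cos (Real.pi / p)) (Real.cos (Real.pi / q)) (Real.cos (Real.pi / r)) (Real.cos θ)) :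
    0 < Del (ang p q r) (θ / 2) := by
  obtain ⟨hp1, hp2⟩ := cbd p hp
  obtain ⟨hq1, hq2⟩ := cbd q (hp.trans hpq)
  obtain ⟨hr1, hr2⟩ := cbd r (by omega)
  have hz := crt r hr
  have hxy := cmo p q hp hpq
  have hyz := cmo q r (hp.trans hpq) hqr
  unfold fA at h
  have hD : Del (ang p q r) (θ / 2) = Real.cos (Real.pi / p) ^ 2 + Real.cos (Real.pi / q) ^ 2 +
      Real.cos (Real.pi / r) ^ 2 - 1 + 2 * (Real.cos (Real.pi / p) *
        (Real.cos (Real.pi / q) * Real.cos (Real.pi / r)) * Real.cos θ) := by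
    have e0 : 2 * (Real.pi / (2 * (q : ℝ))) = Real.pi / q := by
      rw [← mul_div_assoc, mul_div_mul_left _ _ (two_ne_zero)]
    have e1 : 2 * (Real.pi / (2 * (p : ℝ))) = Real.pi / p := by
      rw [← mul_div_assoc, mul_div_mul_left _ _ (two_ne_zero)]
    have e2 : 2 * (Real.pi / (2 * (r : ℝ))) = Real.pi / r := by
      rw [← mul_div_assoc, mul_div_mul_left _ _ (two_ne_zero)]
    have e3 : 2 * (θ / 2) = θ := by ring
    simp only [Del, ang, Matrix.cons_val_zero, Matrix.cons_val_one, Matrix.cons_val, e0, e1, e2, e3]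
    ring
  rw [hD]
  set x := Real.cos (Real.pi / p) with hx
  set y := Real.cos (Real.pi / q) with hy
  set z := Real.cos (Real.pi / r) with hzz
  have hx2 : x ^ 2 < 1 := by nlinarith
  have hy2 : y ^ 2 < 1 := by nlinarith
  have hxz : x ^ 2 ≤ z ^ 2 := pow_le_pow_left₀ (by linarith) (hxy.trans hyz) 2
  have hx4 : 1 / 4 ≤ x ^ 2 := by nlinarith
  have hy4 : 1 / 4 ≤ y ^ 2 := by nlinarith
  have key : (1 - 2 * x ^ 2) * (1 - 2 * y ^ 2) < z ^ 2 := by
    set X := x ^ 2 with hX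
    set Y := y ^ 2 with hY
    set Z := z ^ 2 with hZ
    by_cases h1 : X ≤ 1 / 2
    · have : (1 - 2 * X) * (1 - 2 * Y) ≤ (1 / 2) * (1 / 2) := by
        calc (1 - 2 * X) * (1 - 2 * Y) ≤ (1 - 2 * X) * (1 / 2) :=
            mul_le_mul_of_nonneg_left (by linarith) (by linarith)
          _ ≤ (1 / 2) * (1 / 2) := mul_le_mul_of_nonneg_right (by linarith) (by norm_num)
      linarith
    · push Not at h1
      have : (2 * X - 1) * (2 * Y - 1) ≤ (2 * X - 1) * 1 :=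
        mul_le_mul_of_nonneg_left (by linarith) (by linarith)
      nlinarith
  nlinarith

end Pool.Agent.Work.MP_88b7aa_gt.Cb
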