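import Mathlib

/-!
# Goldman's discriminant for unit eigenvalues.  Size: S-M.

PROOF.  For unit numbers with product 1: `τ = l0+l1+l2`, `conj τ = l0 l1 + l1 l2 + l2 l0` (`conj l = 1/l`).  The discriminant of
`X³ - τ X² + conj τ X - 1` is `∏ (l_i - l_j)² = τ² conj τ² - 4 conj τ³ - 4 τ³ + 18 τ conj τ - 27` (`τ² conj τ² = |τ|⁴`, `τ³ + conj τ³ = 2 Re τ³`)
(polynomial identity in `l0, l1, l2` modulo `l0 l1 l2 = 1`).  And `(l_i - l_j)² = - l_i l_j |l_i - l_j|²` for unit numbers, so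
`∏ (l_i - l_j)² = - (l0 l1 l2)² ∏ |l_i - l_j|²`.
-/

namespace Pool.Agent.Work.MP_88b7aa_gt.Cb

theorem Dsc (l0 l1 l2 : ℂ) (h0 : ‖l0‖ = 1) (h1 : ‖l1‖ = 1) (h2 : ‖l2‖ = 1) (h : l0 * l1 * l2 = 1) :
    ‖l0 + l1 + l2‖ ^ 4 - 8 * ((l0 + l1 + l2) ^ 3).re + 18 * ‖l0 + l1 + l2‖ ^ 2 - 27 =
      -(‖l0 - l1‖ * ‖l1 - l2‖ * ‖l2 - l0‖) ^ 2 := by
  have hn : ∀ z : ℂ, ((‖z‖ : ℝ) : ℂ) ^ 2 = z * (starRingEnd ℂ) z := fun z =>
    (Complex.mul_conj' z).symm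
  have hu : ∀ z : ℂ, ‖z‖ = 1 → z * (starRingEnd ℂ) z = 1 := by
    intro z hz
    rw [Complex.mul_conj', hz]
    norm_num
  have e0 := hu l0 h0
  have e1 := hu l1 h1
  have e2 := hu l2 h2
  have n0 : l0 ≠ 0 := by
    intro h9
    rw [h9, norm_zero] at h0
    exact zero_ne_one h0
  have n1 : l1 ≠ 0 := by
    intro h9
    rw [h9, norm_zero] at h1
    exact zero_ne_one h1
  have n2 : l2 ≠ 0 := by
    intro h9
    rw [h9, norm_zero] at h2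
    exact zero_ne_one h2
  have c0 : (starRingEnd ℂ) l0 = l1 * l2 := by
    apply mul_left_cancel₀ n0
    rw [e0, ← mul_assoc, h]
  have c1 : (starRingEnd ℂ) l1 = l2 * l0 := by
    apply mul_left_cancel₀ n1
    rw [e1, ← h]
    ring
  have c2 : (starRingEnd ℂ) l2 = l0 * l1 := by
    apply mul_left_cancel₀ n2
    rw [e2, ← h]
    ring
  have hre : ((((l0 + l1 + l2) ^ 3).re : ℝ) : ℂ) =
      ((l0 + l1 + l2) ^ 3 + (l1 * l2 + l2 * l0 + l0 * l1) ^ 3) / 2 := by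
    rw [Complex.re_eq_add_conj, map_pow, map_add, map_add, c0, c1, c2]
  apply Complex.ofReal_injective
  have hL : (((‖l0 + l1 + l2‖ ^ 4 - 8 * ((l0 + l1 + l2) ^ 3).re + 18 * ‖l0 + l1 + l2‖ ^ 2 - 27 : ℝ)) : ℂ) =
      (((‖l0 + l1 + l2‖ : ℝ) : ℂ) ^ 2) ^ 2 - 8 * ((((l0 + l1 + l2) ^ 3).re : ℝ) : ℂ) +
        18 * ((‖l0 + l1 + l2‖ : ℝ) : ℂ) ^ 2 - 27 := by
    push_cast
    ring
  have hR : (((-(‖l0 - l1‖ * ‖l1 - l2‖ * ‖l2 - l0‖) ^ 2 : ℝ)) : ℂ) =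
      -(((‖l0 - l1‖ : ℝ) : ℂ) ^ 2 * ((‖l1 - l2‖ : ℝ) : ℂ) ^ 2 * ((‖l2 - l0‖ : ℝ) : ℂ) ^ 2) := by
    push_cast
    ring
  rw [hL, hR, hre, hn, hn, hn, hn]
  simp only [map_add, map_sub, c0, c1, c2]
  have h' : l2 * (l0 * l1) = 1 := by rw [← h]; ring
  have key : ((l0 + l1 + l2) * (l1 * l2 + l2 * l0 + l0 * l1)) ^ 2 -
      8 * (((l0 + l1 + l2) ^ 3 + (l1 * l2 + l2 * l0 + l0 * l1) ^ 3) / 2) +
      18 * ((l0 + l1 + l2) * (l1 * l2 + l2 * l0 + l0 * l1)) - 27 -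
      (-((l0 - l1) * (l1 * l2 - l2 * l0) * ((l1 - l2) * (l2 * l0 - l0 * l1)) *
        ((l2 - l0) * (l0 * l1 - l1 * l2)))) =
      (l0 * l1 * l2 - 1) * (
        -((l0 - l1) ^ 2 * (l1 - l2) ^ 2 * (l2 - l0) ^ 2) +
        (4 * (l0 + l1 + l2) ^ 3 - 18 * ((l0 + l1 + l2) * (l1 * l2 + l2 * l0 + l0 * l1)) +
          27 * (l0 * l1 * l2 + 1))) := by
    ring
  rw [h, sub_self, zero_mul] at key
  exact sub_eq_zero.mp key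

end Pool.Agent.Work.MP_88b7aa_gt.Cb
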