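import Pool.Agent.Work.MP_88b7aa_gt.Cb.Chk

/-! Trees for the discriminant cubic, checked by the kernel. -/

set_option maxRecDepth 100000

namespace Pool.Agent.Work.MP_88b7aa_gt.Cb

def u00 : Tc :=
  (.b (.z (.a (.b (.z (.a (.b (.l 0) (.l 4)) (.b (.z (.l 0) (.a (.l 0) (.l 5))) (.l 4))) (.a (.b (.z (.l 0) (.a (.l 0) (.b (.l 0) (.l 4)))) (.l 4)) (.b (.z (.a (.l 5) (.l 5)) (.a (.l 5) (.l 5))) (.l 4)))) (.z (.a (.l 4) (.l 4)) (.a (.l 4) (.b (.l 4) (.l 2))))) (.b (.z (.a (.b (.z (.a (.l 5) (.l 5)) (.a (.l 5) (.l 3))) (.l 4)) (.b (.z (.l 3) (.l 3)) (.l 2))) (.a (.b (.z (.l 5) (.l 3)) (.l 2)) (.b (.z (.l 3) (.a (.l 3) (.l 3))) (.z (.l 2) (.l 2))))) (.z (.a (.l 2) (.b (.l 2) (.z (.l 2) (.a (.l 2) (.b (.l 2) (.l 3)))))) (.a (.b (.l 2) (.z (.l 2) (.a (.l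 2) (.l 3)))) (.b (.z (.a (.l 2) (.l 2)) (.a (.l 2) (.b (.l 3) (.l 1)))) (.z (.a (.l 3) (.b (.l 1) (.l 1))) (.a (.b (.l 3) (.l 1)) (.l 1)))))))) (.a (.b (.z (.a (.b (.z (.a (.b (.l 0) (.l 4)) (.l 5)) (.a (.b (.z (.l 0) (.l 5)) (.l 4)) (.l 5))) (.l 4)) (.b (.z (.a (.l 5) (.l 5)) (.a (.l 5) (.l 3))) (.l 4))) (.a (.b (.z (.a (.b (.l 5) (.l 4)) (.l 5)) (.a (.l 5) (.l 5))) (.l 4)) (.b (.z (.a (.l 5) (.l 3)) (.a (.l 3) (.l 3))) (.z (.l 2) (.l 2))))) (.z (.a (.l 4) (.b (.l 2) (.z (.l 2) (.a (.l 2) (.l 3))))) (.a (.b (.z (.l 4) (.l 2)) (.z (.l 2) (.a (.l 2) (.l 3)))) (.b (.z (.a (.l 2) (.l 2)) (.a (.l 2) (.l 3))) (.z (.a (.l 3) (.l 3)) (.a (.l 3) (.b (.l 3) (.z (.l 3) (.l 1))))))))) (.b (.z (.a (.b (.z (.l 3) (.l 3)) (.z (.l 2) (.l 2))) (.b (.z (.a (.l 3)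 (.l 3)) (.a (.l 3) (.b (.l 3) (.l 3)))) (.z (.a (.l 2) (.b (.l 2) (.l 3))) (.a (.b (.l 2) (.l 3)) (.b (.l 1) (.l 1)))))) (.a (.b (.z (.a (.l 3) (.l 3)) (.a (.l 3) (.l 3))) (.z (.a (.l 2) (.l 3)) (.a (.l 3) (.b (.l 3) (.z (.l 3) (.l 1)))))) (.b (.z (.a (.l 3) (.b (.l 3) (.l 1))) (.a (.b (.l 3) (.z (.l 3) (.l 1))) (.l 1))) (.z (.a (.b (.l 3) (.l 1)) (.l 1)) (.a (.l 1) (.l 1)))))) (.z (.a (.b (.z (.a (.l 2) (.l 2)) (.a (.l 2) (.b (.l 3) (.l 3)))) (.z (.a (.l 3) (.b (.l 3) (.z (.l 3) (.l 1)))) (.a (.b (.l 3) (.l 3)) (.b (.z (.l 1) (.l 1)) (.l 1))))) (.b (.z (.a (.b (.l 3) (.l 3)) (.l 1)) (.a (.b (.l 1) (.l 1)) (.l 1))) (.z (.a (.l 1) (.l 1)) (.l 1)))) (.a (.b (.z (.a (.l 3) (.b (.l 3) (.l 1))) (.a (.b (.l 3) (.z (.l 3) (.l 1))) (.l 1))) (.z (.a (.b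 (.l 3) (.l 1)) (.l 1)) (.a (.l 1) (.l 1)))) (.b (.z (.a (.l 1) (.l 1)) (.l 1)) (.l 1))))))) (.z (.a (.b (.z (.a (.l 4) (.l 2)) (.a (.b (.l 4) (.l 2)) (.b (.l 2) (.z (.l 2) (.a (.l 2) (.l 3)))))) (.z (.a (.l 2) (.b (.z (.l 2) (.a (.l 2) (.l 2))) (.z (.a (.l 2) (.l 2)) (.a (.l 3) (.b (.l 3) (.l 3)))))) (.a (.b (.z (.l 2) (.a (.l 2) (.l 3))) (.z (.a (.l 2) (.l 3)) (.a (.l 3) (.l 3)))) (.b (.z (.a (.l 2) (.b (.l 3) (.l 3))) (.a (.l 3) (.b (.l 3) (.z (.l 3) (.l 1))))) (.z (.a (.b (.l 3) (.l 3)) (.b (.z (.l 3) (.l 3)) (.z (.l 1) (.l 1)))) (.a (.b (.l 3) (.z (.l 3) (.a (.l 1) (.l 1)))) (.l 1))))))) (.b (.z (.a (.b (.l 2) (.z (.l 2) (.a (.l 2) (.b (.l 2) (.l 3))))) (.b (.z (.a (.l 2) (.b (.l 2) (.l 1))) (.a (.b (.l 2) (.l 3)) (.l 1))) (.z (.a (.b (.l 2)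 (.l 1)) (.l 1)) (.a (.l 1) (.l 1))))) (.a (.b (.z (.a (.l 2) (.l 3)) (.a (.l 3) (.b (.l 3) (.l 1)))) (.z (.a (.l 3) (.b (.z (.l 3) (.l 1)) (.l 1))) (.a (.b (.l 3) (.z (.l 1) (.l 1))) (.l 1)))) (.b (.z (.a (.b (.z (.l 1) (.l 1)) (.l 1)) (.l 1)) (.a (.l 1) (.l 1))) (.z (.l 1) (.l 1))))) (.z (.a (.b (.z (.a (.l 2) (.b (.l 3) (.z (.l 3) (.l 1)))) (.a (.b (.l 3) (.l 3)) (.b (.l 1) (.l 1)))) (.z (.a (.b (.l 3) (.z (.l 3) (.l 1))) (.l 1)) (.a (.b (.z (.l 3) (.l 1)) (.l 1)) (.l 1)))) (.b (.z (.a (.l 1) (.l 1)) (.l 1)) (.l 1))) (.a (.b (.z (.a (.b (.z (.l 3) (.l 1)) (.l 1)) (.l 1)) (.a (.l 1) (.l 1))) (.z (.a (.l 1) (.l 1)) (.l 1))) (.l 1))))) (.a (.b (.z (.a (.b (.z (.l 2) (.l 2)) (.z (.a (.l 2) (.l 2)) (.a (.l 3) (.l 3)))) (.b (.z (.a (.l 2) (.l 3)) (.a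 (.l 3) (.b (.l 3) (.l 3)))) (.z (.a (.l 3) (.b (.l 3) (.z (.l 3) (.l 3)))) (.a (.b (.l 3) (.l 3)) (.b (.z (.l 3) (.l 1)) (.l 1)))))) (.a (.b (.z (.a (.l 2) (.l 3)) (.a (.l 3) (.l 3))) (.z (.a (.l 3) (.l 3)) (.a (.l 3) (.b (.l 3) (.z (.l 3) (.l 3)))))) (.b (.z (.a (.l 3) (.b (.l 3) (.z (.l 1) (.l 1)))) (.a (.b (.l 3) (.z (.l 3) (.l 3))) (.b (.l 1) (.l 1)))) (.z (.a (.b (.l 3) (.z (.l 3) (.l 1))) (.l 1)) (.a (.b (.l 1) (.l 1)) (.l 1)))))) (.z (.a (.b (.z (.a (.l 3) (.l 3)) (.a (.l 3) (.b (.l 3) (.l 3)))) (.z (.a (.l 3) (.b (.l 3) (.z (.l 3) (.l 3)))) (.a (.b (.l 3) (.l 3)) (.b (.z (.l 3) (.a (.l 3) (.l 1))) (.z (.a (.l 1) (.l 1)) (.l 1)))))) (.b (.z (.a (.b (.l 3) (.z (.l 3) (.l 3))) (.b (.z (.l 1) (.l 1)) (.l 1))) (.a (.b (.z (.l 3) (.l 1)) (.l 1))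 (.l 1))) (.z (.a (.b (.z (.l 3) (.l 1)) (.l 1)) (.l 1)) (.a (.l 1) (.l 1))))) (.a (.b (.z (.a (.l 3) (.b (.l 3) (.z (.l 3) (.l 1)))) (.a (.b (.l 3) (.z (.l 3) (.l 3))) (.b (.z (.a (.l 1) (.l 1)) (.l 1)) (.l 1)))) (.z (.a (.b (.l 3) (.z (.l 3) (.a (.l 3) (.l 1)))) (.b (.l 1) (.l 1))) (.a (.b (.z (.a (.l 3) (.l 1)) (.l 1)) (.l 1)) (.l 1)))) (.b (.z (.a (.l 1) (.l 1)) (.l 1)) (.l 1))))) (.b (.z (.a (.b (.z (.a (.b (.l 3) (.z (.l 3) (.l 1))) (.l 1)) (.a (.b (.z (.l 3) (.l 1)) (.l 1)) (.l 1))) (.z (.a (.b (.l 1) (.l 1)) (.l 1)) (.l 1))) (.b (.l 1) (.l 1))) (.a (.b (.z (.a (.l 1) (.l 1)) (.l 1)) (.l 1)) (.l 1))) (.z (.a (.b (.l 1) (.l 1)) (.l 1)) (.a (.l 1) (.l 1)))))))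

theorem hu00 : chk u00 ⟨0, 1024, 0, 1024, 0, 2048⟩ = true := by
  decide +kernel

def u01 : Tc :=
  (.b (.z (.a (.b (.z (.a (.b (.z (.l 3) (.a (.l 3) (.l 3))) (.z (.l 2) (.a (.l 2) (.l 2)))) (.b (.z (.a (.l 3) (.b (.l 3) (.l 1))) (.a (.b (.l 3) (.l 1)) (.l 1))) (.z (.a (.b (.l 2) (.l 1)) (.l 1)) (.a (.l 1) (.l 1))))) (.a (.b (.z (.a (.l 3) (.l 3)) (.a (.l 3) (.b (.l 3) (.l 1)))) (.z (.a (.l 2) (.l 1)) (.a (.b (.l 2) (.l 1)) (.l 1)))) (.b (.z (.a (.l 1) (.l 1)) (.l 1)) (.l 1)))) (.z (.a (.b (.z (.a (.l 2) (.b (.l 2) (.l 1))) (.a (.b (.l 2) (.l 2)) (.l 1))) (.z (.a (.b (.l 2) (.l 1)) (.l 1)) (.a (.l 1) (.l 1)))) (.b (.z (.l 1) (.l 1)) (.l 1))) (.a (.b (.z (.a (.b (.l 1) (.l 1)) (.l 1)) (.l 1)) (.l 1)) (.l 1)))) (.b (.z (.a (.b (.z (.l 1) (.l 1))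 (.l 1)) (.l 1)) (.a (.l 1) (.l 1))) (.z (.a (.l 1) (.l 1)) (.l 1)))) (.a (.b (.z (.a (.b (.z (.a (.b (.l 3) (.l 1)) (.l 1)) (.a (.b (.l 1) (.l 1)) (.l 1))) (.z (.a (.l 1) (.l 1)) (.l 1))) (.b (.l 1) (.l 1))) (.a (.b (.z (.l 1) (.l 1)) (.l 1)) (.l 1))) (.z (.a (.b (.l 1) (.l 1)) (.l 1)) (.a (.l 1) (.l 1)))) (.b (.z (.l 1) (.l 1)) (.l 1)))) (.z (.a (.b (.z (.a (.b (.z (.l 1) (.l 1)) (.l 1)) (.l 1)) (.a (.l 1) (.l 1))) (.z (.a (.l 1) (.l 1)) (.l 1))) (.b (.l 1) (.l 1))) (.a (.b (.z (.l 1) (.l 1)) (.l 1)) (.l 1))))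

theorem hu01 : chk u01 ⟨0, 1024, 1024, 2048, 0, 2048⟩ = true := by
  decide +kernel

end Pool.Agent.Work.MP_88b7aa_gt.Cb
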