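import Pool.Agent.Work.MP_88b7aa_gt.CH.Crs

/-!
# An elliptic element has a basis of eigenvectors.  Size: M.

PROOF.  `z` negative, `W z = μ z`.  (0) `|μ| = 1`.  If `herm w z = 0`, `w ≠ 0`, then `herm w w > 0` (Cauchy–Schwarz: `|w2|²|z2|² ≤
(|w0|²+|w1|²)(|z0|²+|z1|²)` and `|z0|² + |z1|² < |z2|²`).
(1) The subspace `K = {w | herm w z = 0}` is `W`-invariant (`herm (W w) z = herm (W w) (μ⁻¹ W z) = conj (μ⁻¹) herm w z = 0`) and has
dimension 2; `W` has an eigenvector `y ∈ K`, `W y = λ y` (`Module.End.exists_eigenvalue` for the restriction), `|λ| = 1` as `herm y y > 0`.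
(2) `v = cr z y`: orthogonal to `z` and `y` (`herm_cr`), `v ≠ 0` (`cr_herm`: `herm v v = -(herm z z herm y y) > 0`).  For `W` with
`det W = 1`: `W (cr u w) = cr (W u) (W w)`, because `⟨W x, cr (W u) (W w)⟩ = det (W x, W u, W w) = det W det (x,u,w) = ⟨x, cr u w⟩ =
⟨W x, W cr u w⟩` for all `x`, and the form is nondegenerate (`W` is surjective).  So `W v = cr (μ z) (λ y) = conj (μ λ) v`.
(`cr (α u) (β w) = conj (α β) cr u w`.)
(3) `f = ![z, y, v]`, `l = ![μ, λ, conj (μ λ)]`; `l 0 * l 1 * l 2 = 1`; orthogonal vectors of nonzero norm are linearly independent; the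
trace is the sum of the eigenvalues in a basis of eigenvectors (`Matrix.trace_conj`/similarity: with `Q` the matrix of columns `f i`,
`W Q = Q diag l`, `tr W = tr (Q diag l Q⁻¹) = ∑ l i`).
-/

namespace Pool.Agent.Work.MP_88b7aa_gt.Cb

open Pool.Agent.Work.MP_88b7aa_gt.CH

open ComplexConjugate Complex

private theorem eo_self (w : Fin 3 → ℂ) :
    herm w w = ((normSq (w 0) + normSq (w 1) - normSq (w 2) : ℝ) : ℂ) := by
  simp only [herm, Complex.mul_conj]
  push_cast
  ring

private theorem eo_cs (z w : Fin 3 → ℂ) (hz : normSq (z 0) + normSq (z 1) < normSq (z 2))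
    (h : herm w z = 0) (hw : w ≠ 0) : normSq (w 2) < normSq (w 0) + normSq (w 1) := by
  have h2 : w 2 * conj (z 2) = w 0 * conj (z 0) + w 1 * conj (z 1) := by
    simp only [herm] at h
    linear_combination -h
  have hz0 := normSq_nonneg (z 0)
  have hz1 := normSq_nonneg (z 1)
  have hz2 : 0 < normSq (z 2) := by linarith
  have hw0 := normSq_nonneg (w 0)
  have hw1 := normSq_nonneg (w 1)
  have hw2 := normSq_nonneg (w 2)
  have hcs : normSq (w 0 * conj (z 0) + w 1 * conj (z 1)) ≤
      (normSq (w 0) + normSq (w 1)) * (normSq (z 0) + normSq (z 1)) := by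
    have hn : 0 ≤ normSq (w 0 * z 1 - w 1 * z 0) := normSq_nonneg _
    simp only [normSq_apply, add_re, add_im, sub_re, sub_im, mul_re, mul_im, conj_re, conj_im] at hn ⊢
    nlinarith [hn]
  rw [← h2, normSq_mul, normSq_conj] at hcs
  have hA : 0 < normSq (w 0) + normSq (w 1) := by
    rcases (add_nonneg hw0 hw1).lt_or_eq with hlt | heq
    · exact hlt
    · exfalso
      have a0 : normSq (w 0) = 0 := by linarith
      have a1 : normSq (w 1) = 0 := by linarith
      have a2 : normSq (w 2) = 0 := by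
        by_contra hne
        have hp : 0 < normSq (w 2) := lt_of_le_of_ne hw2 (Ne.symm hne)
        have := mul_pos hp hz2
        rw [← heq, zero_mul] at hcs
        linarith
      apply hw
      funext i
      fin_cases i
      · exact normSq_eq_zero.mp a0
      · exact normSq_eq_zero.mp a1
      · exact normSq_eq_zero.mp a2
  by_contra hcon
  push Not at hcon
  have h3 : (normSq (w 0) + normSq (w 1)) * normSq (z 2) ≤ normSq (w 2) * normSq (z 2) :=
    mul_le_mul_of_nonneg_right hcon hz2.le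
  have h4 : (normSq (w 0) + normSq (w 1)) * (normSq (z 0) + normSq (z 1)) <
      (normSq (w 0) + normSq (w 1)) * normSq (z 2) := mul_lt_mul_of_pos_left hz hA
  linarith

private theorem eo_norm (w : Fin 3 → ℂ) (c e : ℝ) (hc : 0 < c) (hw : herm w w = ((e * c : ℝ) : ℂ)) :
    herm (((Real.sqrt c)⁻¹ : ℂ) • w) (((Real.sqrt c)⁻¹ : ℂ) • w) = (e : ℂ) := by
  have hs : (Real.sqrt c : ℂ) ≠ 0 := by
    exact_mod_cast (Real.sqrt_pos.mpr hc).ne'
  have hs2 : (Real.sqrt c : ℂ) * (Real.sqrt c : ℂ) = (c : ℂ) := by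
    exact_mod_cast Real.mul_self_sqrt hc.le
  rw [herm_smul_left, herm_smul_right, hw, map_inv₀, conj_ofReal]
  push_cast
  rw [← hs2]
  field_simp

private theorem eo_swap {z w : Fin 3 → ℂ} (h : herm z w = 0) : herm w z = 0 := by
  rw [← herm_conj, h, map_zero]

private theorem eo_abs (W : Matrix (Fin 3) (Fin 3) ℂ) (hW : ∀ z w, herm (W.mulVec z) (W.mulVec w) = herm z w)
    (z : Fin 3 → ℂ) (hz : herm z z ≠ 0) (μ : ℂ) (h : W.mulVec z = μ • z) : ‖μ‖ = 1 := by
  have h1 := hW z z
  rw [h, herm_smul_left, herm_smul_right] at h1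
  have h2 : μ * conj μ = 1 := by
    have : (μ * conj μ - 1) * herm z z = 0 := by linear_combination h1
    rcases mul_eq_zero.mp this with h3 | h3
    · exact sub_eq_zero.mp h3
    · exact absurd h3 hz
  rw [mul_conj] at h2
  have h3 : normSq μ = 1 := by exact_mod_cast h2
  rw [normSq_eq_norm_sq] at h3
  have h4 : (‖μ‖ - 1) * (‖μ‖ + 1) = 0 := by linear_combination h3
  rcases mul_eq_zero.mp h4 with h5 | h5
  · linarith
  · exfalso
    have := norm_nonneg μ
    linarith

/-- An eigenvector orthogonal to the negative one. -/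
private theorem eo_eig (W : Matrix (Fin 3) (Fin 3) ℂ) (hW : ∀ z w, herm (W.mulVec z) (W.mulVec w) = herm z w)
    (z : Fin 3 → ℂ) (hz2 : z 2 ≠ 0) (μ : ℂ) (hμ : ‖μ‖ = 1) (h : W.mulVec z = μ • z) :
    ∃ y : Fin 3 → ℂ, y ≠ 0 ∧ herm y z = 0 ∧ ∃ l : ℂ, W.mulVec y = l • y := by
  have hμ0 : μ ≠ 0 := by
    intro h0
    rw [h0, norm_zero] at hμ
    exact zero_ne_one hμ
  let φ : (Fin 3 → ℂ) →ₗ[ℂ] ℂ :=
    { toFun := fun w => herm w z
      map_add' := fun a b => herm_add_left a b z
      map_smul' := fun a b => by simp only [herm_smul_left, RingHom.id_apply, smul_eq_mul] }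
  have hφ : ∀ w, φ w = herm w z := fun w => rfl
  have hinv : ∀ x ∈ LinearMap.ker φ, Matrix.toLin' W x ∈ LinearMap.ker φ := by
    intro x hx
    rw [LinearMap.mem_ker, hφ] at hx ⊢
    rw [Matrix.toLin'_apply]
    have h1 := hW x z
    rw [h, herm_smul_right, hx] at h1
    rcases mul_eq_zero.mp h1 with h2 | h2
    · exact absurd ((map_eq_zero _).mp h2) hμ0
    · exact h2
  let T : Module.End ℂ (LinearMap.ker φ) := (Matrix.toLin' W).restrict hinv
  have : Nontrivial (LinearMap.ker φ) := by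
    refine ⟨⟨⟨![1, 0, conj (z 0) / conj (z 2)], ?_⟩, 0, ?_⟩⟩
    · rw [LinearMap.mem_ker, hφ]
      have hc : conj (z 2) ≠ 0 := (map_ne_zero _).mpr hz2
      simp only [herm, Matrix.cons_val_zero, Matrix.cons_val_one, Matrix.cons_val]
      field_simp
      ring
    · intro he
      have h1 := congrArg (fun x : LinearMap.ker φ => (x : Fin 3 → ℂ) 0) he
      simp at h1
  obtain ⟨c, hc⟩ := Module.End.exists_eigenvalue T
  obtain ⟨v, hv⟩ := hc.exists_hasEigenvector
  have hv1 : T v = c • v := hv.apply_eq_smul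
  have hv2 : v ≠ 0 := hv.2
  refine ⟨(v : Fin 3 → ℂ), ?_, ?_, c, ?_⟩
  · intro h0
    exact hv2 (Subtype.ext h0)
  · have := v.2
    rw [LinearMap.mem_ker, hφ] at this
    exact this
  · have h1 := congrArg (fun x : LinearMap.ker φ => (x : Fin 3 → ℂ)) hv1
    have h2 : ((T v : LinearMap.ker φ) : Fin 3 → ℂ) = W.mulVec (v : Fin 3 → ℂ) := by
      rw [← Matrix.toLin'_apply]
      rfl
    have h3 : ((T v : LinearMap.ker φ) : Fin 3 → ℂ) = c • (v : Fin 3 → ℂ) := h1
    rw [h2] at h3
    exact h3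

/-- The matrix of a frame and its inverse. -/
private theorem eo_frame (f : Fin 3 → Fin 3 → ℂ) (h00 : herm (f 0) (f 0) = 1) (h11 : herm (f 1) (f 1) = 1)
    (h22 : herm (f 2) (f 2) = -1) (h01 : herm (f 0) (f 1) = 0) (h02 : herm (f 0) (f 2) = 0)
    (h12 : herm (f 1) (f 2) = 0) :
    ∃ K : Matrix (Fin 3) (Fin 3) ℂ, K * (Matrix.of (fun a i => f i a)) = 1 ∧
      ∀ z, K.mulVec z = ![herm z (f 0), herm z (f 1), -herm z (f 2)] := by
  have h10 := eo_swap h01
  have h20 := eo_swap h02
  have h21 := eo_swap h12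
  let M : Matrix (Fin 3) (Fin 3) ℂ := Matrix.of (fun a i => f i a)
  let K : Matrix (Fin 3) (Fin 3) ℂ := !![conj (f 0 0), conj (f 0 1), -conj (f 0 2);
    conj (f 1 0), conj (f 1 1), -conj (f 1 2); -conj (f 2 0), -conj (f 2 1), conj (f 2 2)]
  have hKM : K * M = 1 := by
    simp only [herm] at h00 h11 h22 h01 h02 h12 h10 h20 h21
    ext i j
    fin_cases i <;> fin_cases j <;>
      simp [K, M, Matrix.mul_apply, Fin.sum_univ_three, Matrix.one_apply] <;>
      first
        | linear_combination h00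
        | linear_combination h11
        | linear_combination (-1 : ℂ) * h22
        | linear_combination h01
        | linear_combination h02
        | linear_combination h12
        | linear_combination h10
        | linear_combination h20
        | linear_combination h21
        | linear_combination (-1 : ℂ) * h02
        | linear_combination (-1 : ℂ) * h12
  refine ⟨K, hKM, ?_⟩
  intro z
  ext i
  fin_cases i <;> simp [K, Matrix.mulVec, dotProduct, Fin.sum_univ_three, herm] <;> ring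

private theorem eo_comb (f : Fin 3 → Fin 3 → ℂ) (K : Matrix (Fin 3) (Fin 3) ℂ)
    (hK : K * (Matrix.of (fun a i => f i a)) = 1)
    (hKz : ∀ z, K.mulVec z = ![herm z (f 0), herm z (f 1), -herm z (f 2)]) (w : Fin 3 → ℂ) :
    w = herm w (f 0) • f 0 + herm w (f 1) • f 1 + (-herm w (f 2)) • f 2 := by
  have hK' := mul_eq_one_comm.mp hK
  have h2 : (Matrix.of (fun a i => f i a)).mulVec (K.mulVec w) = w := by
    rw [Matrix.mulVec_mulVec, hK', Matrix.one_mulVec]
  rw [hKz] at h2
  generalize herm w (f 0) = p at h2 ⊢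
  generalize herm w (f 1) = q at h2 ⊢
  generalize herm w (f 2) = r at h2 ⊢
  rw [← h2]
  ext a
  simp [Matrix.mulVec, dotProduct, Fin.sum_univ_three]
  ring

private theorem eo_diag (W : Matrix (Fin 3) (Fin 3) ℂ) (f : Fin 3 → Fin 3 → ℂ) (l : Fin 3 → ℂ)
    (K : Matrix (Fin 3) (Fin 3) ℂ) (hK : K * (Matrix.of (fun a i => f i a)) = 1)
    (hf : ∀ i, W.mulVec (f i) = l i • f i) :
    W.det = l 0 * l 1 * l 2 ∧ W.trace = l 0 + l 1 + l 2 ∧ LinearIndependent ℂ f := by
  have hK' := mul_eq_one_comm.mp hK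
  have hWM : W * (Matrix.of (fun a i => f i a)) = (Matrix.of (fun a i => f i a)) * Matrix.diagonal l := by
    ext a i
    have h1 := congrFun (hf i) a
    rw [Matrix.mul_diagonal]
    simp only [Matrix.mulVec, dotProduct, Pi.smul_apply, smul_eq_mul] at h1
    rw [Matrix.mul_apply]
    simp only [Matrix.of_apply]
    rw [h1]
    ring
  have hW : W = (Matrix.of (fun a i => f i a)) * Matrix.diagonal l * K := by
    rw [← hWM, Matrix.mul_assoc, hK', Matrix.mul_one]
  refine ⟨?_, ?_, ?_⟩
  · rw [hW, Matrix.det_mul, Matrix.det_mul, Matrix.det_diagonal, Fin.prod_univ_three]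
    have h1 := congrArg Matrix.det hK
    rw [Matrix.det_mul, Matrix.det_one] at h1
    linear_combination (l 0 * l 1 * l 2) * h1
  · rw [hW, Matrix.mul_assoc, Matrix.trace_mul_comm, Matrix.mul_assoc, hK, Matrix.mul_one,
      Matrix.trace_diagonal, Fin.sum_univ_three]
  · rw [Fintype.linearIndependent_iff]
    intro g hg
    have h1 : (Matrix.of (fun a i => f i a)).mulVec g = 0 := by
      ext a
      have h2 := congrFun hg a
      simp only [Matrix.mulVec, dotProduct, Matrix.of_apply, Pi.zero_apply]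
      simp only [Finset.sum_apply, Pi.smul_apply, smul_eq_mul, Pi.zero_apply] at h2
      rw [← h2]
      exact Finset.sum_congr rfl (fun i _ => mul_comm _ _)
    have h3 : g = 0 := by
      rw [← Matrix.one_mulVec g, ← hK, ← Matrix.mulVec_mulVec, h1, Matrix.mulVec_zero]
    intro i
    rw [h3]
    rfl

private theorem eo_smul_eig (W : Matrix (Fin 3) (Fin 3) ℂ) (c l : ℂ) (z : Fin 3 → ℂ)
    (h : W.mulVec z = l • z) : W.mulVec (c • z) = l • (c • z) := by
  rw [Matrix.mulVec_smul, h, smul_comm]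

theorem EigO (W : Matrix (Fin 3) (Fin 3) ℂ) (hW : ∀ z w, herm (W.mulVec z) (W.mulVec w) = herm z w)
    (hdet : W.det = 1) (h : Elliptic W) :
    ∃ (f : Fin 3 → Fin 3 → ℂ) (l : Fin 3 → ℂ), (∀ i, W.mulVec (f i) = l i • f i) ∧ (∀ i, ‖l i‖ = 1) ∧
      l 0 * l 1 * l 2 = 1 ∧ LinearIndependent ℂ f ∧ W.trace = l 0 + l 1 + l 2 := by
  obtain ⟨z, hz, μ, hμ⟩ := h
  rw [eo_self, ofReal_re] at hz
  have hzn : normSq (z 0) + normSq (z 1) < normSq (z 2) := by linarith
  have hz2 : z 2 ≠ 0 := by
    intro h0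
    rw [h0, map_zero] at hzn
    have h1 := normSq_nonneg (z 0)
    have h2 := normSq_nonneg (z 1)
    linarith
  have hzz : herm z z ≠ 0 := by
    rw [eo_self]
    exact_mod_cast hz.ne
  have hμ1 := eo_abs W hW z hzz μ hμ
  have hμ0 : μ ≠ 0 := by
    intro h0
    rw [h0, norm_zero] at hμ1
    exact zero_ne_one hμ1
  obtain ⟨y, hy0, hyz, lam, hlam⟩ := eo_eig W hW z hz2 μ hμ1 hμ
  have hyn := eo_cs z y hzn hyz hy0
  have hyy : herm y y ≠ 0 := by
    rw [eo_self]
    have : normSq (y 0) + normSq (y 1) - normSq (y 2) ≠ 0 := by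
      intro h0
      linarith
    exact_mod_cast this
  have hlam1 := eo_abs W hW y hyy lam hlam
  have hlam0 : lam ≠ 0 := by
    intro h0
    rw [h0, norm_zero] at hlam1
    exact zero_ne_one hlam1
  -- the third vector
  have hzv : herm z (cr z y) = 0 := by
    rw [herm_cr, Matrix.det_fin_three]
    simp only [Matrix.of_apply, Matrix.cons_val_zero, Matrix.cons_val_one, Matrix.cons_val]
    ring
  have hyv : herm y (cr z y) = 0 := by
    rw [herm_cr, Matrix.det_fin_three]
    simp only [Matrix.of_apply, Matrix.cons_val_zero, Matrix.cons_val_one, Matrix.cons_val]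
    ring
  have hvv0 : herm (cr z y) (cr z y) = -(herm z z * herm y y) := by
    rw [cr_herm, hyz, eo_swap hyz]
    ring
  have hvv : herm (cr z y) (cr z y) = (((normSq (z 2) - (normSq (z 0) + normSq (z 1))) *
      (normSq (y 0) + normSq (y 1) - normSq (y 2)) : ℝ) : ℂ) := by
    rw [hvv0, eo_self z, eo_self y]
    push_cast
    ring
  set cz : ℝ := normSq (z 2) - (normSq (z 0) + normSq (z 1)) with hcz
  set cy : ℝ := normSq (y 0) + normSq (y 1) - normSq (y 2) with hcy
  have hcz0 : 0 < cz := by linarith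
  have hcy0 : 0 < cy := by linarith
  have hcv0 : 0 < cz * cy := mul_pos hcz0 hcy0
  have f2 := eo_norm z cz (-1) hcz0 (by rw [eo_self, hcz]; congr 1; ring)
  have f0 := eo_norm y cy 1 hcy0 (by rw [eo_self, hcy]; congr 1; ring)
  have f1 := eo_norm (cr z y) (cz * cy) 1 hcv0 (by rw [hvv]; congr 1; ring)
  set az : ℂ := ((Real.sqrt cz)⁻¹ : ℂ) with haz
  set ay : ℂ := ((Real.sqrt cy)⁻¹ : ℂ) with hay
  set av : ℂ := ((Real.sqrt (cz * cy))⁻¹ : ℂ) with hav
  have hav0 : av ≠ 0 := by
    rw [hav]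
    exact inv_ne_zero (by exact_mod_cast (Real.sqrt_pos.mpr hcv0).ne')
  have g01 : herm (ay • y) (av • cr z y) = 0 := by
    rw [herm_smul_left, herm_smul_right, hyv, mul_zero, mul_zero]
  have g02 : herm (ay • y) (az • z) = 0 := by
    rw [herm_smul_left, herm_smul_right, hyz, mul_zero, mul_zero]
  have g12 : herm (av • cr z y) (az • z) = 0 := by
    rw [herm_smul_left, herm_smul_right, eo_swap hzv, mul_zero, mul_zero]
  obtain ⟨K, hK, hKz⟩ := eo_frame ![ay • y, av • cr z y, az • z] (by simpa using f0) (by simpa using f1)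
    (by simpa using f2) (by simpa using g01) (by simpa using g02) (by simpa using g12)
  -- the third vector is an eigenvector
  have hWv : ∃ nu : ℂ, W.mulVec (av • cr z y) = nu • (av • cr z y) := by
    have k1 : herm (W.mulVec (av • cr z y)) (ay • y) = 0 := by
      have h1 := hW (av • cr z y) (ay • y)
      rw [eo_smul_eig W ay lam y hlam, herm_smul_right, eo_swap g01] at h1
      rcases mul_eq_zero.mp h1 with h2 | h2
      · exact absurd ((map_eq_zero _).mp h2) hlam0
      · exact h2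
    have k2 : herm (W.mulVec (av • cr z y)) (az • z) = 0 := by
      have h1 := hW (av • cr z y) (az • z)
      rw [eo_smul_eig W az μ z hμ, herm_smul_right, g12] at h1
      rcases mul_eq_zero.mp h1 with h2 | h2
      · exact absurd ((map_eq_zero _).mp h2) hμ0
      · exact h2
    refine ⟨herm (W.mulVec (av • cr z y)) (av • cr z y), ?_⟩
    have h1 := eo_comb _ K hK hKz (W.mulVec (av • cr z y))
    simp only [Matrix.cons_val_zero, Matrix.cons_val_one, Matrix.cons_val] at h1
    rw [k1, k2, zero_smul, neg_zero, zero_smul, zero_add, add_zero] at h1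
    exact h1
  obtain ⟨nu, hnu⟩ := hWv
  have hfi : ∀ i, W.mulVec ((![ay • y, av • cr z y, az • z] : Fin 3 → Fin 3 → ℂ) i) =
      (![lam, nu, μ] : Fin 3 → ℂ) i • (![ay • y, av • cr z y, az • z] : Fin 3 → Fin 3 → ℂ) i := by
    intro i
    fin_cases i
    · exact eo_smul_eig W ay lam y hlam
    · exact hnu
    · exact eo_smul_eig W az μ z hμ
  obtain ⟨d1, d2, d3⟩ := eo_diag W ![ay • y, av • cr z y, az • z] ![lam, nu, μ] K hK hfi
  refine ⟨![ay • y, av • cr z y, az • z], ![lam, nu, μ], hfi, ?_, ?_, d3, d2⟩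
  · intro i
    fin_cases i
    · exact hlam1
    · refine eo_abs W hW (av • cr z y) ?_ nu hnu
      rw [f1]
      norm_num
    · exact hμ1
  · rw [← d1, hdet]

end Pool.Agent.Work.MP_88b7aa_gt.Cb
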