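import Pool.Agent.Work.MP_88b7aa_gt.Cb.Chk

/-!
# Soundness of the polynomial tests.  Size: M.

`lv L z a b = ∑ c z^i a^j b^k` over the monomials, `vl P = lv P.p - lv P.n`, `U = 32768`.
(1) If all monomials have degree `≤ D`: `(ev D z a b L : ℝ) = U^D * lv L (z/U) (a/U) (b/U)` for naturals `z, a, b` (induction).
(2) `lv L` is monotone in each variable on `[0,∞)` (nonnegative coefficients), so for a point of the box
`nlo D P B ≤ U^D vl P ≤ nhi D P B`, and `|U^D vl P| ≤ gM D P B`.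
(3) Mean value form: `f = vl G.f`, `g_z = vl G.z` etc. its partial derivatives (`HasDerivAt` of `lv` by induction on the list, `dz` drops the
monomials with `i = 0`).  For a point `v` and the centre `c` of the box: `|f v - f c| ≤ ∑ |v_i - c_i| sup |g_i|`, proved coordinate by
coordinate (`Convex.norm_image_sub_le_of_norm_hasDerivWithin_le` on an interval, three times; all intermediate points are in the box),
`|v_i - c_i| ≤ (h_i - mdl l_i h_i)/U` since `c_i - l_i ≤ h_i - c_i` for `c_i = (l_i + h_i)/2` rounded down.  The gradient lists have degree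
`≤ D - 1`, so `gM (D-1) ..` is scaled by `U^(D-1)` and times the width `U^D`.
(4) `ge0`, `gt0`, `le0`: by cases on the first test.  `leb`, `posb` on integers: `leb a b = true ↔ a ≤ b`, `posb a = true ↔ 0 < a`
(`Int.sub b a` is `ofNat` iff `a ≤ b`).
-/

namespace Pool.Agent.Work.MP_88b7aa_gt.Cb

/-- value of a list of monomials -/
def lv (L : List Mn) (z a b : ℝ) : ℝ := (L.map (fun m => (m.c : ℝ) * z ^ m.i * a ^ m.j * b ^ m.k)).sum

def vl (P : Pol) (z a b : ℝ) : ℝ := lv P.p z a b - lv P.n z a b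

/-- the point `(z, a, b)` lies in the box -/
structure InB (z a b : ℝ) (B : Bx) : Prop where
  zl : (B.zl : ℝ) ≤ z * 32768
  zh : z * 32768 ≤ (B.zh : ℝ)
  al : (B.al : ℝ) ≤ a * 32768
  ah : a * 32768 ≤ (B.ah : ℝ)
  bl : (B.bl : ℝ) ≤ b * 32768
  bh : b * 32768 ≤ (B.bh : ℝ)

/-- all monomials have degree at most `D` -/
def dle (D : Nat) (P : Pol) : Prop := (∀ m ∈ P.p, m.i + m.j + m.k ≤ D) ∧ (∀ m ∈ P.n, m.i + m.j + m.k ≤ D)

open Pool.Agent.Work.MP_88b7aa_gt.Iv

private theorem leb_iff (a b : Int) : leb a b = true ↔ a ≤ b := by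
  unfold leb
  have h : Int.sub b a = b - a := rfl
  rw [h]
  rcases hc : b - a with n | n
  · constructor
    · intro _
      have : (0 : ℤ) ≤ b - a := by rw [hc]; exact Int.natCast_nonneg n
      omega
    · intro _
      rfl
  · constructor
    · intro h'
      exact absurd h' (by simp)
    · intro h'
      have : b - a < 0 := by rw [hc]; exact Int.negSucc_lt_zero n
      omega

private theorem posb_iff (a : Int) : posb a = true ↔ 0 < a := by
  unfold posb
  rcases a with n | n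
  · constructor
    · intro h
      have h' : Nat.blt 0 n = true := h
      have h2 : 0 < n := by
        rcases Nat.eq_zero_or_pos n with h0 | h0
        · subst h0
          exact absurd h' (by decide)
        · exact h0
      exact Int.natCast_pos.2 h2
    · intro h
      have h2 : 0 < n := Int.natCast_pos.1 h
      show Nat.blt 0 n = true
      exact Nat.ble_eq_true_of_le h2
  · constructor
    · intro h
      exact absurd h (by simp)
    · intro h
      exact absurd h (not_lt.2 (Int.negSucc_lt_zero n).le)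

private noncomputable def er (D : ℕ) (Z A B : ℝ) : List Mn → ℝ
  | [] => 0
  | m :: l => (m.c : ℝ) * Z ^ m.i * A ^ m.j * B ^ m.k * 32768 ^ (D - (m.i + (m.j + m.k))) +
      er D Z A B l

private theorem ev_er (D z a b : ℕ) (L : List Mn) :
    ((ev D z a b L : ℕ) : ℝ) = er D z a b L := by
  induction L with
  | nil => simp [ev, er]
  | cons m l ih =>
    have h : ev D z a b (m :: l) = m.c * (z ^ m.i * (a ^ m.j * (b ^ m.k *
      32768 ^ (D - (m.i + (m.j + m.k)))))) + ev D z a b l := rfl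
    rw [h, er, ← ih]
    push_cast
    ring

private theorem er_lv (D : ℕ) (z a b : ℝ) (L : List Mn) (hL : ∀ m ∈ L, m.i + m.j + m.k ≤ D) :
    er D (z * 32768) (a * 32768) (b * 32768) L = 32768 ^ D * lv L z a b := by
  induction L with
  | nil => simp [er, lv]
  | cons m l ih =>
    have h1 := ih (fun x hx => hL x (List.mem_cons_of_mem _ hx))
    have h2 := hL m List.mem_cons_self
    have h3 : lv (m :: l) z a b = (m.c : ℝ) * z ^ m.i * a ^ m.j * b ^ m.k + lv l z a b := by
      unfold lv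
      rw [List.map_cons, List.sum_cons]
    rw [er, h1, h3, mul_add]
    congr 1
    have h4 : (32768 : ℝ) ^ D = 32768 ^ (D - (m.i + (m.j + m.k))) * 32768 ^ m.i * 32768 ^ m.j *
        32768 ^ m.k := by
      rw [← pow_add, ← pow_add, ← pow_add]
      congr 1
      omega
    rw [h4, mul_pow, mul_pow, mul_pow]
    ring

private theorem er_mono (D : ℕ) {Z Z' A A' B B' : ℝ} (hZ : 0 ≤ Z) (hA : 0 ≤ A) (hB : 0 ≤ B)
    (hZ' : Z ≤ Z') (hA' : A ≤ A') (hB' : B ≤ B') (L : List Mn) :
    er D Z A B L ≤ er D Z' A' B' L := by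
  induction L with
  | nil => exact le_rfl
  | cons m l ih =>
    rw [er, er]
    apply add_le_add _ ih
    apply mul_le_mul_of_nonneg_right _ (by positivity)
    have e1 : Z ^ m.i ≤ Z' ^ m.i := pow_le_pow_left₀ hZ hZ' _
    have e2 : A ^ m.j ≤ A' ^ m.j := pow_le_pow_left₀ hA hA' _
    have e3 : B ^ m.k ≤ B' ^ m.k := pow_le_pow_left₀ hB hB' _
    have hZ'0 : 0 ≤ Z' := hZ.trans hZ'
    have hA'0 : 0 ≤ A' := hA.trans hA'
    apply mul_le_mul _ e3 (by positivity) (by positivity)
    apply mul_le_mul _ e2 (by positivity) (by positivity)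
    exact mul_le_mul_of_nonneg_left e1 (by positivity)

private theorem er_dz (D : ℕ) (Z A B : ℝ) (L : List Mn) :
    HasDerivAt (fun Z => er D Z A B L) (er (D - 1) Z A B (dz L)) Z := by
  induction L with
  | nil => exact hasDerivAt_const _ _
  | cons m l ih =>
    obtain ⟨c, i, j, k⟩ := m
    rcases i with _ | i
    · have e : (fun Z => er D Z A B (⟨c, 0, j, k⟩ :: l)) =
          fun Z => (c : ℝ) * A ^ j * B ^ k * 32768 ^ (D - (0 + (j + k))) + er D Z A B l := by
        funext Z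
        rw [er]
        simp
      rw [e]
      have h2 : dz (⟨c, 0, j, k⟩ :: l) = dz l := rfl
      rw [h2]
      exact ih.const_add _
    · have h2 : dz (⟨c, i + 1, j, k⟩ :: l) = ⟨c * (i + 1), i, j, k⟩ :: dz l := rfl
      rw [h2]
      have h3 : HasDerivAt (fun Z : ℝ => (c : ℝ) * Z ^ (i + 1) * A ^ j * B ^ k *
          32768 ^ (D - ((i + 1) + (j + k)))) (((c * (i + 1) : ℕ) : ℝ) * Z ^ i * A ^ j * B ^ k *
          32768 ^ ((D - 1) - (i + (j + k)))) Z := by
        have h4 := (((hasDerivAt_pow (i + 1) Z).const_mul (c : ℝ)).mul_const (A ^ j)).mul_const (B ^ k)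
        have h5 := h4.mul_const ((32768 : ℝ) ^ (D - ((i + 1) + (j + k))))
        have h6 : D - 1 - (i + (j + k)) = D - ((i + 1) + (j + k)) := by omega
        rw [h6]
        refine h5.congr_deriv ?_
        rw [Nat.add_sub_cancel]
        push_cast
        ring
      exact h3.add ih

private theorem er_da (D : ℕ) (Z A B : ℝ) (L : List Mn) :
    HasDerivAt (fun A => er D Z A B L) (er (D - 1) Z A B (da L)) A := by
  induction L with
  | nil => exact hasDerivAt_const _ _
  | cons m l ih =>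
    obtain ⟨c, i, j, k⟩ := m
    rcases j with _ | j
    · have e : (fun A => er D Z A B (⟨c, i, 0, k⟩ :: l)) =
          fun A => (c : ℝ) * Z ^ i * B ^ k * 32768 ^ (D - (i + (0 + k))) + er D Z A B l := by
        funext A
        rw [er]
        simp
      rw [e]
      have h2 : da (⟨c, i, 0, k⟩ :: l) = da l := rfl
      rw [h2]
      exact ih.const_add _
    · have h2 : da (⟨c, i, j + 1, k⟩ :: l) = ⟨c * (j + 1), i, j, k⟩ :: da l := rfl
      rw [h2]
      have h3 : HasDerivAt (fun A : ℝ => (c : ℝ) * Z ^ i * A ^ (j + 1) * B ^ k *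
          32768 ^ (D - (i + ((j + 1) + k)))) (((c * (j + 1) : ℕ) : ℝ) * Z ^ i * A ^ j * B ^ k *
          32768 ^ ((D - 1) - (i + (j + k)))) A := by
        have h4 := ((hasDerivAt_pow (j + 1) A).const_mul ((c : ℝ) * Z ^ i)).mul_const (B ^ k)
        have h5 := h4.mul_const ((32768 : ℝ) ^ (D - (i + ((j + 1) + k))))
        have h6 : D - 1 - (i + (j + k)) = D - (i + ((j + 1) + k)) := by omega
        rw [h6]
        refine h5.congr_deriv ?_
        rw [Nat.add_sub_cancel]
        push_cast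
        ring
      exact h3.add ih

private theorem er_db (D : ℕ) (Z A B : ℝ) (L : List Mn) :
    HasDerivAt (fun B => er D Z A B L) (er (D - 1) Z A B (db L)) B := by
  induction L with
  | nil => exact hasDerivAt_const _ _
  | cons m l ih =>
    obtain ⟨c, i, j, k⟩ := m
    rcases k with _ | k
    · have e : (fun B => er D Z A B (⟨c, i, j, 0⟩ :: l)) =
          fun B => (c : ℝ) * Z ^ i * A ^ j * 32768 ^ (D - (i + (j + 0))) + er D Z A B l := by
        funext B
        rw [er]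
        simp
      rw [e]
      have h2 : db (⟨c, i, j, 0⟩ :: l) = db l := rfl
      rw [h2]
      exact ih.const_add _
    · have h2 : db (⟨c, i, j, k + 1⟩ :: l) = ⟨c * (k + 1), i, j, k⟩ :: db l := rfl
      rw [h2]
      have h3 : HasDerivAt (fun B : ℝ => (c : ℝ) * Z ^ i * A ^ j * B ^ (k + 1) *
          32768 ^ (D - (i + (j + (k + 1))))) (((c * (k + 1) : ℕ) : ℝ) * Z ^ i * A ^ j * B ^ k *
          32768 ^ ((D - 1) - (i + (j + k)))) B := by
        have h4 := (hasDerivAt_pow (k + 1) B).const_mul ((c : ℝ) * Z ^ i * A ^ j)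
        have h5 := h4.mul_const ((32768 : ℝ) ^ (D - (i + (j + (k + 1)))))
        have h6 : D - 1 - (i + (j + k)) = D - (i + (j + (k + 1))) := by omega
        rw [h6]
        refine h5.congr_deriv ?_
        rw [Nat.add_sub_cancel]
        push_cast
        ring
      exact h3.add ih

/-- the scaled value of a polynomial -/
private noncomputable def fr (D : ℕ) (P : Pol) (Z A B : ℝ) : ℝ := er D Z A B P.p - er D Z A B P.n

/-- the point is in the box, scaled coordinates -/
private structure IB (Z A B : ℝ) (X : Bx) : Prop where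
  z1 : (X.zl : ℝ) ≤ Z
  z2 : Z ≤ (X.zh : ℝ)
  a1 : (X.al : ℝ) ≤ A
  a2 : A ≤ (X.ah : ℝ)
  b1 : (X.bl : ℝ) ≤ B
  b2 : B ≤ (X.bh : ℝ)

private theorem lo_le (D : ℕ) (P : Pol) {Z A B : ℝ} {X : Bx} (h : IB Z A B X) :
    ((nlo D P X : ℤ) : ℝ) ≤ fr D P Z A B := by
  have e : ((nlo D P X : ℤ) : ℝ) = er D X.zl X.al X.bl P.p - er D X.zh X.ah X.bh P.n := by
    rw [← ev_er, ← ev_er]
    unfold nlo
    rw [Int.subNatNat_eq_coe]
    push_cast
    rfl
  rw [e]
  unfold fr
  have h1 := er_mono D (Nat.cast_nonneg X.zl) (Nat.cast_nonneg X.al) (Nat.cast_nonneg X.bl)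
    h.z1 h.a1 h.b1 P.p
  have h2 := er_mono D ((Nat.cast_nonneg X.zl).trans h.z1) ((Nat.cast_nonneg X.al).trans h.a1)
    ((Nat.cast_nonneg X.bl).trans h.b1) h.z2 h.a2 h.b2 P.n
  linarith

private theorem le_hi (D : ℕ) (P : Pol) {Z A B : ℝ} {X : Bx} (h : IB Z A B X) :
    fr D P Z A B ≤ ((nhi D P X : ℤ) : ℝ) := by
  have e : ((nhi D P X : ℤ) : ℝ) = er D X.zh X.ah X.bh P.p - er D X.zl X.al X.bl P.n := by
    rw [← ev_er, ← ev_er]
    unfold nhi
    rw [Int.subNatNat_eq_coe]
    push_cast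
    rfl
  rw [e]
  unfold fr
  have h1 := er_mono D (Nat.cast_nonneg X.zl) (Nat.cast_nonneg X.al) (Nat.cast_nonneg X.bl)
    h.z1 h.a1 h.b1 P.n
  have h2 := er_mono D ((Nat.cast_nonneg X.zl).trans h.z1) ((Nat.cast_nonneg X.al).trans h.a1)
    ((Nat.cast_nonneg X.bl).trans h.b1) h.z2 h.a2 h.b2 P.p
  linarith

private theorem abs_le_gM (D : ℕ) (P : Pol) {Z A B : ℝ} {X : Bx} (h : IB Z A B X) :
    |fr D P Z A B| ≤ (gM D P X : ℝ) := by
  have h1 := lo_le D P h
  have h2 := le_hi D P h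
  have e1 : ((nlo D P X).natAbs : ℝ) ≤ (gM D P X : ℝ) := by
    exact_mod_cast Nat.le_max_left _ _
  have e2 : ((nhi D P X).natAbs : ℝ) ≤ (gM D P X : ℝ) := by
    exact_mod_cast Nat.le_max_right _ _
  rw [Nat.cast_natAbs, Int.cast_abs] at e1 e2
  rw [abs_le]
  constructor
  · have := neg_abs_le ((nlo D P X : ℤ) : ℝ)
    linarith
  · have := le_abs_self ((nhi D P X : ℤ) : ℝ)
    linarith

private theorem mvt {g g' : ℝ → ℝ} {lo hi C : ℝ} (hg : ∀ x, HasDerivAt g (g' x) x)
    (hb : ∀ x, lo ≤ x → x ≤ hi → |g' x| ≤ C) {x y : ℝ} (hx1 : lo ≤ x) (hx2 : x ≤ hi)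
    (hy1 : lo ≤ y) (hy2 : y ≤ hi) : |g y - g x| ≤ C * |y - x| := by
  have := (convex_Icc lo hi).norm_image_sub_le_of_norm_hasDerivWithin_le
    (f := g) (f' := g') (C := C) (x := x) (y := y) (fun z _ => (hg z).hasDerivWithinAt)
    (fun z hz => by rw [Real.norm_eq_abs]; exact hb z hz.1 hz.2) ⟨hx1, hx2⟩ ⟨hy1, hy2⟩
  rw [Real.norm_eq_abs, Real.norm_eq_abs] at this
  exact this

private theorem mid_facts {l h : ℕ} (hlh : l ≤ h) :
    (l : ℝ) ≤ (mdl l h : ℝ) ∧ ((mdl l h : ℕ) : ℝ) ≤ h ∧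
      ∀ v : ℝ, (l : ℝ) ≤ v → v ≤ h → |v - (mdl l h : ℝ)| ≤ ((Nat.sub h (mdl l h) : ℕ) : ℝ) := by
  have h1 : mdl l h = (l + h) / 2 := rfl
  have h2 : l ≤ mdl l h := by rw [h1]; omega
  have h3 : mdl l h ≤ h := by rw [h1]; omega
  have h4 : 2 * mdl l h ≤ l + h := by rw [h1]; omega
  have h4' : 2 * (mdl l h : ℝ) ≤ l + h := by exact_mod_cast h4
  refine ⟨by exact_mod_cast h2, by exact_mod_cast h3, ?_⟩
  intro v hv1 hv2
  have e : ((Nat.sub h (mdl l h) : ℕ) : ℝ) = (h : ℝ) - mdl l h := by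
    show (((h - mdl l h : ℕ)) : ℝ) = _
    rw [Nat.cast_sub h3]
  rw [e, abs_le]
  constructor <;> linarith

private theorem mean_value (D : ℕ) (G : PolG) (hG : isG G) {Z A B : ℝ} {X : Bx}
    (h : IB Z A B X) : |fr D G.f Z A B - ((cen D G.f X : ℤ) : ℝ)| ≤ ((rad D G X : ℕ) : ℝ) := by
  obtain ⟨g1, g2, g3, g4, g5, g6⟩ := hG
  have hz : X.zl ≤ X.zh := by
    have := h.z1.trans h.z2
    exact_mod_cast this
  have ha : X.al ≤ X.ah := by
    have := h.a1.trans h.a2
    exact_mod_cast this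
  have hb : X.bl ≤ X.bh := by
    have := h.b1.trans h.b2
    exact_mod_cast this
  obtain ⟨mz1, mz2, mz3⟩ := mid_facts hz
  obtain ⟨ma1, ma2, ma3⟩ := mid_facts ha
  obtain ⟨mb1, mb2, mb3⟩ := mid_facts hb
  set cz : ℝ := (mdl X.zl X.zh : ℝ) with hcz
  set ca : ℝ := (mdl X.al X.ah : ℝ) with hca
  set cb : ℝ := (mdl X.bl X.bh : ℝ) with hcb
  have ecen : ((cen D G.f X : ℤ) : ℝ) = fr D G.f cz ca cb := by
    unfold fr
    rw [hcz, hca, hcb, ← ev_er, ← ev_er]
    unfold cen
    rw [Int.subNatNat_eq_coe]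
    push_cast
    rfl
  -- the three steps
  have s1 : |fr D G.f Z A B - fr D G.f cz A B| ≤ (gM (D - 1) G.z X : ℝ) * |Z - cz| := by
    apply mvt (g := fun t => fr D G.f t A B) (g' := fun t => fr (D - 1) G.z t A B)
      (lo := X.zl) (hi := X.zh)
    · intro t
      unfold fr
      rw [g1, g2]
      exact (er_dz D t A B G.f.p).sub (er_dz D t A B G.f.n)
    · intro t ht1 ht2
      exact abs_le_gM (D - 1) G.z ⟨ht1, ht2, h.a1, h.a2, h.b1, h.b2⟩
    · exact mz1
    · exact mz2
    · exact h.z1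
    · exact h.z2
  have s2 : |fr D G.f cz A B - fr D G.f cz ca B| ≤ (gM (D - 1) G.a X : ℝ) * |A - ca| := by
    apply mvt (g := fun t => fr D G.f cz t B) (g' := fun t => fr (D - 1) G.a cz t B)
      (lo := X.al) (hi := X.ah)
    · intro t
      unfold fr
      rw [g3, g4]
      exact (er_da D cz t B G.f.p).sub (er_da D cz t B G.f.n)
    · intro t ht1 ht2
      exact abs_le_gM (D - 1) G.a ⟨mz1, mz2, ht1, ht2, h.b1, h.b2⟩
    · exact ma1
    · exact ma2
    · exact h.a1
    · exact h.a2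
  have s3 : |fr D G.f cz ca B - fr D G.f cz ca cb| ≤ (gM (D - 1) G.b X : ℝ) * |B - cb| := by
    apply mvt (g := fun t => fr D G.f cz ca t) (g' := fun t => fr (D - 1) G.b cz ca t)
      (lo := X.bl) (hi := X.bh)
    · intro t
      unfold fr
      rw [g5, g6]
      exact (er_db D cz ca t G.f.p).sub (er_db D cz ca t G.f.n)
    · intro t ht1 ht2
      exact abs_le_gM (D - 1) G.b ⟨mz1, mz2, ma1, ma2, ht1, ht2⟩
    · exact mb1
    · exact mb2
    · exact h.b1
    · exact h.b2
  have t1 := mul_le_mul_of_nonneg_left (mz3 Z h.z1 h.z2) (Nat.cast_nonneg (α := ℝ) (gM (D - 1) G.z X))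
  have t2 := mul_le_mul_of_nonneg_left (ma3 A h.a1 h.a2) (Nat.cast_nonneg (α := ℝ) (gM (D - 1) G.a X))
  have t3 := mul_le_mul_of_nonneg_left (mb3 B h.b1 h.b2) (Nat.cast_nonneg (α := ℝ) (gM (D - 1) G.b X))
  have erad : ((rad D G X : ℕ) : ℝ) =
      (gM (D - 1) G.z X : ℝ) * ((Nat.sub X.zh (mdl X.zl X.zh) : ℕ) : ℝ) +
      ((gM (D - 1) G.a X : ℝ) * ((Nat.sub X.ah (mdl X.al X.ah) : ℕ) : ℝ) +
      (gM (D - 1) G.b X : ℝ) * ((Nat.sub X.bh (mdl X.bl X.bh) : ℕ) : ℝ)) := by
    have : rad D G X = gM (D - 1) G.z X * Nat.sub X.zh (mdl X.zl X.zh) +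
        (gM (D - 1) G.a X * Nat.sub X.ah (mdl X.al X.ah) +
        gM (D - 1) G.b X * Nat.sub X.bh (mdl X.bl X.bh)) := rfl
    rw [this]
    push_cast
    rfl
  rw [ecen, erad]
  have hsplit : fr D G.f Z A B - fr D G.f cz ca cb = (fr D G.f Z A B - fr D G.f cz A B) +
      ((fr D G.f cz A B - fr D G.f cz ca B) + (fr D G.f cz ca B - fr D G.f cz ca cb)) := by ring
  rw [hsplit]
  refine (abs_add_le _ _).trans ?_
  refine (add_le_add_right (abs_add_le _ _) _).trans ?_
  linarith

private theorem fr_vl (D : ℕ) (P : Pol) (hd : dle D P) (z a b : ℝ) :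
    fr D P (z * 32768) (a * 32768) (b * 32768) = 32768 ^ D * vl P z a b := by
  unfold fr vl
  rw [er_lv D z a b P.p hd.1, er_lv D z a b P.n hd.2]
  ring

private theorem ib_of {z a b : ℝ} {B : Bx} (h : InB z a b B) :
    IB (z * 32768) (a * 32768) (b * 32768) B :=
  ⟨h.zl, h.zh, h.al, h.ah, h.bl, h.bh⟩

private theorem sub_cast (x : ℤ) (n : ℕ) : ((Int.sub x (Int.ofNat n) : ℤ) : ℝ) = (x : ℝ) - n := by
  have : Int.sub x (Int.ofNat n) = x - (n : ℤ) := rfl
  rw [this]
  push_cast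
  rfl

private theorem add_cast (x : ℤ) (n : ℕ) : ((Int.add x (Int.ofNat n) : ℤ) : ℝ) = (x : ℝ) + n := by
  have : Int.add x (Int.ofNat n) = x + (n : ℤ) := rfl
  rw [this]
  push_cast
  rfl

theorem ge0_sound (D : Nat) (hD : 1 ≤ D) (G : PolG) (hG : isG G) (hd : dle D G.f) (B : Bx) (z a b : ℝ)
    (hB : InB z a b B) (ok : ge0 D G B = true) : 0 ≤ vl G.f z a b := by
  have hib := ib_of hB
  have hv := fr_vl D G.f hd z a b
  have hpos : (0 : ℝ) < 32768 ^ D := by positivity
  have key : 0 ≤ fr D G.f (z * 32768) (a * 32768) (b * 32768) := by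
    unfold ge0 at ok
    rcases h : leb 0 (nlo D G.f B) with _ | _
    · rw [h] at ok
      have h1 := (leb_iff _ _).1 ok
      have h2 : (0 : ℝ) ≤ ((Int.sub (cen D G.f B) (Int.ofNat (rad D G B)) : ℤ) : ℝ) := by
        exact_mod_cast h1
      rw [sub_cast] at h2
      have h3 := (abs_le.1 (mean_value D G hG hib)).1
      linarith
    · have h1 := (leb_iff _ _).1 h
      have h2 : (0 : ℝ) ≤ ((nlo D G.f B : ℤ) : ℝ) := by exact_mod_cast h1
      exact h2.trans (lo_le D G.f hib)
  rw [hv] at key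
  exact nonneg_of_mul_nonneg_right key hpos

theorem gt0_sound (D : Nat) (hD : 1 ≤ D) (G : PolG) (hG : isG G) (hd : dle D G.f) (B : Bx) (z a b : ℝ)
    (hB : InB z a b B) (ok : gt0 D G B = true) : 0 < vl G.f z a b := by
  have hib := ib_of hB
  have hv := fr_vl D G.f hd z a b
  have hpos : (0 : ℝ) < 32768 ^ D := by positivity
  have key : 0 < fr D G.f (z * 32768) (a * 32768) (b * 32768) := by
    unfold gt0 at ok
    rcases h : posb (nlo D G.f B) with _ | _
    · rw [h] at ok
      have h1 := (posb_iff _).1 ok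
      have h2 : (0 : ℝ) < ((Int.sub (cen D G.f B) (Int.ofNat (rad D G B)) : ℤ) : ℝ) := by
        exact_mod_cast h1
      rw [sub_cast] at h2
      have h3 := (abs_le.1 (mean_value D G hG hib)).1
      linarith
    · have h1 := (posb_iff _).1 h
      have h2 : (0 : ℝ) < ((nlo D G.f B : ℤ) : ℝ) := by exact_mod_cast h1
      exact h2.trans_le (lo_le D G.f hib)
  rw [hv] at key
  exact (mul_pos_iff_of_pos_left hpos).1 key

theorem le0_sound (D : Nat) (hD : 1 ≤ D) (G : PolG) (hG : isG G) (hd : dle D G.f) (B : Bx) (z a b : ℝ)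
    (hB : InB z a b B) (ok : le0 D G B = true) : vl G.f z a b ≤ 0 := by
  have hib := ib_of hB
  have hv := fr_vl D G.f hd z a b
  have hpos : (0 : ℝ) < 32768 ^ D := by positivity
  have key : fr D G.f (z * 32768) (a * 32768) (b * 32768) ≤ 0 := by
    unfold le0 at ok
    rcases h : leb (nhi D G.f B) 0 with _ | _
    · rw [h] at ok
      have h1 := (leb_iff _ _).1 ok
      have h2 : ((Int.add (cen D G.f B) (Int.ofNat (rad D G B)) : ℤ) : ℝ) ≤ (0 : ℝ) := by
        exact_mod_cast h1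
      rw [add_cast] at h2
      have h3 := (abs_le.1 (mean_value D G hG hib)).2
      linarith
    · have h1 := (leb_iff _ _).1 h
      have h2 : ((nhi D G.f B : ℤ) : ℝ) ≤ (0 : ℝ) := by exact_mod_cast h1
      exact (le_hi D G.f hib).trans h2
  rw [hv] at key
  by_contra hc
  push Not at hc
  have := mul_pos hpos hc
  linarith

end Pool.Agent.Work.MP_88b7aa_gt.Cb
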