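import Pool.Agent.Work.MP_88b7aa_gt.CH.Dts

/-!
# Existence of the triangles.  Size: S-M.

PROOF of `Exi`.  `c_i = cos (2 α i)`, `s0 = sin (2 α 0) > 0`, `E = e^{2it/3}`.  Take `n 0 = (1,0,0)`, `n 1 = (-c0 conj E, s0, 0)`,
`n 2 = (A, B, w)` with `A = -c2 E`, `conj B = (-c1 E - c0 c2 (conj E)²)/s0`, `w = √(|A|² + |B|² - 1)`.  Indeed
`|A|² + |B|² - 1 = (c0² + c1² + c2² - 1 + 2 c0 c1 c2 cos 2t)/s0² = Del α t/s0² > 0` (`(conj E)³`, `E³ = e^{2it}`), and `⟨n 0,n 1⟩ = -c0 E`,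
`⟨n 1, n 2⟩ = (-c0 conj E)(conj A) + s0 conj B = c0 c2 (conj E)² + s0 conj B = -c1 E`, `⟨n 2, n 0⟩ = A = -c2 E`; all have norm one.
PROOF of `NTri_tri`: `cos (2 * ang p q r e)` is `cos (π/q), cos (π/p), cos (π/r)`, all `≥ 0`; `(e^{2it/3})³ = e^{2it} = e^{iθ}`.
-/

namespace Pool.Agent.Work.MP_88b7aa_gt.Cb

open Pool.Agent.Work.MP_88b7aa_gt.CH

private theorem conj_ex (x : ℝ) :
    (starRingEnd ℂ) (Complex.exp ((x : ℝ) * Complex.I)) = Complex.exp ((-x : ℝ) * Complex.I) := by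
  rw [← Complex.exp_conj, map_mul, Complex.conj_ofReal, Complex.conj_I]
  congr 1
  push_cast
  ring

private theorem ex_mul (x y : ℝ) : Complex.exp ((x : ℝ) * Complex.I) * Complex.exp ((y : ℝ) * Complex.I) =
    Complex.exp ((x + y : ℝ) * Complex.I) := by
  rw [← Complex.exp_add]
  congr 1
  push_cast
  ring

private theorem ex_zero : Complex.exp (((0 : ℝ) : ℂ) * Complex.I) = 1 := by
  rw [Complex.ofReal_zero, zero_mul, Complex.exp_zero]

private theorem ex_cos (x : ℝ) : Complex.exp ((x : ℝ) * Complex.I) + Complex.exp ((-x : ℝ) * Complex.I) =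
    2 * (Real.cos x : ℂ) := by
  have h := Complex.two_cos (x : ℂ)
  rw [Complex.ofReal_cos, h]
  push_cast
  ring

private theorem ex_norm (x : ℝ) : ‖Complex.exp ((x : ℝ) * Complex.I)‖ = 1 := Complex.norm_exp_ofReal_mul_I x

theorem Exi (α : Fin 3 → ℝ) (t : ℝ) (hs : 0 < Real.sin (2 * α 0)) (hD : 0 < Del α t) :
    ∃ n : Fin 3 → Fin 3 → ℂ, NTri α t n := by
  set E : ℂ := Complex.exp ((2 * t / 3 : ℝ) * Complex.I) with hE
  set E' : ℂ := Complex.exp ((-(2 * t / 3) : ℝ) * Complex.I) with hE'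
  have cE : (starRingEnd ℂ) E = E' := conj_ex (2 * t / 3)
  have cE' : (starRingEnd ℂ) E' = E := by
    rw [← cE, Complex.conj_conj]
  have hEE : E * E' = 1 := by
    rw [hE, hE', ex_mul, show (2 * t / 3 : ℝ) + -(2 * t / 3) = 0 by ring, ex_zero]
  have h3 : E ^ 3 + E' ^ 3 = 2 * (Real.cos (2 * t) : ℂ) := by
    have e1 : E ^ 3 = Complex.exp ((2 * t : ℝ) * Complex.I) := by
      rw [show E ^ 3 = E * E * E by ring, hE, ex_mul, ex_mul]
      congr 2
      ring_nf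
    have e2 : E' ^ 3 = Complex.exp ((-(2 * t) : ℝ) * Complex.I) := by
      rw [show E' ^ 3 = E' * E' * E' by ring, hE', ex_mul, ex_mul]
      congr 2
      ring_nf
    rw [e1, e2, ex_cos]
  set C0 : ℂ := (Real.cos (2 * α 0) : ℂ) with hC0
  set C1 : ℂ := (Real.cos (2 * α 1) : ℂ) with hC1
  set C2 : ℂ := (Real.cos (2 * α 2) : ℂ) with hC2
  set S : ℂ := (Real.sin (2 * α 0) : ℂ) with hS
  set r : ℂ := (Real.sqrt (Del α t) : ℂ) with hr
  have cC0 : (starRingEnd ℂ) C0 = C0 := Complex.conj_ofReal _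
  have cC1 : (starRingEnd ℂ) C1 = C1 := Complex.conj_ofReal _
  have cC2 : (starRingEnd ℂ) C2 = C2 := Complex.conj_ofReal _
  have cS : (starRingEnd ℂ) S = S := Complex.conj_ofReal _
  have cr' : (starRingEnd ℂ) r = r := Complex.conj_ofReal _
  have hSne : S ≠ 0 := by
    rw [hS]
    exact_mod_cast hs.ne'
  have hSC : S ^ 2 + C0 ^ 2 = 1 := by
    have h := Real.sin_sq_add_cos_sq (2 * α 0)
    have h' : ((Real.sin (2 * α 0) ^ 2 + Real.cos (2 * α 0) ^ 2 : ℝ) : ℂ) = ((1 : ℝ) : ℂ) := by rw [h]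
    rw [hS, hC0]
    exact_mod_cast h'
  have hr2 : r ^ 2 = C0 ^ 2 + C1 ^ 2 + C2 ^ 2 + 2 * (C0 * C1 * C2) * (Real.cos (2 * t) : ℂ) - 1 := by
    have h : Real.sqrt (Del α t) ^ 2 = Del α t := Real.sq_sqrt hD.le
    have h' : ((Real.sqrt (Del α t) ^ 2 : ℝ) : ℂ) = ((Del α t : ℝ) : ℂ) := by rw [h]
    unfold Del at h'
    rw [hr, hC0, hC1, hC2]
    exact_mod_cast h'
  have key : C2 ^ 2 * S ^ 2 + (-C1 * E' - C0 * C2 * E ^ 2) * (-C1 * E - C0 * C2 * E' ^ 2) - r ^ 2 = S ^ 2 := by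
    have e : (-C1 * E' - C0 * C2 * E ^ 2) * (-C1 * E - C0 * C2 * E' ^ 2) =
        C1 ^ 2 * (E * E') + C0 * C1 * C2 * (E ^ 3 + E' ^ 3) + C0 ^ 2 * C2 ^ 2 * (E * E') ^ 2 := by ring
    rw [e, hEE, h3, hr2]
    linear_combination (C2 ^ 2 - 1) * hSC
  set n : Fin 3 → Fin 3 → ℂ :=
    ![![1, 0, 0], ![-C0 * E', S, 0], ![-C2 * E, (-C1 * E' - C0 * C2 * E ^ 2) / S, r / S]] with hn
  have n00 : n 0 0 = 1 := rfl
  have n01 : n 0 1 = 0 := rfl
  have n02 : n 0 2 = 0 := rfl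
  have n10 : n 1 0 = -C0 * E' := rfl
  have n11 : n 1 1 = S := rfl
  have n12 : n 1 2 = 0 := rfl
  have n20 : n 2 0 = -C2 * E := rfl
  have n21 : n 2 1 = (-C1 * E' - C0 * C2 * E ^ 2) / S := rfl
  have n22 : n 2 2 = r / S := rfl
  have c1 : (starRingEnd ℂ) (-C0 * E') = -C0 * E := by
    rw [map_mul, map_neg, cC0, cE']
  have c2 : (starRingEnd ℂ) (-C2 * E) = -C2 * E' := by
    rw [map_mul, map_neg, cC2, cE]
  have c3 : (starRingEnd ℂ) ((-C1 * E' - C0 * C2 * E ^ 2) / S) = (-C1 * E - C0 * C2 * E' ^ 2) / S := by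
    rw [map_div₀, map_sub, map_mul, map_mul, map_mul, map_neg, map_pow, cC1, cC0, cC2, cE, cE', cS]
  have c4 : (starRingEnd ℂ) (r / S) = r / S := by
    rw [map_div₀, cr', cS]
  refine ⟨n, ⟨?_, ?_⟩⟩
  · intro i
    fin_cases i
    · show herm (n 0) (n 0) = 1
      unfold herm
      rw [n00, n01, n02, map_one, map_zero]
      ring
    · show herm (n 1) (n 1) = 1
      unfold herm
      rw [n10, n11, n12, c1, cS, map_zero]
      linear_combination C0 ^ 2 * hEE + hSC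
    · show herm (n 2) (n 2) = 1
      unfold herm
      rw [n20, n21, n22, c2, c3, c4]
      have e : -C2 * E * (-C2 * E') + (-C1 * E' - C0 * C2 * E ^ 2) / S * ((-C1 * E - C0 * C2 * E' ^ 2) / S) -
          r / S * (r / S) = (C2 ^ 2 * S ^ 2 * (E * E') +
            (-C1 * E' - C0 * C2 * E ^ 2) * (-C1 * E - C0 * C2 * E' ^ 2) - r ^ 2) / S ^ 2 := by
        field_simp
      rw [e, hEE, mul_one, key, div_self (pow_ne_zero 2 hSne)]
  · intro i
    fin_cases i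
    · show herm (n 0) (n 1) = -(Real.cos (2 * α 0) : ℂ) * Complex.exp ((2 * t / 3 : ℝ) * Complex.I)
      unfold herm
      rw [n00, n01, n02, n10, n11, n12, c1]
      ring
    · show herm (n 1) (n 2) = -(Real.cos (2 * α 1) : ℂ) * Complex.exp ((2 * t / 3 : ℝ) * Complex.I)
      unfold herm
      rw [n10, n11, n12, n20, n21, n22, c2, c3, c4]
      have e : -C0 * E' * (-C2 * E') + S * ((-C1 * E - C0 * C2 * E' ^ 2) / S) - 0 * (r / S) =
          C0 * C2 * E' ^ 2 + (-C1 * E - C0 * C2 * E' ^ 2) := by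
        field_simp
        ring
      rw [e]
      ring
    · show herm (n 2) (n 0) = -(Real.cos (2 * α 2) : ℂ) * Complex.exp ((2 * t / 3 : ℝ) * Complex.I)
      unfold herm
      rw [n00, n01, n02, n20, map_one, map_zero]
      ring

theorem NTri_tri (p q r : ℕ) (hp : 3 ≤ p) (hq : 3 ≤ q) (hr : 3 ≤ r) (θ : ℝ) (n : Fin 3 → Fin 3 → ℂ)
    (h : NTri (ang p q r) (θ / 2) n) : IsTriangle p q r θ n := by
  have hcos : ∀ m : ℕ, 3 ≤ m → 0 ≤ Real.cos (Real.pi / m) := by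
    intro m hm
    have hm' : (3 : ℝ) ≤ m := by exact_mod_cast hm
    have hm0 : (0 : ℝ) < m := by linarith
    apply Real.cos_nonneg_of_mem_Icc
    constructor
    · have : 0 ≤ Real.pi / m := div_nonneg Real.pi_pos.le hm0.le
      linarith [Real.pi_pos]
    · rw [div_le_div_iff₀ hm0 (by norm_num)]
      nlinarith [Real.pi_pos]
  have htwo : ∀ m : ℕ, 3 ≤ m → 2 * (Real.pi / (2 * (m : ℝ))) = Real.pi / m := by
    intro m hm
    have hm0 : (m : ℝ) ≠ 0 := by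
      have : (3 : ℝ) ≤ m := by exact_mod_cast hm
      linarith
    field_simp
  have a0 : 2 * ang p q r 0 = Real.pi / q := htwo q hq
  have a1 : 2 * ang p q r 1 = Real.pi / p := htwo p hp
  have a2 : 2 * ang p q r 2 = Real.pi / r := htwo r hr
  have e01 : herm (n 0) (n 1) = -(Real.cos (Real.pi / q) : ℂ) * Complex.exp ((2 * (θ / 2) / 3 : ℝ) * Complex.I) := by
    have := h.ang 0
    rw [a0] at this
    exact this
  have e12 : herm (n 1) (n 2) = -(Real.cos (Real.pi / p) : ℂ) * Complex.exp ((2 * (θ / 2) / 3 : ℝ) * Complex.I) := by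
    have := h.ang 1
    rw [a1] at this
    exact this
  have e20 : herm (n 2) (n 0) = -(Real.cos (Real.pi / r) : ℂ) * Complex.exp ((2 * (θ / 2) / 3 : ℝ) * Complex.I) := by
    have := h.ang 2
    rw [a2] at this
    exact this
  have hnorm : ∀ c x : ℝ, 0 ≤ c → ‖-(c : ℂ) * Complex.exp ((x : ℝ) * Complex.I)‖ = c := by
    intro c x hc
    rw [norm_mul, norm_neg, ex_norm, mul_one, Complex.norm_real, Real.norm_of_nonneg hc]
  refine ⟨h.unit, ?_, ?_, ?_, ?_⟩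
  · rw [e12]
    exact hnorm _ _ (hcos p hp)
  · rw [e01]
    exact hnorm _ _ (hcos q hq)
  · rw [e20]
    exact hnorm _ _ (hcos r hr)
  · rw [e01, e12, e20]
    have h3 : Complex.exp ((2 * (θ / 2) / 3 : ℝ) * Complex.I) ^ 3 = Complex.exp (θ * Complex.I) := by
      rw [show ∀ z : ℂ, z ^ 3 = z * z * z from fun z => by ring, ex_mul, ex_mul]
      congr 2
      norm_cast
      ring
    rw [← h3]
    push_cast
    ring

end Pool.Agent.Work.MP_88b7aa_gt.Cb
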