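import Pool.Agent.Work.MP_88b7aa_gt.Cb.Pvs
import Pool.Agent.Work.MP_88b7aa_gt.Cb.Dat

/-!
# The criterion away from the ideal triangle.  Size: S-M.

PROOF.  `chk_sound` by induction on the tree: if `chk T B = true` and `InB ζ a b B` with `ζ ≤ 1/2`, `1/32 ≤ ζ + a + b ≤ 3/4`, then `Crit`.
Node: the point lies in one of the two halves (`v * 32768 ≤ m` or `≥ m`).  Leaves:
`0`: impossible (`24576 = 3/4 * 32768 < zl + al + bl ≤ (ζ+a+b) * 32768`, `16384 < zl`, `zh + ah + bh < 1024 = 32768/32`).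
`1`: `ge0_sound` for `pC`, `pG`: first alternative.  `prt`: `b > 0`, `9 b < 1`, `vl pP ≥ 0`, `vl pR ≥ 0`, `vl_PR`: `vl pF > 0`, `FD < 0`.
`2, 3`: second alternative; `4, 5`: third alternative.
`Far`: `root` (the root box `[0,1]³`; `b ≤ 3/4` etc.).
-/

namespace Pool.Agent.Work.MP_88b7aa_gt.Cb

private lemma bb (bl bh : ℕ) (b : ℝ) (o1 : 0 < bl) (o2 : 9 * bh < 32768) (hbl : (bl : ℝ) ≤ b * 32768)
    (hbh : b * 32768 ≤ (bh : ℝ)) : 0 < b ^ 3 * (1 - 9 * b) := by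
  have hb1 : (1 : ℝ) ≤ bl := by exact_mod_cast o1
  have hb2 : (9 : ℝ) * bh < 32768 := by exact_mod_cast o2
  have hb : 0 < b := by linarith
  have hb9 : 0 < 1 - 9 * b := by linarith
  exact mul_pos (pow_pos hb 3) hb9

private lemma addp (x y z w : ℝ) (h1 : 0 < x) (h2 : 0 ≤ y) (h3 : 0 ≤ z) (h : w = 16 * x + y + z) :
    0 < w := by
  rw [h]
  linarith

private lemma prt_sound (B : Bx) (ζ a b : ℝ) (h1 : 0 ≤ ζ) (h2 : 0 ≤ a) (hB : InB ζ a b B)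
    (ok : prt B = true) : 0 < vl pF.f ζ a b := by
  unfold prt at ok
  rw [Bool.and_eq_true, Bool.and_eq_true, Bool.and_eq_true] at ok
  obtain ⟨⟨⟨o1, o2⟩, o3⟩, o4⟩ := ok
  exact addp _ _ _ _ (bb B.bl B.bh b (Nat.blt_eq.mp o1) (Nat.blt_eq.mp o2) hB.bl hB.bh)
    (mul_nonneg h2 (ge0_sound 5 (by norm_num) pP isG_P dle_all.2.1 B ζ a b hB o3))
    (mul_nonneg h1 (ge0_sound 5 (by norm_num) pR isG_R dle_all.2.2.1 B ζ a b hB o4)) (vl_PR ζ a b)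

private lemma f_neg {ζ a b : ℝ} (h : 0 < vl pF.f ζ a b) :
    FD ((1 - ζ - a - b) + (1 - ζ - a) + (1 - ζ) - 1) (4 * ((1 - ζ - a - b) * (1 - ζ - a) * (1 - ζ)))
      (DAf (1 - ζ - a - b) (1 - ζ - a) (1 - ζ)) < 0 := by
  have e := vl_F ζ a b
  rw [e] at h
  clear e
  generalize FD ((1 - ζ - a - b) + (1 - ζ - a) + (1 - ζ) - 1)
    (4 * ((1 - ζ - a - b) * (1 - ζ - a) * (1 - ζ))) (DAf (1 - ζ - a - b) (1 - ζ - a) (1 - ζ)) = w at h ⊢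
  linarith

private lemma leaf_sound (k : ℕ) (B : Bx) (ζ a b : ℝ) (h1 : 0 ≤ ζ) (h2 : 0 ≤ a)
    (h4 : 1 / 32 ≤ ζ + a + b) (h5 : ζ + a + b ≤ 3 / 4) (h6 : ζ ≤ 1 / 2) (hB : InB ζ a b B)
    (ok : leaf k B = true) : Crit (1 - ζ - a - b) (1 - ζ - a) (1 - ζ) := by
  have hC : ge0 2 pC B = true → 0 ≤ FD2 ((1 - ζ - a - b) + (1 - ζ - a) + (1 - ζ) - 1)
      (DAf (1 - ζ - a - b) (1 - ζ - a) (1 - ζ)) := by
    intro o
    have := ge0_sound 2 (by norm_num) pC isG_C dle_all.2.2.2.2 B ζ a b hB o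
    rw [vl_C] at this
    linarith
  have hG : ge0 4 pG B = true → 0 ≤ FD1 ((1 - ζ - a - b) + (1 - ζ - a) + (1 - ζ) - 1)
      (4 * ((1 - ζ - a - b) * (1 - ζ - a) * (1 - ζ))) (DAf (1 - ζ - a - b) (1 - ζ - a) (1 - ζ)) := by
    intro o
    have := ge0_sound 4 (by norm_num) pG isG_G dle_all.2.2.2.1 B ζ a b hB o
    rw [vl_G] at this
    linarith
  have hG' : le0 4 pG B = true → FD1 ((1 - ζ - a - b) + (1 - ζ - a) + (1 - ζ) - 1)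
      (4 * ((1 - ζ - a - b) * (1 - ζ - a) * (1 - ζ))) (DAf (1 - ζ - a - b) (1 - ζ - a) (1 - ζ)) ≤ 0 := by
    intro o
    have := le0_sound 4 (by norm_num) pG isG_G dle_all.2.2.2.1 B ζ a b hB o
    rw [vl_G] at this
    linarith
  have hF : gt0 6 pF B = true → 0 < vl pF.f ζ a b :=
    gt0_sound 6 (by norm_num) pF isG_F dle_all.1 B ζ a b hB
  have hP : prt B = true → 0 < vl pF.f ζ a b := prt_sound B ζ a b h1 h2 hB
  unfold leaf at ok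
  split at ok
  · exfalso
    simp only [Bool.or_eq_true, Nat.blt_eq] at ok
    have z1 := hB.zl
    have z2 := hB.zh
    have z3 := hB.al
    have z4 := hB.ah
    have z5 := hB.bl
    have z6 := hB.bh
    rcases ok with (ok | ok) | ok
    · have : (24576 : ℝ) < B.zl + (B.al + B.bl) := by exact_mod_cast ok
      linarith
    · have : (16384 : ℝ) < B.zl := by exact_mod_cast ok
      linarith
    · have : (B.zh : ℝ) + (B.ah + B.bh) < 1024 := by exact_mod_cast ok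
      linarith
  · rw [Bool.and_eq_true] at ok
    exact Or.inl ⟨hC ok.1, hG ok.2⟩
  · rw [Bool.and_eq_true] at ok
    exact Or.inr (Or.inl ⟨hC ok.1, f_neg (hP ok.2)⟩)
  · rw [Bool.and_eq_true] at ok
    exact Or.inr (Or.inl ⟨hC ok.1, f_neg (hF ok.2)⟩)
  · rw [Bool.and_eq_true] at ok
    exact Or.inr (Or.inr ⟨f_neg (hP ok.1), hG' ok.2⟩)
  · rw [Bool.and_eq_true] at ok
    exact Or.inr (Or.inr ⟨f_neg (hF ok.1), hG' ok.2⟩)

private lemma chk_sound (T : Tc) : ∀ (B : Bx) (ζ a b : ℝ), 0 ≤ ζ → 0 ≤ a →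
    1 / 32 ≤ ζ + a + b → ζ + a + b ≤ 3 / 4 → ζ ≤ 1 / 2 → InB ζ a b B → chk T B = true →
    Crit (1 - ζ - a - b) (1 - ζ - a) (1 - ζ) := by
  induction T with
  | l k =>
    intro B ζ a b h1 h2 h4 h5 h6 hB ok
    exact leaf_sound k B ζ a b h1 h2 h4 h5 h6 hB ok
  | z x y ihx ihy =>
    intro B ζ a b h1 h2 h4 h5 h6 hB ok
    simp only [chk, Bool.and_eq_true] at ok
    rcases le_total (ζ * 32768) ((mdl B.zl B.zh : ℕ) : ℝ) with h | h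
    · exact ihx ⟨B.zl, mdl B.zl B.zh, B.al, B.ah, B.bl, B.bh⟩ ζ a b h1 h2 h4 h5 h6
        ⟨hB.zl, h, hB.al, hB.ah, hB.bl, hB.bh⟩ ok.1
    · exact ihy ⟨mdl B.zl B.zh, B.zh, B.al, B.ah, B.bl, B.bh⟩ ζ a b h1 h2 h4 h5 h6
        ⟨h, hB.zh, hB.al, hB.ah, hB.bl, hB.bh⟩ ok.2
  | a x y ihx ihy =>
    intro B ζ a b h1 h2 h4 h5 h6 hB ok
    simp only [chk, Bool.and_eq_true] at ok
    rcases le_total (a * 32768) ((mdl B.al B.ah : ℕ) : ℝ) with h | h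
    · exact ihx ⟨B.zl, B.zh, B.al, mdl B.al B.ah, B.bl, B.bh⟩ ζ a b h1 h2 h4 h5 h6
        ⟨hB.zl, hB.zh, hB.al, h, hB.bl, hB.bh⟩ ok.1
    · exact ihy ⟨B.zl, B.zh, mdl B.al B.ah, B.ah, B.bl, B.bh⟩ ζ a b h1 h2 h4 h5 h6
        ⟨hB.zl, hB.zh, h, hB.ah, hB.bl, hB.bh⟩ ok.2
  | b x y ihx ihy =>
    intro B ζ a b h1 h2 h4 h5 h6 hB ok
    simp only [chk, Bool.and_eq_true] at ok
    rcases le_total (b * 32768) ((mdl B.bl B.bh : ℕ) : ℝ) with h | h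
    · exact ihx ⟨B.zl, B.zh, B.al, B.ah, B.bl, mdl B.bl B.bh⟩ ζ a b h1 h2 h4 h5 h6
        ⟨hB.zl, hB.zh, hB.al, hB.ah, hB.bl, h⟩ ok.1
    · exact ihy ⟨B.zl, B.zh, B.al, B.ah, mdl B.bl B.bh, B.bh⟩ ζ a b h1 h2 h4 h5 h6
        ⟨hB.zl, hB.zh, hB.al, hB.ah, h, hB.bh⟩ ok.2

theorem Far (ζ a b : ℝ) (h1 : 0 ≤ ζ) (h2 : 0 ≤ a) (h3 : 0 ≤ b) (h4 : 1 / 32 ≤ ζ + a + b) (h5 : ζ + a + b ≤ 3 / 4)
    (h6 : ζ ≤ 1 / 2) : Crit (1 - ζ - a - b) (1 - ζ - a) (1 - ζ) := by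
  obtain ⟨T, hT⟩ := root
  refine chk_sound T _ ζ a b h1 h2 h4 h5 h6 ⟨?_, ?_, ?_, ?_, ?_, ?_⟩ hT
  · push_cast
    positivity
  · push_cast
    linarith
  · push_cast
    positivity
  · push_cast
    linarith
  · push_cast
    positivity
  · push_cast
    linarith

end Pool.Agent.Work.MP_88b7aa_gt.Cb
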