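import Pool.Agent.Work.MP_88b7aa_gt.Cb.Near
import Pool.Agent.Work.MP_88b7aa_gt.Cb.Far

/-!
# The conditions `fA ≥ 1`, `fB ≥ 0` define an interval.  Size: M.

Let `cp = cos (π/p)` etc., `1/2 ≤ cp ≤ cq ≤ cr < 1`, `cr ≥ √2/2` (`r ≥ 4`); `x = cp²`, `y = cq²`, `z = cr²`, so with `ζ = 1 - z ∈ (0, 1/2]`,
`a = z - y ≥ 0`, `b = y - x ≥ 0`, `ζ + a + b = 1 - x ∈ (0, 3/4]`.  `Near` or `Far` gives `Crit x y z`.
`D(u) = S + 2 cp cq cr u` is increasing in `u`; by `fA_iff`, `fB_eq` the set is `K = {u ∈ [-1,1] : D(u) ≥ DA, FD(D(u)) ≥ 0}`.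
(1) up-closed by `CubUp`.
(2) `1 ∈ K`, with strict inequalities: `fA(1) = (cr + 2 cp cq)² > 1` (`cr > 1/2`, `2 cp cq ≥ 1/2`), and `fB(1) = 256 Δ (1+Δ)³ > 0`, `Δ = D(1) > 0`
(at `u = 1` the square of the imaginary part is 0 and `reB = -1 - 4Δ`, `fB = (reB+1)(reB-3)³`; `Δ = cp² + cq² + cr² + 2 cp cq cr - 1 ≥ 1/4 + 1/4 + 1/2 +
2 (1/2)(1/2) cr - 1 > 0`).
(3) `-1 ∉ K`: `fA(-1) = (cr - 2 cp cq)² < 1` (`-1 < cr - 1 < cr - 2 cp cq + ..`: `2 cp cq < 2 cp ≤ 1 + ..`; precisely `2 cp cq - cr ≤ cq (2 cp - 1) < 1` as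
`cr ≥ cq`, and `cr - 2 cp cq ≤ cr - 1/2 < 1`).
(4) `K` is closed (continuous functions).  Let `us = sInf K`; `us ∈ K`, `us > -1` by (3), `us < 1` since both conditions are strict at `1`.
-/

namespace Pool.Agent.Work.MP_88b7aa_gt.Cb

open Pool.Agent.Work.MP_88b7aa_gt.CH

theorem Itv (p q r : ℕ) (hp : 3 ≤ p) (hpq : p ≤ q) (hqr : q ≤ r) (hr : 4 ≤ r) :
    ∃ us : ℝ, -1 < us ∧ us < 1 ∧ ∀ u : ℝ, -1 ≤ u → u ≤ 1 →
      ((1 ≤ fA (Real.cos (Real.pi / p)) (Real.cos (Real.pi / q)) (Real.cos (Real.pi / r)) u ∧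
        0 ≤ fB (Real.cos (Real.pi / p)) (Real.cos (Real.pi / q)) (Real.cos (Real.pi / r)) u) ↔ us ≤ u) := by
  have hp3 : (3 : ℝ) ≤ p := by exact_mod_cast hp
  have hpq' : (p : ℝ) ≤ q := by exact_mod_cast hpq
  have hqr' : (q : ℝ) ≤ r := by exact_mod_cast hqr
  have hr4 : (4 : ℝ) ≤ r := by exact_mod_cast hr
  have hpi := Real.pi_pos
  have hp0 : (0 : ℝ) < p := by linarith
  have hq0 : (0 : ℝ) < q := by linarith
  have hr0 : (0 : ℝ) < r := by linarith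
  have hmono : ∀ s t : ℝ, 0 < s → s ≤ t → 1 ≤ s → Real.cos (Real.pi / s) ≤ Real.cos (Real.pi / t) := by
    intro s t hs hst h1
    apply Real.cos_le_cos_of_nonneg_of_le_pi
    · have : 0 < t := by linarith
      positivity
    · rw [div_le_iff₀ hs]
      nlinarith
    · exact div_le_div_of_nonneg_left hpi.le hs hst
  have hcp : 1 / 2 ≤ Real.cos (Real.pi / p) := by
    rw [← Real.cos_pi_div_three]
    exact hmono 3 p (by norm_num) hp3 (by norm_num)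
  have hcpq : Real.cos (Real.pi / p) ≤ Real.cos (Real.pi / q) := hmono p q hp0 hpq' (by linarith)
  have hcqr : Real.cos (Real.pi / q) ≤ Real.cos (Real.pi / r) := hmono q r hq0 hqr' (by linarith)
  have hcr4 : Real.sqrt 2 / 2 ≤ Real.cos (Real.pi / r) := by
    rw [← Real.cos_pi_div_four]
    exact hmono 4 r (by norm_num) hr4 (by norm_num)
  have hcr1 : Real.cos (Real.pi / r) < 1 := by
    rw [← Real.cos_zero]
    apply Real.cos_lt_cos_of_nonneg_of_le_pi le_rfl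
    · rw [div_le_iff₀ hr0]
      nlinarith
    · positivity
  have hcrsq : 1 / 2 ≤ Real.cos (Real.pi / r) ^ 2 := by
    have h2 : Real.sqrt 2 ^ 2 = 2 := Real.sq_sqrt (by norm_num)
    have h3 : 0 ≤ Real.sqrt 2 := Real.sqrt_nonneg 2
    nlinarith
  set cp := Real.cos (Real.pi / p) with hcpd
  set cq := Real.cos (Real.pi / q) with hcqd
  set cr := Real.cos (Real.pi / r) with hcrd
  have hcq : 1 / 2 ≤ cq := by linarith
  have hcr : 1 / 2 < cr := by nlinarith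
  have hcp0 : 0 < cp := by linarith
  have hcq0 : 0 < cq := by linarith
  have hcr0 : 0 < cr := by linarith
  have hcq1 : cq < 1 := by linarith
  have hcp1 : cp < 1 := by linarith
  have hprod : 0 < cp * cq * cr := by positivity
  -- the criterion
  have hcrit : Crit (cp ^ 2) (cq ^ 2) (cr ^ 2) := by
    have e1 : 1 - (1 - cr ^ 2) = cr ^ 2 := by ring
    have e2 : 1 - (1 - cr ^ 2) - (cr ^ 2 - cq ^ 2) = cq ^ 2 := by ring
    have e3 : 1 - (1 - cr ^ 2) - (cr ^ 2 - cq ^ 2) - (cq ^ 2 - cp ^ 2) = cp ^ 2 := by ring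
    have h1 : 0 ≤ 1 - cr ^ 2 := by nlinarith
    have h2 : 0 ≤ cr ^ 2 - cq ^ 2 := by nlinarith
    have h3 : 0 ≤ cq ^ 2 - cp ^ 2 := by nlinarith
    have h4 : (1 - cr ^ 2) + (cr ^ 2 - cq ^ 2) + (cq ^ 2 - cp ^ 2) = 1 - cp ^ 2 := by ring
    rcases le_total ((1 - cr ^ 2) + (cr ^ 2 - cq ^ 2) + (cq ^ 2 - cp ^ 2)) (1 / 32) with h | h
    · have := Near (1 - cr ^ 2) (cr ^ 2 - cq ^ 2) (cq ^ 2 - cp ^ 2) h1 h2 h3
        (by rw [h4]; nlinarith) h
      rwa [e3, e2, e1] at this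
    · have := Far (1 - cr ^ 2) (cr ^ 2 - cq ^ 2) (cq ^ 2 - cp ^ 2) h1 h2 h3 h
        (by rw [h4]; nlinarith) (by linarith)
      rwa [e3, e2, e1] at this
  -- up-closed
  have hup : ∀ u v : ℝ, u ≤ v → 1 ≤ fA cp cq cr u → 0 ≤ fB cp cq cr u →
      1 ≤ fA cp cq cr v ∧ 0 ≤ fB cp cq cr v := by
    intro u v huv hA hB
    rw [fA_iff] at hA ⊢
    rw [fB_eq] at hB ⊢
    have hle : cp ^ 2 + cq ^ 2 + cr ^ 2 - 1 + 2 * (cp * cq * cr) * u ≤
        cp ^ 2 + cq ^ 2 + cr ^ 2 - 1 + 2 * (cp * cq * cr) * v := by nlinarith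
    refine ⟨hA.trans hle, ?_⟩
    have hB' : 0 ≤ FD (cp ^ 2 + cq ^ 2 + cr ^ 2 - 1) (4 * (cp ^ 2 * cq ^ 2 * cr ^ 2))
        (cp ^ 2 + cq ^ 2 + cr ^ 2 - 1 + 2 * (cp * cq * cr) * u) := by linarith
    have := CubUp (cp ^ 2 + cq ^ 2 + cr ^ 2 - 1) (4 * (cp ^ 2 * cq ^ 2 * cr ^ 2))
      (DAf (cp ^ 2) (cq ^ 2) (cr ^ 2)) hcrit _ _ hA hle hB'
    linarith
  have hcA : Continuous (fun u => fA cp cq cr u) := by
    unfold fA
    fun_prop
  have hcB : Continuous (fun u => fB cp cq cr u) := by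
    unfold fB reB im2B
    fun_prop
  -- at 1
  have hA1 : 1 < fA cp cq cr 1 := by
    have e : fA cp cq cr 1 = (cr + 2 * (cp * cq)) ^ 2 := by
      unfold fA
      ring
    rw [e]
    have h1 : 1 / 4 ≤ cp * cq := by nlinarith
    have h2 : 1 < cr + 2 * (cp * cq) := by linarith
    nlinarith
  have hB1 : 0 < fB cp cq cr 1 := by
    have e : fB cp cq cr 1 = 256 * ((cp ^ 2 + cq ^ 2 + cr ^ 2 + 2 * (cp * cq * cr) - 1) *
        (1 + (cp ^ 2 + cq ^ 2 + cr ^ 2 + 2 * (cp * cq * cr) - 1)) ^ 3) := by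
      unfold fB reB im2B
      ring
    rw [e]
    have h1 : 0 < cp ^ 2 + cq ^ 2 + cr ^ 2 + 2 * (cp * cq * cr) - 1 := by nlinarith
    positivity
  -- at -1
  have hAm : fA cp cq cr (-1) < 1 := by
    have e : fA cp cq cr (-1) = (cr - 2 * (cp * cq)) ^ 2 := by
      unfold fA
      ring
    rw [e]
    have h1 : 1 / 4 ≤ cp * cq := by nlinarith
    have h2 : cr - 2 * (cp * cq) < 1 := by linarith
    have h3 : -1 < cr - 2 * (cp * cq) := by nlinarith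
    nlinarith
  set K : Set ℝ := {u | (-1 ≤ u ∧ u ≤ 1) ∧ (1 ≤ fA cp cq cr u ∧ 0 ≤ fB cp cq cr u)} with hK
  have hKclosed : IsClosed K := by
    rw [hK]
    apply IsClosed.inter
    · exact isClosed_Icc (a := (-1 : ℝ)) (b := 1)
    · apply IsClosed.inter
      · exact isClosed_le continuous_const hcA
      · exact isClosed_le continuous_const hcB
  have h1K : (1 : ℝ) ∈ K := ⟨⟨by norm_num, le_rfl⟩, hA1.le, hB1.le⟩
  have hKbdd : BddBelow K := ⟨-1, fun u hu => hu.1.1⟩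
  have hus : sInf K ∈ K := hKclosed.csInf_mem ⟨1, h1K⟩ hKbdd
  refine ⟨sInf K, ?_, ?_, ?_⟩
  · rcases hus.1.1.lt_or_eq with h | h
    · exact h
    · exfalso
      have := hus.2.1
      rw [← h] at this
      linarith
  · have hopen : IsOpen {u : ℝ | 1 < fA cp cq cr u ∧ 0 < fB cp cq cr u} :=
      (isOpen_lt continuous_const hcA).inter (isOpen_lt continuous_const hcB)
    obtain ⟨ε, hε, hball⟩ := Metric.isOpen_iff.1 hopen 1 ⟨hA1, hB1⟩
    set d := min (ε / 2) 1 with hd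
    have hd0 : 0 < d := lt_min (by linarith) one_pos
    have hd1 : d ≤ 1 := min_le_right _ _
    have hd2 : d ≤ ε / 2 := min_le_left _ _
    have hmem : (1 - d) ∈ Metric.ball (1 : ℝ) ε := by
      rw [Metric.mem_ball, Real.dist_eq]
      have : 1 - d - 1 = -d := by ring
      rw [this, abs_neg, abs_of_pos hd0]
      linarith
    have h2 := hball hmem
    have h3 : (1 - d) ∈ K := ⟨⟨by linarith, by linarith⟩, h2.1.le, h2.2.le⟩
    have h4 := csInf_le hKbdd h3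
    linarith
  · intro u hu1 hu2
    constructor
    · intro h
      exact csInf_le hKbdd ⟨⟨hu1, hu2⟩, h⟩
    · intro h
      exact hup (sInf K) u h hus.2.1 hus.2.2

end Pool.Agent.Work.MP_88b7aa_gt.Cb
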