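import Pool.Agent.Work.MP_88b7aa_gt.Cb.TrW
import Pool.Agent.Work.MP_88b7aa_gt.CH.Dts

/-!
# `W_A` is not elliptic if `fA ≥ 1`.  Size: S-M.

PROOF.  `WA n = refl m * refl m'` with `m = n 0`, `m' = refl (n 1) (n 2)` unit vectors, `g = ⟨m, m'⟩`, `|g|² = fA ≥ 1` (header of `EllA`;
or `tr_WA`).  `m, m'` are linearly independent: `m' = -n 2 + 2⟨n 2,n 1⟩ n 1`, so a relation would make `n 0, n 1, n 2` dependent, but
`Dt n ≠ 0`.  Suppose `z` negative, `refl m (refl m' z) = μ z`, `μ ≠ 0` (`refl` invertible).  Apply `refl m`: `refl m' z = μ refl m z`: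
`-z + 2⟨z,m'⟩m' = μ(-z + 2⟨z,m⟩m)`, i.e. `(μ-1) z = 2μ⟨z,m⟩ m - 2⟨z,m'⟩ m'`.
`μ = 1`: by independence `⟨z,m⟩ = ⟨z,m'⟩ = 0`; then `m, m' ∈ z^⊥` which is positive definite, and `|⟨m,m'⟩| < 1` by the strict
Cauchy–Schwarz inequality (apply positivity to `m' - ⟨m',m⟩ m ≠ 0`: `herm = 1 - |g|² > 0`).  Contradiction.
`μ ≠ 1`: `|μ| = 1` (invariance, `herm z z ≠ 0`), `z = α m + β m'`.  Taking `⟨·,m⟩`, `⟨·,m'⟩` of the displayed identity, with `a = ⟨z,m⟩`,
`b = ⟨z,m'⟩`: `(μ-1) a = 2μ a - 2 b ⟨m',m⟩`, `(μ-1) b = 2μ a ⟨m,m'⟩ - 2 b`: `(μ+1) a = 2 b conj g`, `(μ+1) b = 2 μ a g`; hence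
`(μ+1)² a b = 4 μ |g|² a b`.  If `a b = 0` then (`g ≠ 0`) both vanish and `z = 0`.  So `(μ+1)² = 4μ|g|²`, `|g|² = (2 + 2 Re μ)/4 ≤ 1` with equality
only for `μ = 1`: contradiction.
(Positivity of `z^⊥` for negative `z`: see the header of `TrB` in `CH`.)
-/

namespace Pool.Agent.Work.MP_88b7aa_gt.Cb

open Pool.Agent.Work.MP_88b7aa_gt.CH

open ComplexConjugate Complex

private lemma hneg (z w : Fin 3 → ℂ) : herm (-z) w = -herm z w := by
  simp only [herm, Pi.neg_apply]
  ring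

private lemma herm_real (z : Fin 3 → ℂ) : herm z z = (((herm z z).re : ℝ) : ℂ) := by
  have h := herm_conj z z
  rw [Complex.conj_eq_iff_real] at h
  obtain ⟨r, hr⟩ := h
  rw [hr, Complex.ofReal_re]

private lemma herm_re (z : Fin 3 → ℂ) :
    (herm z z).re = ‖z 0‖ ^ 2 + ‖z 1‖ ^ 2 - ‖z 2‖ ^ 2 := by
  simp only [herm, Complex.mul_conj, Complex.normSq_eq_norm_sq]
  norm_cast

private lemma pos_orth {x z : Fin 3 → ℂ} (hz : (herm z z).re < 0) (hx : x ≠ 0) (h : herm x z = 0) :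
    0 < (herm x x).re := by
  rw [herm_re] at hz ⊢
  have h1 : x 2 * conj (z 2) = x 0 * conj (z 0) + x 1 * conj (z 1) := by
    simp only [herm] at h
    linear_combination -h
  have h2 : ‖x 2‖ * ‖z 2‖ ≤ ‖x 0‖ * ‖z 0‖ + ‖x 1‖ * ‖z 1‖ := by
    calc ‖x 2‖ * ‖z 2‖ = ‖x 2 * conj (z 2)‖ := by rw [norm_mul, Complex.norm_conj]
      _ = ‖x 0 * conj (z 0) + x 1 * conj (z 1)‖ := by rw [h1]
      _ ≤ ‖x 0 * conj (z 0)‖ + ‖x 1 * conj (z 1)‖ := norm_add_le _ _
      _ = ‖x 0‖ * ‖z 0‖ + ‖x 1‖ * ‖z 1‖ := by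
        rw [norm_mul, norm_mul, Complex.norm_conj, Complex.norm_conj]
  have p0 := norm_nonneg (x 0)
  have p1 := norm_nonneg (x 1)
  have p2 := norm_nonneg (x 2)
  have q0 := norm_nonneg (z 0)
  have q1 := norm_nonneg (z 1)
  have q2 := norm_nonneg (z 2)
  have hz2 : 0 < ‖z 2‖ := by
    rcases q2.lt_or_eq with h | h
    · exact h
    · rw [← h] at hz
      nlinarith [sq_nonneg ‖z 0‖, sq_nonneg ‖z 1‖]
  by_cases hx01 : ‖x 0‖ ^ 2 + ‖x 1‖ ^ 2 = 0
  · exfalso
    have e0 : ‖x 0‖ = 0 := by nlinarith [sq_nonneg ‖x 0‖, sq_nonneg ‖x 1‖]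
    have e1 : ‖x 1‖ = 0 := by nlinarith [sq_nonneg ‖x 0‖, sq_nonneg ‖x 1‖]
    have e2 : ‖x 2‖ = 0 := by
      rw [e0, e1, zero_mul, zero_mul, add_zero] at h2
      by_contra hne
      have : 0 < ‖x 2‖ := lt_of_le_of_ne p2 (Ne.symm hne)
      have := mul_pos this hz2
      linarith
    apply hx
    ext i
    fin_cases i
    · exact norm_eq_zero.1 e0
    · exact norm_eq_zero.1 e1
    · exact norm_eq_zero.1 e2
  · have hpos : 0 < ‖x 0‖ ^ 2 + ‖x 1‖ ^ 2 :=
      lt_of_le_of_ne (by positivity) (Ne.symm hx01)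
    have h3 : (‖x 2‖ * ‖z 2‖) ^ 2 ≤ (‖x 0‖ * ‖z 0‖ + ‖x 1‖ * ‖z 1‖) ^ 2 :=
      pow_le_pow_left₀ (by positivity) h2 2
    have h4 : (‖x 0‖ * ‖z 0‖ + ‖x 1‖ * ‖z 1‖) ^ 2 ≤
        (‖x 0‖ ^ 2 + ‖x 1‖ ^ 2) * (‖z 0‖ ^ 2 + ‖z 1‖ ^ 2) := by
      nlinarith [sq_nonneg (‖x 0‖ * ‖z 1‖ - ‖x 1‖ * ‖z 0‖)]
    have h5 : (‖x 0‖ ^ 2 + ‖x 1‖ ^ 2) * (‖z 0‖ ^ 2 + ‖z 1‖ ^ 2) <
        (‖x 0‖ ^ 2 + ‖x 1‖ ^ 2) * ‖z 2‖ ^ 2 := mul_lt_mul_of_pos_left (by linarith) hpos
    have h6 : ‖x 2‖ ^ 2 * ‖z 2‖ ^ 2 < (‖x 0‖ ^ 2 + ‖x 1‖ ^ 2) * ‖z 2‖ ^ 2 := by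
      rw [← mul_pow]
      exact lt_of_le_of_lt (h3.trans h4) h5
    have h7 := lt_of_mul_lt_mul_right h6 (by positivity)
    linarith

private lemma triple (n : Fin 3 → Fin 3 → ℂ) (h1 : herm (n 1) (n 1) = 1) (z : Fin 3 → ℂ) :
    (refl (n 1)).mulVec ((refl (n 2)).mulVec ((refl (n 1)).mulVec z)) =
      -z + (2 * herm z ((refl (n 1)).mulVec (n 2))) • (refl (n 1)).mulVec (n 2) := by
  set y := (refl (n 1)).mulVec z with hy
  have hyy : (refl (n 1)).mulVec y = z := by
    rw [hy, Matrix.mulVec_mulVec, refl_sq _ h1, Matrix.one_mulVec]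
  have hh : herm y (n 2) = herm z ((refl (n 1)).mulVec (n 2)) := by
    rw [← hyy, refl_herm _ _ _ h1]
  rw [refl_mulVec (n 2) y, Matrix.mulVec_add, Matrix.mulVec_neg, Matrix.mulVec_smul, hyy, hh]

theorem NelA (p q r : ℕ) (θ : ℝ) (n : Fin 3 → Fin 3 → ℂ) (hT : IsTriangle p q r θ n) (hD : Dt n ≠ 0)
    (h : 1 ≤ fA (Real.cos (Real.pi / p)) (Real.cos (Real.pi / q)) (Real.cos (Real.pi / r)) (Real.cos θ)) :
    ¬ Elliptic (WA n) := by
  have e31 : (1 : Fin 3) + 2 = 0 := rfl
  have e11 : (1 : Fin 3) + 1 = 2 := rfl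
  set m : Fin 3 → ℂ := n 0 with hm
  set u : Fin 3 → ℂ := (refl (n 1)).mulVec (n 2) with hu
  have hmm : herm m m = 1 := hT.unit 0
  have huu : herm u u = 1 := by
    rw [hu, refl_herm _ _ _ (hT.unit 1)]
    exact hT.unit 2
  set g : ℂ := herm m u with hg
  have hgc : herm u m = conj g := (herm_conj m u).symm
  have hu2 : u = -n 2 + (2 * herm (n 2) (n 1)) • n 1 := by rw [hu, refl_mulVec]
  -- modulus of g
  have hg2 : ‖g‖ ^ 2 = fA (Real.cos (Real.pi / p)) (Real.cos (Real.pi / q))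
      (Real.cos (Real.pi / r)) (Real.cos θ) := by
    have eg : g = -herm (n 0) (n 2) + 2 * (herm (n 1) (n 2) * herm (n 0) (n 1)) := by
      rw [hg, hu2, herm_add_right, herm_smul_right, map_mul, herm_conj]
      have : herm m (-n 2) = -herm m (n 2) := by
        rw [← herm_conj, hneg, map_neg, herm_conj]
      rw [this, map_ofNat]
      ring
    have e20 : herm (n 0) (n 2) = conj (herm (n 2) (n 0)) := (herm_conj (n 2) (n 0)).symm
    have n12 : herm (n 1) (n 2) * conj (herm (n 1) (n 2)) = (Real.cos (Real.pi / p) : ℂ) ^ 2 := by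
      rw [Complex.mul_conj', hT.h23]
    have n01 : herm (n 0) (n 1) * conj (herm (n 0) (n 1)) = (Real.cos (Real.pi / q) : ℂ) ^ 2 := by
      rw [Complex.mul_conj', hT.h12]
    have n20 : herm (n 2) (n 0) * conj (herm (n 2) (n 0)) = (Real.cos (Real.pi / r) : ℂ) ^ 2 := by
      rw [Complex.mul_conj', hT.h31]
    have ha := hT.angle
    have hac : conj (herm (n 0) (n 1)) * conj (herm (n 1) (n 2)) * conj (herm (n 2) (n 0)) =
        -((Real.cos (Real.pi / p) * Real.cos (Real.pi / q) * Real.cos (Real.pi / r) : ℝ) : ℂ) *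
          Complex.exp (-θ * I) := by
      rw [← map_mul, ← map_mul, ha, map_mul, map_neg, Complex.conj_ofReal, ← Complex.exp_conj,
        map_mul, Complex.conj_ofReal, Complex.conj_I]
      congr 2
      ring
    have hsum : Complex.exp (θ * I) + Complex.exp (-θ * I) = 2 * Complex.cos θ := by
      rw [Complex.two_cos]
    apply Complex.ofReal_injective
    have : ((‖g‖ ^ 2 : ℝ) : ℂ) = g * conj g := by
      rw [Complex.mul_conj', Complex.ofReal_pow]
    rw [this, eg, map_add, map_neg, map_mul, map_mul, map_ofNat, e20, Complex.conj_conj]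
    unfold fA
    push_cast
    push_cast at ha hac n12 n01 n20
    linear_combination n20 + 4 * n12 * (herm (n 0) (n 1) * conj (herm (n 0) (n 1))) +
      4 * (Complex.cos (Real.pi / p)) ^ 2 * n01 - 2 * ha - 2 * hac +
      2 * (Complex.cos (Real.pi / p) * Complex.cos (Real.pi / q) * Complex.cos (Real.pi / r)) * hsum
  -- independence
  have hcr := herm_cr_n n 1
  rw [e31, e11] at hcr
  have hind : ∀ x y : ℂ, x • m + y • u = 0 → x = 0 ∧ y = 0 := by
    intro x y hxy
    have h1 : herm (x • m + y • u) (cr (n 1) (n 2)) = x * Dt n := by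
      rw [hu2, herm_add_left, herm_smul_left, herm_smul_left, herm_add_left, hneg, herm_smul_left,
        hcr.1, hcr.2.1, hm, hcr.2.2]
      ring
    rw [hxy] at h1
    have h0 : herm 0 (cr (n 1) (n 2)) = 0 := by simp [herm]
    rw [h0] at h1
    have hx : x = 0 := by
      rcases mul_eq_zero.1 h1.symm with h | h
      · exact h
      · exact absurd h hD
    refine ⟨hx, ?_⟩
    rw [hx, zero_smul, zero_add] at hxy
    have h2 : herm (y • u) u = y := by rw [herm_smul_left, huu, mul_one]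
    rw [hxy] at h2
    rw [← h2]
    simp [herm]
  rintro ⟨z, hz, μ, hμ⟩
  set a : ℂ := herm z m with ha
  set b : ℂ := herm z u with hb
  have hW : (WA n).mulVec z = z + (4 * b * conj g - 2 * a) • m - (2 * b) • u := by
    have h1 : (WA n).mulVec z = (refl (n 0)).mulVec
        ((refl (n 1)).mulVec ((refl (n 2)).mulVec ((refl (n 1)).mulVec z))) := by
      unfold WA
      simp only [Matrix.mulVec_mulVec, Matrix.mul_assoc]
    rw [h1, triple n (hT.unit 1), ← hu, ← hb, ← hm, refl_mulVec, herm_add_left, hneg,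
      herm_smul_left, hgc, ← ha]
    ext i
    simp only [Pi.add_apply, Pi.neg_apply, Pi.smul_apply, Pi.sub_apply, smul_eq_mul]
    ring
  have hvec : (μ - 1) • z = (4 * b * conj g - 2 * a) • m + (-(2 * b)) • u := by
    rw [sub_smul, ← hμ, hW, one_smul, neg_smul]
    abel
  have hz0 : z ≠ 0 := by
    rintro rfl
    simp [herm] at hz
  have hgg : g * conj g = ((‖g‖ ^ 2 : ℝ) : ℂ) := by
    rw [Complex.mul_conj', Complex.ofReal_pow]
  have hg1 : 1 ≤ ‖g‖ ^ 2 := by rw [hg2]; exact h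
  have hg0 : g ≠ 0 := by
    intro h0
    rw [h0, norm_zero] at hg1
    norm_num at hg1
  have hgc0 : conj g ≠ 0 := by
    intro h0
    exact hg0 ((map_eq_zero _).1 h0)
  -- the two scalar equations
  have s1 : (μ + 1) * a = 2 * b * conj g := by
    have := congrArg (fun v => herm v m) hvec
    simp only [herm_smul_left, herm_add_left, hmm, hgc, ← ha] at this
    linear_combination this
  have s2 : (μ + 1) * b = 4 * b * (g * conj g) - 2 * a * g := by
    have := congrArg (fun v => herm v u) hvec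
    simp only [herm_smul_left, herm_add_left, huu, ← hg, ← hb] at this
    linear_combination this
  by_cases hμ1 : μ = 1
  · rw [hμ1, sub_self, zero_smul] at hvec
    obtain ⟨i1, i2⟩ := hind _ _ hvec.symm
    have hb0 : b = 0 := by linear_combination (-1 / 2 : ℂ) * i2
    have ha0 : a = 0 := by
      rw [hb0] at i1
      linear_combination (-1 / 2 : ℂ) * i1
    set x : Fin 3 → ℂ := u + (-conj g) • m with hx
    have hx0 : x ≠ 0 := by
      intro h0
      have := hind (-conj g) 1 (by rw [one_smul, add_comm, ← hx, h0])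
      exact one_ne_zero this.2
    have hmz : herm m z = 0 := by rw [← herm_conj, ← ha, ha0, map_zero]
    have huz : herm u z = 0 := by rw [← herm_conj, ← hb, hb0, map_zero]
    have hxz : herm x z = 0 := by
      rw [hx, herm_add_left, herm_smul_left, hmz, huz]
      ring
    have hpos := pos_orth hz hx0 hxz
    have hxx : herm x x = ((1 - ‖g‖ ^ 2 : ℝ) : ℂ) := by
      have : ((1 - ‖g‖ ^ 2 : ℝ) : ℂ) = 1 - g * conj g := by
        rw [hgg]
        push_cast
        ring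
      rw [this, hx, herm_add_left, herm_add_right, herm_add_right, herm_smul_left, herm_smul_left,
        herm_smul_right, herm_smul_right, huu, hmm, hgc, ← hg, map_neg, Complex.conj_conj]
      ring
    rw [hxx, Complex.ofReal_re] at hpos
    linarith
  · have hnab : ¬ (a = 0 ∧ b = 0) := by
      rintro ⟨h1, h2⟩
      rw [h1, h2] at hvec
      simp only [mul_zero, zero_mul, sub_zero, neg_zero, zero_smul, add_zero] at hvec
      rcases smul_eq_zero.1 hvec with h | h
      · exact hμ1 (sub_eq_zero.1 h)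
      · exact hz0 h
    have hb0 : b ≠ 0 := by
      intro h0
      rw [h0] at s1 s2
      have ha0 : a = 0 := by
        have : a * g = 0 := by linear_combination (1 / 2 : ℂ) * s2
        rcases mul_eq_zero.1 this with h | h
        · exact h
        · exact absurd h hg0
      exact hnab ⟨ha0, h0⟩
    have hmain : (μ + 1) ^ 2 = 4 * μ * (g * conj g) := by
      apply mul_right_cancel₀ hb0
      linear_combination (μ + 1) * s2 - 2 * g * s1
    -- |μ| = 1
    have hinv : herm (μ • z) (μ • z) = herm z z := by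
      rw [← hμ]
      unfold WA
      rw [← Matrix.mulVec_mulVec, ← Matrix.mulVec_mulVec, ← Matrix.mulVec_mulVec]
      rw [refl_herm _ _ _ (hT.unit 0), refl_herm _ _ _ (hT.unit 1), refl_herm _ _ _ (hT.unit 2),
        refl_herm _ _ _ (hT.unit 1)]
    have hzz : herm z z ≠ 0 := by
      intro h0
      rw [h0, Complex.zero_re] at hz
      exact lt_irrefl _ hz
    have hμμ : μ * conj μ = 1 := by
      rw [herm_smul_left, herm_smul_right] at hinv
      apply mul_right_cancel₀ hzz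
      linear_combination hinv
    have hfin : μ + conj μ + 2 = 4 * (g * conj g) := by
      have hμ0 : μ ≠ 0 := by
        intro h0
        rw [h0, zero_mul] at hμμ
        exact zero_ne_one hμμ
      apply mul_left_cancel₀ hμ0
      linear_combination hmain + hμμ
    have hre : 1 ≤ μ.re := by
      have := congrArg Complex.re hfin
      rw [hgg, Complex.add_re, Complex.add_re, Complex.conj_re] at this
      have e4 : ((4 : ℂ) * ((‖g‖ ^ 2 : ℝ) : ℂ)).re = 4 * ‖g‖ ^ 2 := by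
        rw [show (4 : ℂ) = ((4 : ℝ) : ℂ) by norm_num, ← Complex.ofReal_mul, Complex.ofReal_re]
      have e2 : (2 : ℂ).re = 2 := rfl
      rw [e4, e2] at this
      linarith
    have hns : μ.re ^ 2 + μ.im ^ 2 = 1 := by
      have := congrArg Complex.re hμμ
      rw [Complex.mul_conj, Complex.ofReal_re, Complex.normSq_apply, Complex.one_re] at this
      linarith
    apply hμ1
    have him : μ.im = 0 := by nlinarith
    have hre1 : μ.re = 1 := by nlinarith
    exact Complex.ext (by rw [hre1, Complex.one_re]) (by rw [him, Complex.one_im])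

end Pool.Agent.Work.MP_88b7aa_gt.Cb
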