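import Pool.Agent.Work.MP_88b7aa_gt.Cb.TrW
import Pool.Agent.Work.MP_88b7aa_gt.Cb.EigO
import Pool.Agent.Work.MP_88b7aa_gt.Cb.Dsc
import Pool.Agent.Work.MP_88b7aa_gt.Cb.Dbl

/-!
# `W_B` is not elliptic if `fA ≥ 1` and `fB ≥ 0`.  Size: S-M.

PROOF.  Suppose `Elliptic (WB n)`.  `WB n` preserves `herm` (`refl_herm`), `det = 1` (`det_refl`).  `EigO` gives `f, l`.  By `Dsc` and `tr_WB`
(`‖τ‖² = reB² + im2B`, `Re τ³ = reB (reB² - 3 im2B)`): `fB = -(∏ |l i - l j|)² `, so `fB ≥ 0` forces two of the eigenvalues to be equal; the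
two eigenvectors are linearly independent (`LinearIndependent` subfamily), and `Dbl` gives `fA < 1`.
-/

namespace Pool.Agent.Work.MP_88b7aa_gt.Cb

open Pool.Agent.Work.MP_88b7aa_gt.CH

private theorem nelB_pair (f : Fin 3 → Fin 3 → ℂ) (hf : LinearIndependent ℂ f) (i j : Fin 3) (hij : i ≠ j) :
    LinearIndependent ℂ ![f i, f j] := by
  have hinj : Function.Injective ![i, j] := by
    intro a b hab
    fin_cases a <;> fin_cases b <;> simp_all
  have h := hf.comp ![i, j] hinj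
  have he : f ∘ ![i, j] = ![f i, f j] := by
    funext a
    fin_cases a <;> rfl
  rwa [he] at h

private theorem nelB_cube (t : ℂ) : (t ^ 3).re = t.re * (t.re ^ 2 - 3 * t.im ^ 2) := by
  have h : t ^ 3 = t * (t * t) := by ring
  rw [h]
  simp only [Complex.mul_re, Complex.mul_im]
  ring

private theorem nelB_sq (t : ℂ) : ‖t‖ ^ 2 = t.re ^ 2 + t.im ^ 2 := by
  rw [← Complex.normSq_eq_norm_sq, Complex.normSq_apply]
  ring

theorem NelB (p q r : ℕ) (hp : 3 ≤ p) (hpq : p ≤ q) (hqr : q ≤ r) (θ : ℝ) (n : Fin 3 → Fin 3 → ℂ)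
    (hT : IsTriangle p q r θ n) (hD : Dt n ≠ 0)
    (hA : 1 ≤ fA (Real.cos (Real.pi / p)) (Real.cos (Real.pi / q)) (Real.cos (Real.pi / r)) (Real.cos θ))
    (hB : 0 ≤ fB (Real.cos (Real.pi / p)) (Real.cos (Real.pi / q)) (Real.cos (Real.pi / r)) (Real.cos θ)) :
    ¬ Elliptic (WB n) := by
  intro hE
  have hW : ∀ z w, herm ((WB n).mulVec z) ((WB n).mulVec w) = herm z w := by
    intro z w
    unfold WB
    rw [← Matrix.mulVec_mulVec, ← Matrix.mulVec_mulVec, ← Matrix.mulVec_mulVec,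
      ← Matrix.mulVec_mulVec, refl_herm _ _ _ (hT.unit 0), refl_herm _ _ _ (hT.unit 1),
      refl_herm _ _ _ (hT.unit 2)]
  have hdet : (WB n).det = 1 := by
    unfold WB
    rw [Matrix.det_mul, Matrix.det_mul, det_refl _ (hT.unit 0), det_refl _ (hT.unit 1),
      det_refl _ (hT.unit 2)]
    norm_num
  obtain ⟨f, l, hf, hl, hprod, hind, htr⟩ := EigO (WB n) hW hdet hE
  obtain ⟨hre, him⟩ := tr_WB p q r θ n hT
  have hD1 := Dsc (l 0) (l 1) (l 2) (hl 0) (hl 1) (hl 2) hprod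
  rw [← htr] at hD1
  have h4 : ‖(WB n).trace‖ ^ 4 = (‖(WB n).trace‖ ^ 2) ^ 2 := by ring
  rw [h4, nelB_cube, nelB_sq, him, hre] at hD1
  have hfB : fB (Real.cos (Real.pi / p)) (Real.cos (Real.pi / q)) (Real.cos (Real.pi / r)) (Real.cos θ) =
      -(‖l 0 - l 1‖ * ‖l 1 - l 2‖ * ‖l 2 - l 0‖) ^ 2 := by
    rw [← hD1]
    unfold fB
    ring
  rw [hfB] at hB
  have h0 : ‖l 0 - l 1‖ * ‖l 1 - l 2‖ * ‖l 2 - l 0‖ = 0 := by
    have h1 : (‖l 0 - l 1‖ * ‖l 1 - l 2‖ * ‖l 2 - l 0‖) ^ 2 ≤ 0 := by linarith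
    have h2 : (‖l 0 - l 1‖ * ‖l 1 - l 2‖ * ‖l 2 - l 0‖) ^ 2 = 0 := le_antisymm h1 (sq_nonneg _)
    exact pow_eq_zero_iff (two_ne_zero) |>.1 h2
  have key : ∀ i j : Fin 3, i ≠ j → l i = l j → False := by
    intro i j hij hlij
    have h := Dbl p q r hp hpq hqr θ n hT hD (f i) (f j) (nelB_pair f hind i j hij) (l i) (hl i)
      (hf i) (by rw [hf j, hlij])
    linarith
  rcases mul_eq_zero.1 h0 with h1 | h1
  · rcases mul_eq_zero.1 h1 with h2 | h2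
    · exact key 0 1 (by decide) (sub_eq_zero.1 (norm_eq_zero.1 h2))
    · exact key 1 2 (by decide) (sub_eq_zero.1 (norm_eq_zero.1 h2))
  · exact key 2 0 (by decide) (sub_eq_zero.1 (norm_eq_zero.1 h1))

end Pool.Agent.Work.MP_88b7aa_gt.Cb
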