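import Pool.Agent.Work.MP_88b7aa_gt.CH.Core
import Pool.Agent.Work.MP_88b7aa_gt.CH.Nrm
import Pool.Agent.Work.MP_88b7aa_gt.CH.EllA
import Pool.Agent.Work.MP_88b7aa_gt.CH.EllB
import Pool.Agent.Work.MP_88b7aa_gt.Iv.RunI
import Pool.Agent.Work.MP_88b7aa_gt.Iv.Cov
import Pool.Agent.Work.MP_88b7aa_gt.Cb.Itv
import Pool.Agent.Work.MP_88b7aa_gt.Cb.DelA
import Pool.Agent.Work.MP_88b7aa_gt.Cb.Exi
import Pool.Agent.Work.MP_88b7aa_gt.Cb.NelA
import Pool.Agent.Work.MP_88b7aa_gt.Cb.NelB
import Pool.Agent.Work.MP_88b7aa_gt.Cb.Only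

/-!
# Final assembly
-/

namespace Pool.Agent.Work.MP_88b7aa_gt.Cb

open Pool.Agent.Work.MP_88b7aa_gt.CH
open Pool.Agent.Work.MP_88b7aa_gt.Iv

/-- Discreteness for `t ≥ 0` from the criterion at `m t`. -/
theorem disc_of (p q r : ℕ) (hp : 3 ≤ p) (hpq : p ≤ q) (hqr : q ≤ r) (hr : 4 ≤ r) (m : ℕ)
    (hm : (4 ≤ q ∧ m = 3) ∨ (q = 3 ∧ m = 4)) (t : ℝ) (ht : 0 ≤ t) (hmt : m * t ≤ Real.pi)
    (hA : 1 ≤ fA (Real.cos (Real.pi / p)) (Real.cos (Real.pi / q)) (Real.cos (Real.pi / r)) (Real.cos (m * t)))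
    (hB : 0 ≤ fB (Real.cos (Real.pi / p)) (Real.cos (Real.pi / q)) (Real.cos (Real.pi / r)) (Real.cos (m * t)))
    (n : Fin 3 → Fin 3 → ℂ) (hn : IsTriangle p q r (2 * t) n) :
    DF (mcox p q r (by omega) (by omega) (by omega)) n := by
  have hG : TriGood (ang p q r) t := by
    have key : TriGood (ang p q r) t ∨
        Exc m (Real.pi / (2 * p)) (Real.pi / (2 * q)) (Real.pi / (2 * r)) t := by
      rcases hm with ⟨h4, rfl⟩ | ⟨h3, rfl⟩
      · obtain ⟨T, hT⟩ := dat3 (min p 9) (min q 9) (min r 9) (by omega) (by omega) (by omega) (by omega) (by omega)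
        exact cov 3 (Or.inl rfl) T p q r hp hpq hqr hT t ht (by exact_mod_cast hmt)
      · have hp3 : p = 3 := by omega
        obtain ⟨T, hT⟩ := dat4 (min r 9) (by omega) (by omega)
        have hT' : run 4 T (bx 4 (min p 9) (min q 9) (min r 9)) = true := by
          subst hp3; subst h3; exact hT
        exact cov 4 (Or.inr rfl) T p q r hp hpq hqr hT' t ht (by exact_mod_cast hmt)
    rcases key with h | h
    · exact h
    · exfalso
      unfold Exc at h
      have e1 : (2 : ℝ) * (Real.pi / (2 * p)) = Real.pi / p := by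
        have : (p : ℝ) ≠ 0 := by positivity
        field_simp
      have e2 : (2 : ℝ) * (Real.pi / (2 * q)) = Real.pi / q := by
        have : (q : ℝ) ≠ 0 := by have : 0 < q := by omega
                                 positivity
        field_simp
      have e3 : (2 : ℝ) * (Real.pi / (2 * r)) = Real.pi / r := by
        have : (r : ℝ) ≠ 0 := by have : 0 < r := by omega
                                 positivity
        field_simp
      rw [e1, e2, e3] at h
      rcases h with h | h
      · exact absurd hA (not_le.mpr h)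
      · exact absurd hB (not_le.mpr h)
  obtain ⟨n', hn', hr'⟩ := Nrm p q r hp (by omega) (by omega) (2 * t) n hn
  have e : 2 * t / 2 = t := by ring
  rw [e] at hn'
  refine DF_congr _ n n' hr' ?_
  refine Core p q r hp (by omega) (by omega) t ?_ n' hn' hG
  rw [abs_of_nonneg ht]
  rcases hm with ⟨_, rfl⟩ | ⟨_, rfl⟩
  · have := Real.pi_pos
    push_cast at hmt
    linarith
  · have := Real.pi_pos
    push_cast at hmt
    linarith

theorem Main (p q r : ℕ) (hp : 3 ≤ p) (hpq : p ≤ q) (hqr : q ≤ r) (hr : 4 ≤ r) :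
    ∃ θs : ℝ, 0 < θs ∧ θs < Real.pi ∧
      (∀ θ : ℝ, |θ| ≤ θs → ∃ n, IsTriangle p q r θ n) ∧
      (∀ (θ : ℝ) (n : Fin 3 → Fin 3 → ℂ), |θ| ≤ Real.pi → IsTriangle p q r θ n →
        ((¬ Elliptic (WA n) ∧ ¬ Elliptic (WB n)) ↔ |θ| ≤ θs)) ∧
      (∀ (θ : ℝ) (n : Fin 3 → Fin 3 → ℂ), IsTriangle p q r θ n →
        DF (mcox p q r (by omega) (by omega) (by omega)) n → ¬ Elliptic (WA n) ∧ ¬ Elliptic (WB n)) ∧
      (∀ (θ : ℝ) (n : Fin 3 → Fin 3 → ℂ), IsTriangle p q r θ n →
        |θ| ≤ (if 4 ≤ q then 2 / 3 else 1 / 2) * θs →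
        DF (mcox p q r (by omega) (by omega) (by omega)) n) := by
  obtain ⟨us, hu1, hu2, hus⟩ := Itv p q r hp hpq hqr hr
  have hcos : Real.cos (Real.arccos us) = us := Real.cos_arccos hu1.le hu2.le
  have hpos : 0 < Real.arccos us := Real.arccos_pos.mpr hu2
  have hlt : Real.arccos us < Real.pi := by
    rcases lt_or_eq_of_le (Real.arccos_le_pi us) with h | h
    · exact h
    · exfalso
      have : Real.cos (Real.arccos us) = -1 := by rw [h, Real.cos_pi]
      rw [hcos] at this
      linarith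
  have hiff : ∀ θ : ℝ, |θ| ≤ Real.pi → (us ≤ Real.cos θ ↔ |θ| ≤ Real.arccos us) := by
    intro θ hθ
    rw [← Real.cos_abs θ]
    constructor
    · intro h
      by_contra hc
      push Not at hc
      have := Real.cos_lt_cos_of_nonneg_of_le_pi (Real.arccos_nonneg us) hθ hc
      rw [hcos] at this
      linarith
    · intro h
      have := Real.cos_le_cos_of_nonneg_of_le_pi (abs_nonneg θ) (Real.arccos_le_pi us) h
      rw [hcos] at this
      exact this
  have hcrit : ∀ θ : ℝ, |θ| ≤ Real.pi →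
      ((1 ≤ fA (Real.cos (Real.pi / p)) (Real.cos (Real.pi / q)) (Real.cos (Real.pi / r)) (Real.cos θ) ∧
        0 ≤ fB (Real.cos (Real.pi / p)) (Real.cos (Real.pi / q)) (Real.cos (Real.pi / r)) (Real.cos θ)) ↔
      |θ| ≤ Real.arccos us) := fun θ hθ =>
    (hus (Real.cos θ) (Real.neg_one_le_cos θ) (Real.cos_le_one θ)).trans (hiff θ hθ)
  refine ⟨Real.arccos us, hpos, hlt, ?_, ?_, ?_, ?_⟩
  · intro θ hθ
    have h := (hcrit θ (hθ.trans hlt.le)).mpr hθ
    have hD := DelA p q r hp hpq hqr hr θ h.1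
    have hs : 0 < Real.sin (2 * ang p q r 0) := by
      have e : 2 * ang p q r 0 = Real.pi / q := by
        have : (q : ℝ) ≠ 0 := by have : 0 < q := by omega
                                 positivity
        simp [ang]
        field_simp
      rw [e]
      apply Real.sin_pos_of_pos_of_lt_pi
      · have : 0 < q := by omega
        positivity
      · have : (1 : ℝ) < q := by exact_mod_cast (by omega : 1 < q)
        exact div_lt_self Real.pi_pos this
    obtain ⟨n, hn⟩ := Exi (ang p q r) (θ / 2) hs hD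
    exact ⟨n, NTri_tri p q r hp (by omega) (by omega) θ n hn⟩
  · intro θ n hθ hT
    rw [← hcrit θ hθ]
    constructor
    · rintro ⟨hA, hB⟩
      constructor
      · by_contra hc
        exact hA (EllA p q r θ n hT (not_le.mp hc))
      · by_contra hc
        exact hB (EllB p q r θ n hT (not_le.mp hc))
    · rintro ⟨hA, hB⟩
      have hD : 0 < Del (ang p q r) (θ / 2) := DelA p q r hp hpq hqr hr θ hA
      obtain ⟨n', hn', hr'⟩ := Nrm p q r hp (by omega) (by omega) θ n hT
      have hT' : IsTriangle p q r θ n' := NTri_tri p q r hp (by omega) (by omega) θ n' hn'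
      have hD' : Dt n' ≠ 0 := by
        intro h0
        have := Dt_sq _ _ _ hn'
        rw [h0] at this
        simp at this
        linarith
      have eA : WA n' = WA n := by simp only [WA, hr']
      have eB : WB n' = WB n := by simp only [WB, hr']
      rw [← eA, ← eB]
      exact ⟨NelA p q r θ n' hT' hD' hA, NelB p q r hp hpq hqr θ n' hT' hD' hA hB⟩
  · intro θ n hT hDF
    exact Only p q r hp hpq hqr hr θ n hT hDF
  · intro θ n hT hθ
    -- reduce to `θ ≥ 0`
    have main : ∀ (θ : ℝ) (n : Fin 3 → Fin 3 → ℂ), 0 ≤ θ → IsTriangle p q r θ n →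
        θ ≤ (if 4 ≤ q then 2 / 3 else 1 / 2) * Real.arccos us →
        DF (mcox p q r (by omega) (by omega) (by omega)) n := by
      intro θ n h0 hT hθ
      by_cases hq : 4 ≤ q
      · rw [if_pos hq] at hθ
        have h1 : |3 / 2 * θ| ≤ Real.arccos us := by
          rw [abs_of_nonneg (by positivity)]
          linarith
        have h := (hcrit (3 / 2 * θ) (h1.trans hlt.le)).mpr h1
        have e : ((3 : ℕ) : ℝ) * (θ / 2) = 3 / 2 * θ := by push_cast; ring
        refine disc_of p q r hp hpq hqr hr 3 (Or.inl ⟨hq, rfl⟩) (θ / 2) (by positivity) ?_ ?_ ?_ n ?_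
        · rw [e]
          have := le_abs_self (3 / 2 * θ)
          linarith
        · rw [e]; exact h.1
        · rw [e]; exact h.2
        · have e2 : 2 * (θ / 2) = θ := by ring
          rw [e2]; exact hT
      · rw [if_neg hq] at hθ
        have h1 : |2 * θ| ≤ Real.arccos us := by
          rw [abs_of_nonneg (by positivity)]
          linarith
        have h := (hcrit (2 * θ) (h1.trans hlt.le)).mpr h1
        have e : ((4 : ℕ) : ℝ) * (θ / 2) = 2 * θ := by push_cast; ring
        refine disc_of p q r hp hpq hqr hr 4 (Or.inr ⟨by omega, rfl⟩) (θ / 2) (by positivity) ?_ ?_ ?_ n ?_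
        · rw [e]
          have := le_abs_self (2 * θ)
          linarith
        · rw [e]; exact h.1
        · rw [e]; exact h.2
        · have e2 : 2 * (θ / 2) = θ := by ring
          rw [e2]; exact hT
    rcases le_total 0 θ with h | h
    · rw [abs_of_nonneg h] at hθ
      exact main θ n h hT hθ
    · rw [abs_of_nonpos h] at hθ
      exact DF_conj _ n (main (-θ) _ (by linarith) (tri_conj p q r θ n hT) hθ)

end Pool.Agent.Work.MP_88b7aa_gt.Cb
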