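import Pool.Agent.Work.MP_88b7aa_gt.CH.Crs

/-!
# A loxodromic element with real trace has infinite order.  Size: S-M.

PROOF.  `hW` gives `Wᴴ J W = J`, `W⁻¹ = J Wᴴ J`, `tr W⁻¹ = conj (tr W) = τ`, so `tr (adj W) = τ` and the characteristic polynomial is
`X³ - τ X² + τ X - 1 = (X - 1)(X² + (1-τ) X + 1)`.  If `τ < -1` or `τ > 3` then `(1-τ)² > 4` and the quadratic factor has a real root `λ` with
`|λ| ≠ 1` (product of the roots 1, the two roots distinct; `λ ≠ 1, -1`: at `1`: `3 - τ ≠ 0`, at `-1`: `1 + τ ≠ 0`).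
`λ` is an eigenvalue: `W y = λ y`, `y ≠ 0` (`Matrix.exists_mulVec_eq_zero_iff`, `det (W - λ) = 0`; for `3×3` matrices
`det (W - λ) = -λ³ + tr λ² - tr(adj) λ + det`, `Matrix.det_fin_three`).  If `W^k = 1`, `k ≥ 1`, then `λ^k = 1`, `|λ| = 1`, a contradiction.
-/

namespace Pool.Agent.Work.MP_88b7aa_gt.Cb

open Pool.Agent.Work.MP_88b7aa_gt.CH

open ComplexConjugate Complex

private def J0 : Matrix (Fin 3) (Fin 3) ℂ := Matrix.diagonal ![1, 1, -1]

private lemma J0sq : J0 * J0 = 1 := by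
  unfold J0
  ext i j
  fin_cases i <;> fin_cases j <;> simp [Matrix.mul_apply, Fin.sum_univ_three, Matrix.diagonal]

private lemma conjJ (W : Matrix (Fin 3) (Fin 3) ℂ)
    (hW : ∀ z w, herm (W.mulVec z) (W.mulVec w) = herm z w) : W.conjTranspose * J0 * W = J0 := by
  ext i j
  have h := hW (Pi.single j 1) (Pi.single i 1)
  have e1 : (W.conjTranspose * J0 * W) i j =
      herm (W.mulVec (Pi.single j 1)) (W.mulVec (Pi.single i 1)) := by
    simp only [J0, Matrix.mul_apply, Fin.sum_univ_three, Matrix.diagonal, herm,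
      Matrix.mulVec_single_one, Matrix.col_apply, Matrix.conjTranspose_apply, Matrix.of_apply]
    simp
    ring
  rw [e1, h]
  fin_cases i <;> fin_cases j <;> simp [herm, J0, Pi.single_apply]

private lemma adjT (U : Matrix (Fin 3) (Fin 3) ℂ) (hU : U.conjTranspose * J0 * U = J0)
    (hd : U.det = 1) : U.adjugate.trace = conj U.trace := by
  have h3 : (J0 * U.conjTranspose * J0) * U = 1 := by
    rw [Matrix.mul_assoc, Matrix.mul_assoc, ← Matrix.mul_assoc U.conjTranspose, hU, J0sq]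
  have h2 : U.adjugate = J0 * U.conjTranspose * J0 := by
    calc U.adjugate = (J0 * U.conjTranspose * J0) * U * U.adjugate := by rw [h3, Matrix.one_mul]
      _ = (J0 * U.conjTranspose * J0) * (U * U.adjugate) := by rw [Matrix.mul_assoc]
      _ = _ := by rw [Matrix.mul_adjugate, hd]; simp
  rw [h2, Matrix.trace_mul_comm, ← Matrix.mul_assoc, J0sq, Matrix.one_mul,
    Matrix.trace_conjTranspose]
  rfl

private lemma charDet (W : Matrix (Fin 3) (Fin 3) ℂ) (l : ℂ) :
    (W - l • (1 : Matrix (Fin 3) (Fin 3) ℂ)).det =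
      -(l ^ 3 - W.trace * l ^ 2 + W.adjugate.trace * l - W.det) := by
  simp [Matrix.det_fin_three, Matrix.adjugate_fin_three, Matrix.trace_fin_three, Matrix.one_apply]
  ring

theorem Lox (W : Matrix (Fin 3) (Fin 3) ℂ) (hW : ∀ z w, herm (W.mulVec z) (W.mulVec w) = herm z w)
    (hdet : W.det = 1) (τ : ℝ) (htr : W.trace = (τ : ℂ)) (hτ : τ < -1 ∨ 3 < τ) (k : ℕ) (hk : 1 ≤ k) :
    W ^ k ≠ 1 := by
  intro hWk
  have hadj : W.adjugate.trace = (τ : ℂ) := by
    rw [adjT W (conjJ W hW) hdet, htr, Complex.conj_ofReal]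
  have hd : 0 ≤ (τ - 1) ^ 2 - 4 := by
    rcases hτ with h | h <;> nlinarith
  obtain ⟨l, hl⟩ : ∃ l : ℝ, l = ((τ - 1) + Real.sqrt ((τ - 1) ^ 2 - 4)) / 2 := ⟨_, rfl⟩
  have hs := Real.sq_sqrt hd
  have hq : l ^ 2 + (1 - τ) * l + 1 = 0 := by
    rw [hl]
    linear_combination hs / 4
  have hq' : (l : ℂ) ^ 2 + (1 - (τ : ℂ)) * l + 1 = 0 := by
    exact_mod_cast hq
  have hdet0 : (W - (l : ℂ) • (1 : Matrix (Fin 3) (Fin 3) ℂ)).det = 0 := by
    rw [charDet, htr, hadj, hdet]
    linear_combination (-((l : ℂ) - 1)) * hq'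
  obtain ⟨y, hy0, hy⟩ := Matrix.exists_mulVec_eq_zero_iff.2 hdet0
  have hy1 : W.mulVec y = (l : ℂ) • y := by
    rw [Matrix.sub_mulVec, Matrix.smul_mulVec, Matrix.one_mulVec] at hy
    exact sub_eq_zero.1 hy
  have hpow : ∀ m : ℕ, (W ^ m).mulVec y = (l : ℂ) ^ m • y := by
    intro m
    induction m with
    | zero => simp
    | succ m ih =>
      rw [pow_succ, ← Matrix.mulVec_mulVec, hy1, Matrix.mulVec_smul, ih, smul_smul, pow_succ]
      congr 1
      ring
  have h1 := hpow k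
  rw [hWk, Matrix.one_mulVec] at h1
  have hlk : (l : ℂ) ^ k = 1 := by
    by_contra hne
    apply hy0
    have h2 : (1 - (l : ℂ) ^ k) • y = 0 := by
      rw [sub_smul, one_smul, ← h1, sub_self]
    rcases smul_eq_zero.1 h2 with h3 | h3
    · exact absurd (sub_eq_zero.1 h3).symm hne
    · exact h3
  have hlk' : l ^ k = 1 := by exact_mod_cast hlk
  have habs : |l| = 1 := by
    have h3 : |l| ^ k = 1 := by rw [← abs_pow, hlk', abs_one]
    exact (pow_eq_one_iff_of_nonneg (abs_nonneg l) (by omega)).1 h3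
  rcases (abs_eq (by norm_num : (0 : ℝ) ≤ 1)).1 habs with h4 | h4
  · rw [h4] at hq
    rcases hτ with h | h <;> linarith
  · rw [h4] at hq
    rcases hτ with h | h <;> linarith

end Pool.Agent.Work.MP_88b7aa_gt.Cb
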