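import Pool.Agent.Work.MP_88b7aa_gt.CH.FrR
import Pool.Agent.Work.MP_88b7aa_gt.CH.Real

/-!
# Traces and determinants of `W_A`, `W_B`.  Size: S-M.

PROOF.  `refl n = 2 P_n - 1` with `P_n a b = n a * (±conj (n b))` of rank one; `tr P_n = herm n n = 1`, `tr (P_a P_b) = |⟨a,b⟩|²`,
`tr (P_a P_b P_c) = ⟨b,a⟩⟨c,b⟩⟨a,c⟩` (some cyclic product, or its conjugate; compute it).  So
`tr (WB) = 8 tr(P₀P₁P₂) - 4 (|⟨0,1⟩|² + |⟨1,2⟩|² + |⟨2,0⟩|²) + 3`, `tr (P₀P₁P₂) = -cp cq cr e^{∓iθ}` by `hT.angle`: real part `reB`, square of the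
imaginary part `64 (cp cq cr)² sin² θ = im2B` at `u = cos θ`.
`det (refl n) = 1` for unit `n` (`Matrix.det_fin_three`, or: `refl n` is an involution, and `1 - tr + ..`; directly: the determinant of
`2 n n* - 1` is `(-1)³ (1 - 2 n* n) = 1`, `Matrix.det_one_sub_mul_comm` type lemma).
`tr (WA) = 4 |⟨n 0, u⟩|² - 1` with `WA = refl (n 0) refl u`, `u = refl (n 1) (n 2)`, and `|⟨n 0,u⟩|² = fA` (see the header of `EllA`), so
`tr (WA) = 4 fA - 1`, real.
-/

namespace Pool.Agent.Work.MP_88b7aa_gt.Cb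

open Pool.Agent.Work.MP_88b7aa_gt.CH

open ComplexConjugate

private def trW_V (a b : Fin 3 → ℂ) : Matrix (Fin 3) (Fin 3) ℂ := fun i j =>
  a i * (if j = 2 then -conj (b j) else conj (b j))

private theorem trW_refl (n : Fin 3 → ℂ) : refl n = (2 : ℂ) • trW_V n n - 1 := by
  ext i j
  simp only [CH.refl, trW_V, Matrix.sub_apply, Matrix.smul_apply, smul_eq_mul, Matrix.one_apply]
  ring

private theorem trW_mul (a b c d : Fin 3 → ℂ) :
    trW_V a b * trW_V c d = (herm c b) • trW_V a d := by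
  ext i j
  simp only [Matrix.mul_apply, Fin.sum_univ_three, Matrix.smul_apply, smul_eq_mul, trW_V, herm]
  by_cases hj : j = 2
  · simp [hj]
    ring
  · simp [hj]
    ring

private theorem trW_tr (a b : Fin 3 → ℂ) : (trW_V a b).trace = herm a b := by
  simp [Matrix.trace, Fin.sum_univ_three, trW_V, herm]
  ring

private theorem trW_symm (z w : Fin 3 → ℂ) : herm w z = conj (herm z w) := by
  simp only [herm, map_add, map_sub, map_mul, Complex.conj_conj]; ring

private theorem trW_abs (z w : Fin 3 → ℂ) : herm z w * herm w z = ((‖herm z w‖ ^ 2 : ℝ) : ℂ) := by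
  rw [trW_symm z w, Complex.mul_conj, Complex.normSq_eq_norm_sq]

private theorem trW_three (a b c : Fin 3 → ℂ) : (refl a * refl b * refl c).trace =
    8 * (herm b a * herm c b * herm a c) -
      4 * (herm a b * herm b a + herm b c * herm c b + herm a c * herm c a) +
      2 * (herm a a + herm b b + herm c c) - 3 := by
  rw [trW_refl, trW_refl, trW_refl]
  simp only [sub_mul, mul_sub, Matrix.smul_mul, Matrix.mul_smul, trW_mul, one_mul, mul_one,
    Matrix.trace_sub, Matrix.trace_smul, trW_tr, Matrix.trace_one, smul_eq_mul, Fintype.card_fin, smul_smul]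
  push_cast
  ring

private theorem trW_four (a b c : Fin 3 → ℂ) (hb : herm b b = 1) :
    (refl a * refl b * refl c * refl b).trace =
    16 * ((herm a b * herm b a) * (herm b c * herm c b)) -
      8 * (herm b a * herm c b * herm a c + herm a b * herm b c * herm c a) +
      4 * (herm a c * herm c a) - 2 * (herm a a + herm c c) + 3 := by
  rw [trW_refl, trW_refl, trW_refl]
  simp only [sub_mul, mul_sub, Matrix.smul_mul, Matrix.mul_smul, trW_mul, one_mul, mul_one,
    Matrix.trace_sub, Matrix.trace_smul, trW_tr, Matrix.trace_one, smul_eq_mul, Fintype.card_fin, smul_smul, hb]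
  push_cast
  ring

theorem det_refl (n : Fin 3 → ℂ) (hn : herm n n = 1) : (refl n).det = 1 := by
  simp only [herm] at hn
  rw [Matrix.det_fin_three]
  simp [CH.refl]
  linear_combination 2 * hn

theorem tr_WB (p q r : ℕ) (θ : ℝ) (n : Fin 3 → Fin 3 → ℂ) (hT : IsTriangle p q r θ n) :
    (WB n).trace.re = reB (Real.cos (Real.pi / p)) (Real.cos (Real.pi / q)) (Real.cos (Real.pi / r)) (Real.cos θ) ∧
    (WB n).trace.im ^ 2 =
      im2B (Real.cos (Real.pi / p)) (Real.cos (Real.pi / q)) (Real.cos (Real.pi / r)) (Real.cos θ) := by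
  have h1 := trW_abs (n 0) (n 1)
  have h2 := trW_abs (n 1) (n 2)
  have h3 := trW_abs (n 2) (n 0)
  rw [hT.h12] at h1
  rw [hT.h23] at h2
  rw [hT.h31] at h3
  have h4 : herm (n 1) (n 0) * herm (n 2) (n 1) * herm (n 0) (n 2) =
      -((Real.cos (Real.pi / p) * Real.cos (Real.pi / q) * Real.cos (Real.pi / r) : ℝ) : ℂ) *
        Complex.exp (((-θ : ℝ) : ℂ) * Complex.I) := by
    rw [trW_symm (n 0) (n 1), trW_symm (n 1) (n 2), trW_symm (n 2) (n 0), ← map_mul, ← map_mul, hT.angle,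
      map_mul, map_neg, Complex.conj_ofReal, ← Complex.exp_conj, map_mul, Complex.conj_ofReal, Complex.conj_I]
    push_cast
    ring_nf
  have hB : (WB n).trace = ((3 - 4 * (Real.cos (Real.pi / p) ^ 2 + (Real.cos (Real.pi / q) ^ 2 +
      Real.cos (Real.pi / r) ^ 2)) : ℝ) : ℂ) +
      ((-8 * (Real.cos (Real.pi / p) * Real.cos (Real.pi / q) * Real.cos (Real.pi / r)) : ℝ) : ℂ) *
        Complex.exp (((-θ : ℝ) : ℂ) * Complex.I) := by
    unfold WB
    rw [trW_three, h4, h1, h2, mul_comm (herm (n 0) (n 2)), h3, hT.unit, hT.unit, hT.unit]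
    push_cast
    ring
  constructor
  · rw [hB, Complex.add_re, Complex.ofReal_re, Complex.re_ofReal_mul, Complex.exp_ofReal_mul_I_re, Real.cos_neg]
    unfold reB
    ring
  · rw [hB, Complex.add_im, Complex.ofReal_im, Complex.im_ofReal_mul, Complex.exp_ofReal_mul_I_im, Real.sin_neg]
    unfold im2B
    linear_combination (64 * (Real.cos (Real.pi / p) * Real.cos (Real.pi / q) * Real.cos (Real.pi / r)) ^ 2) *
      Real.sin_sq_add_cos_sq θ

theorem tr_WA (p q r : ℕ) (θ : ℝ) (n : Fin 3 → Fin 3 → ℂ) (hT : IsTriangle p q r θ n) :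
    (WA n).trace =
      ((4 * fA (Real.cos (Real.pi / p)) (Real.cos (Real.pi / q)) (Real.cos (Real.pi / r)) (Real.cos θ) - 1 : ℝ) : ℂ) := by
  have h1 := trW_abs (n 0) (n 1)
  have h2 := trW_abs (n 1) (n 2)
  have h3 := trW_abs (n 2) (n 0)
  rw [hT.h12] at h1
  rw [hT.h23] at h2
  rw [hT.h31] at h3
  have h4 : herm (n 1) (n 0) * herm (n 2) (n 1) * herm (n 0) (n 2) =
      -((Real.cos (Real.pi / p) * Real.cos (Real.pi / q) * Real.cos (Real.pi / r) : ℝ) : ℂ) *
        Complex.exp (-((θ : ℂ) * Complex.I)) := by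
    rw [trW_symm (n 0) (n 1), trW_symm (n 1) (n 2), trW_symm (n 2) (n 0), ← map_mul, ← map_mul, hT.angle,
      map_mul, map_neg, Complex.conj_ofReal, ← Complex.exp_conj, map_mul, Complex.conj_ofReal, Complex.conj_I,
      mul_neg]
  have h5 : Complex.exp ((θ : ℂ) * Complex.I) + Complex.exp (-((θ : ℂ) * Complex.I)) =
      2 * ((Real.cos θ : ℝ) : ℂ) := by
    rw [Complex.ofReal_cos, Complex.cos, neg_mul]
    ring
  unfold WA
  rw [trW_four _ _ _ (hT.unit 1), h4, hT.angle, h1, h2, mul_comm (herm (n 0) (n 2)), h3, hT.unit, hT.unit]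
  unfold fA
  push_cast at h5 ⊢
  linear_combination (8 * (Complex.cos (Real.pi / p) * Complex.cos (Real.pi / q) * Complex.cos (Real.pi / r))) * h5

end Pool.Agent.Work.MP_88b7aa_gt.Cb
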