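import Pool.Agent.Work.MP_88b7aa_gt.CH.Rep
import Pool.Agent.Work.MP_88b7aa_gt.Cb.Exi
import Pool.Agent.Work.MP_88b7aa_gt.Cb.TrW
import Pool.Agent.Work.MP_88b7aa_gt.Cb.Lox

/-!
# `W_A` and `W_B` have infinite order in the triangle group.  Size: S-M.

PROOF.  Use the representation at `θ = 0`.  `Del (ang p q r) 0 = cp² + cq² + cr² + 2 cp cq cr - 1 > 0` (`cp, cq ≥ 1/2`, `cr ≥ √2/2`:
`≥ 1/4 + 1/4 + 1/2 + √2/4 - 1 > 0`), so `Exi` gives a normalised triangle with `t = 0`, `NTri_tri` a triangle with `θ = 0`, `Rep` gives `ρ`.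
`ρ (s0 s1 s2 s1) = WA n`, `ρ (s0 s1 s2) = WB n`; both preserve `herm` and have determinant 1 (`det_refl`).
`tr (WA n) = 4 fA - 1`, `fA = (cr + 2 cp cq)² > 1`: trace `> 3`.  `tr (WB n)`: imaginary part squared `im2B = 0` at `u = 1`, real part
`3 - 4(cp² + cq² + cr²) - 8 cp cq cr = -1 - 4 Del < -1`.  `Lox` gives the claim (`map_pow`).
-/

namespace Pool.Agent.Work.MP_88b7aa_gt.Cb

open Pool.Agent.Work.MP_88b7aa_gt.CH

private theorem io_cos3 (m : ℕ) (hm : 3 ≤ m) : 1 / 2 ≤ Real.cos (Real.pi / m) := by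
  have hm' : (3 : ℝ) ≤ m := by exact_mod_cast hm
  have hπ := Real.pi_pos
  rw [← Real.cos_pi_div_three]
  refine Real.cos_le_cos_of_nonneg_of_le_pi (by positivity) (by linarith) ?_
  exact div_le_div_of_nonneg_left hπ.le (by norm_num) hm'

private theorem io_cos4 (m : ℕ) (hm : 4 ≤ m) : Real.sqrt 2 / 2 ≤ Real.cos (Real.pi / m) := by
  have hm' : (4 : ℝ) ≤ m := by exact_mod_cast hm
  have hπ := Real.pi_pos
  rw [← Real.cos_pi_div_four]
  refine Real.cos_le_cos_of_nonneg_of_le_pi (by positivity) (by linarith) ?_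
  exact div_le_div_of_nonneg_left hπ.le (by norm_num) hm'

theorem InfO (p q r : ℕ) (hp : 3 ≤ p) (hpq : p ≤ q) (hqr : q ≤ r) (hr : 4 ≤ r) (M : CoxeterMatrix (Fin 3))
    (hM : M = mcox p q r (by omega) (by omega) (by omega)) (k : ℕ) (hk : 1 ≤ k) :
    (M.simple 0 * M.simple 1 * M.simple 2 * M.simple 1) ^ k ≠ 1 ∧
    (M.simple 0 * M.simple 1 * M.simple 2) ^ k ≠ 1 := by
  have hq : 3 ≤ q := hp.trans hpq
  have hr3 : 3 ≤ r := by omega
  have hcp := io_cos3 p hp
  have hcq := io_cos3 q hq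
  have hcr := io_cos4 r hr
  have h2 : (7 / 5 : ℝ) ≤ Real.sqrt 2 := Real.le_sqrt_of_sq_le (by norm_num)
  have hs2 : Real.sqrt 2 ^ 2 = 2 := Real.sq_sqrt (by norm_num)
  set cp := Real.cos (Real.pi / p) with hcpd
  set cq := Real.cos (Real.pi / q) with hcqd
  set cr := Real.cos (Real.pi / r) with hcrd
  have hq0 : (q : ℝ) ≠ 0 := by
    have : q ≠ 0 := by omega
    exact_mod_cast this
  have hp0 : (p : ℝ) ≠ 0 := by
    have : p ≠ 0 := by omega
    exact_mod_cast this
  have hr0 : (r : ℝ) ≠ 0 := by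
    have : r ≠ 0 := by omega
    exact_mod_cast this
  have e0 : 2 * ang p q r 0 = Real.pi / q := by
    show 2 * (Real.pi / (2 * q)) = _
    field_simp
  have e1 : 2 * ang p q r 1 = Real.pi / p := by
    show 2 * (Real.pi / (2 * p)) = _
    field_simp
  have e2 : 2 * ang p q r 2 = Real.pi / r := by
    show 2 * (Real.pi / (2 * r)) = _
    field_simp
  -- lower bounds
  have hcr2 : 1 / 2 ≤ cr ^ 2 := by nlinarith
  have hcp2 : 1 / 4 ≤ cp ^ 2 := by nlinarith
  have hcq2 : 1 / 4 ≤ cq ^ 2 := by nlinarith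
  have hpq4 : 1 / 4 ≤ cp * cq := by nlinarith
  have hcr7 : 7 / 10 ≤ cr := by linarith
  have hprod : 7 / 40 ≤ cp * cq * cr := by nlinarith
  -- the triangle
  have hsin : 0 < Real.sin (2 * ang p q r 0) := by
    rw [e0]
    have hq3 : (3 : ℝ) ≤ q := by exact_mod_cast hq
    have hπ := Real.pi_pos
    refine Real.sin_pos_of_pos_of_lt_pi (by positivity) ?_
    rw [div_lt_iff₀ (by linarith)]
    nlinarith
  have hDel : 0 < Del (ang p q r) 0 := by
    unfold Del
    rw [e0, e1, e2, mul_zero, Real.cos_zero, mul_one, ← hcpd, ← hcqd, ← hcrd]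
    nlinarith
  obtain ⟨n, hn⟩ := Exi (ang p q r) 0 hsin hDel
  have hT : IsTriangle p q r 0 n := NTri_tri p q r hp hq hr3 0 n (by rwa [zero_div])
  obtain ⟨ρ, hρ, hinv⟩ := Rep p q r hp hq hr3 n hT.unit hT.h12 hT.h23 hT.h31
  subst hM
  have hdet : ∀ i, (refl (n i)).det = 1 := fun i => det_refl _ (hT.unit i)
  constructor
  · intro h
    have hW : ρ ((mcox p q r _ _ _).simple 0 *
        (mcox p q r _ _ _).simple 1 *
        (mcox p q r _ _ _).simple 2 *
        (mcox p q r _ _ _).simple 1) = WA n := by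
      rw [map_mul, map_mul, map_mul, hρ, hρ, hρ]
      rfl
    have htr := tr_WA p q r 0 n hT
    refine Lox (WA n) ?_ ?_ _ htr (Or.inr ?_) k hk ?_
    · intro z w
      rw [← hW]
      exact hinv _ z w
    · unfold WA
      rw [Matrix.det_mul, Matrix.det_mul, Matrix.det_mul, hdet, hdet, hdet]
      norm_num
    · rw [Real.cos_zero, ← hcpd, ← hcqd, ← hcrd]
      unfold fA
      nlinarith
    · rw [← hW, ← map_pow, h, map_one]
  · intro h
    have hW : ρ ((mcox p q r _ _ _).simple 0 *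
        (mcox p q r _ _ _).simple 1 *
        (mcox p q r _ _ _).simple 2) = WB n := by
      rw [map_mul, map_mul, hρ, hρ, hρ]
      rfl
    obtain ⟨hre, him⟩ := tr_WB p q r 0 n hT
    rw [Real.cos_zero, ← hcpd, ← hcqd, ← hcrd] at hre him
    have him0 : (WB n).trace.im = 0 := by
      have : (WB n).trace.im ^ 2 = 0 := by
        rw [him]
        unfold im2B
        ring
      exact pow_eq_zero_iff (two_ne_zero) |>.1 this
    have htr : (WB n).trace = ((reB cp cq cr 1 : ℝ) : ℂ) := by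
      apply Complex.ext
      · rw [Complex.ofReal_re, hre]
      · rw [Complex.ofReal_im, him0]
    refine Lox (WB n) ?_ ?_ _ htr (Or.inl ?_) k hk ?_
    · intro z w
      rw [← hW]
      exact hinv _ z w
    · unfold WB
      rw [Matrix.det_mul, Matrix.det_mul, hdet, hdet, hdet]
      norm_num
    · unfold reB
      nlinarith
    · rw [← hW, ← map_pow, h, map_one]

end Pool.Agent.Work.MP_88b7aa_gt.Cb
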