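import Pool.Agent.Work.MP_88b7aa_gt.Cb.Cub

/-!
# The criterion near the ideal triangle.  Size: S-M.

Put `x = 1 - ζ - a - b`, `y = 1 - ζ - a`, `z = 1 - ζ`, `s = ζ + a + b ∈ (0, 1/32]`, and `F`, `F'` for the values at `D = DAf`.
With `Q = a b + a² + ζ b / 2 + ζ a + 3 ζ² / 16` and `L = b + 2 a + 3 ζ / 4`:
 * the polynomial `-F - b³ (1 - 9 b) - (1 - 20 s - 48 s² - 16 s³ - (128/15) s⁴) Q` has only nonnegative coefficients in `ζ, a, b`;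
 * the polynomial `-F' - (1 - (51/2) s - 12 s² - 16 s³) L` has only nonnegative coefficients.
For `s ≤ 1/32` the brackets are `≥ 1 - 0.673` and `≥ 1 - 0.81`; `1 - 9 b > 0`; if `Q = 0` then `ζ = a = 0`, so `b = s > 0`.  Hence `F < 0`
and `F' ≤ 0`: the third alternative of `Crit`.
(To prove the two coefficient statements in Lean: state `-F - .. = (explicit polynomial with positive coefficients)` by `ring` and use
`positivity`; compute the polynomial with any tool (there is python in the box), or let `nlinarith`/`positivity` work after `ring_nf`.)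
-/

namespace Pool.Agent.Work.MP_88b7aa_gt.Cb

private theorem R_id (ζ a b : ℝ) :
    -FD ((1 - ζ - a - b) + (1 - ζ - a) + (1 - ζ) - 1)
        (4 * ((1 - ζ - a - b) * (1 - ζ - a) * (1 - ζ)))
        (DAf (1 - ζ - a - b) (1 - ζ - a) (1 - ζ)) - b ^ 3 * (1 - 9 * b) -
      (1 - 20 * (ζ + a + b) - 48 * (ζ + a + b) ^ 2 - 16 * (ζ + a + b) ^ 3 -
        128 / 15 * (ζ + a + b) ^ 4) *
        (a * b + a ^ 2 + ζ * b / 2 + ζ * a + 3 / 16 * ζ ^ 2) =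
      12 * a * b ^ 2 + 10 * a ^ 2 * b + (13 / 2) * ζ * b ^ 2 + (31 / 2) * ζ * a * b +
      (11 / 2) * ζ * a ^ 2 + (19 / 4) * ζ ^ 2 * b + (23 / 4) * ζ ^ 2 * a + (5 / 4) * ζ ^ 3 +
      18 * a * b ^ 3 + 149 * a ^ 2 * b ^ 2 + 214 * a ^ 3 * b + 83 * a ^ 4 +
      194 * ζ * a * b ^ 2 + 462 * ζ * a ^ 2 * b + 244 * ζ * a ^ 3 + 53 * ζ ^ 2 * b ^ 2 +
      308 * ζ ^ 2 * a * b + 251 * ζ ^ 2 * a ^ 2 + 60 * ζ ^ 3 * b + 102 * ζ ^ 3 * a +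
      12 * ζ ^ 4 + 40 * a * b ^ 4 + 128 * a ^ 2 * b ^ 3 + 112 * a ^ 3 * b ^ 2 +
      24 * a ^ 4 * b + 32 * ζ * b ^ 4 + 208 * ζ * a * b ^ 3 + 272 * ζ * a ^ 2 * b ^ 2 +
      72 * ζ * a ^ 3 * b + 83 * ζ ^ 2 * b ^ 3 + 217 * ζ ^ 2 * a * b ^ 2 +
      81 * ζ ^ 2 * a ^ 2 * b + 3 * ζ ^ 2 * a ^ 3 + 57 * ζ ^ 3 * b ^ 2 + 42 * ζ ^ 3 * a * b +
      9 * ζ ^ 3 * a ^ 2 + 9 * ζ ^ 4 * b + 9 * ζ ^ 4 * a + 3 * ζ ^ 5 + (128 / 15) * a * b ^ 5 +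
      (80 / 3) * a ^ 2 * b ^ 4 + (160 / 3) * a ^ 3 * b ^ 3 + (208 / 3) * a ^ 4 * b ^ 2 +
      (128 / 3) * a ^ 5 * b + (128 / 15) * a ^ 6 + (64 / 15) * ζ * b ^ 5 +
      (416 / 15) * ζ * a * b ^ 4 + (1504 / 15) * ζ * a ^ 2 * b ^ 3 +
      (3136 / 15) * ζ * a ^ 3 * b ^ 2 + (2624 / 15) * ζ * a ^ 4 * b + (128 / 3) * ζ * a ^ 5 +
      (8 / 3) * ζ ^ 2 * b ^ 4 + (704 / 15) * ζ ^ 2 * a * b ^ 3 +
      (1104 / 5) * ζ ^ 2 * a ^ 2 * b ^ 2 + (4192 / 15) * ζ ^ 2 * a ^ 3 * b +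
      (1304 / 15) * ζ ^ 2 * a ^ 4 + (1376 / 15) * ζ ^ 3 * a * b ^ 2 +
      (3232 / 15) * ζ ^ 3 * a ^ 2 * b + (1376 / 15) * ζ ^ 3 * a ^ 3 +
      (32 / 3) * ζ ^ 4 * b ^ 2 + (1184 / 15) * ζ ^ 4 * a * b + (784 / 15) * ζ ^ 4 * a ^ 2 +
      (32 / 3) * ζ ^ 5 * b + (224 / 15) * ζ ^ 5 * a + (8 / 5) * ζ ^ 6 := by
  unfold FD DAf
  ring

private theorem R1_id (ζ a b : ℝ) :
    -FD1 ((1 - ζ - a - b) + (1 - ζ - a) + (1 - ζ) - 1)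
        (4 * ((1 - ζ - a - b) * (1 - ζ - a) * (1 - ζ)))
        (DAf (1 - ζ - a - b) (1 - ζ - a) (1 - ζ)) -
      (1 - 51 / 2 * (ζ + a + b) - 12 * (ζ + a + b) ^ 2 - 16 * (ζ + a + b) ^ 3) *
        (b + 2 * a + 3 / 4 * ζ) =
      (33 / 2) * b ^ 2 + (51 / 2) * a * b + (141 / 8) * ζ * b + (129 / 8) * ζ * a +
      (57 / 8) * ζ ^ 2 + 64 * a * b ^ 2 + 180 * a ^ 2 * b + 104 * a ^ 3 + 41 * ζ * b ^ 2 +
      254 * ζ * a * b + 221 * ζ * a ^ 2 + 78 * ζ ^ 2 * b + 138 * ζ ^ 2 * a + 21 * ζ ^ 3 +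
      16 * b ^ 4 + 96 * a * b ^ 3 + 128 * a ^ 2 * b ^ 2 + 48 * a ^ 3 * b + 76 * ζ * b ^ 3 +
      212 * ζ * a * b ^ 2 + 132 * ζ * a ^ 2 * b + 12 * ζ * a ^ 3 + 84 * ζ ^ 2 * b ^ 2 +
      120 * ζ ^ 2 * a * b + 36 * ζ ^ 2 * a ^ 2 + 36 * ζ ^ 3 * b + 36 * ζ ^ 3 * a +
      12 * ζ ^ 4 := by
  unfold FD1 DAf
  ring

theorem Near (ζ a b : ℝ) (h1 : 0 ≤ ζ) (h2 : 0 ≤ a) (h3 : 0 ≤ b) (h4 : 0 < ζ + a + b) (h5 : ζ + a + b ≤ 1 / 32) :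
    Crit (1 - ζ - a - b) (1 - ζ - a) (1 - ζ) := by
  have hR : 0 ≤ -FD ((1 - ζ - a - b) + (1 - ζ - a) + (1 - ζ) - 1)
        (4 * ((1 - ζ - a - b) * (1 - ζ - a) * (1 - ζ)))
        (DAf (1 - ζ - a - b) (1 - ζ - a) (1 - ζ)) - b ^ 3 * (1 - 9 * b) -
      (1 - 20 * (ζ + a + b) - 48 * (ζ + a + b) ^ 2 - 16 * (ζ + a + b) ^ 3 -
        128 / 15 * (ζ + a + b) ^ 4) *
        (a * b + a ^ 2 + ζ * b / 2 + ζ * a + 3 / 16 * ζ ^ 2) := by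
    rw [R_id]
    positivity
  have hR1 : 0 ≤ -FD1 ((1 - ζ - a - b) + (1 - ζ - a) + (1 - ζ) - 1)
        (4 * ((1 - ζ - a - b) * (1 - ζ - a) * (1 - ζ)))
        (DAf (1 - ζ - a - b) (1 - ζ - a) (1 - ζ)) -
      (1 - 51 / 2 * (ζ + a + b) - 12 * (ζ + a + b) ^ 2 - 16 * (ζ + a + b) ^ 3) *
        (b + 2 * a + 3 / 4 * ζ) := by
    rw [R1_id]
    positivity
  set s := ζ + a + b with hs
  have hs2 : s ^ 2 ≤ s * (1 / 32) := by nlinarith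
  have hs3 : s ^ 3 ≤ s * (1 / 1024) := by
    have : s ^ 3 = s * s ^ 2 := by ring
    rw [this]
    refine mul_le_mul_of_nonneg_left ?_ h4.le
    nlinarith
  have hs4 : s ^ 4 ≤ s * (1 / 32768) := by
    have : s ^ 4 = s * s ^ 3 := by ring
    rw [this]
    refine mul_le_mul_of_nonneg_left ?_ h4.le
    nlinarith
  have hbr : 0 < 1 - 20 * s - 48 * s ^ 2 - 16 * s ^ 3 - 128 / 15 * s ^ 4 := by nlinarith
  have hbr1 : 0 < 1 - 51 / 2 * s - 12 * s ^ 2 - 16 * s ^ 3 := by nlinarith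
  have hL : 0 ≤ b + 2 * a + 3 / 4 * ζ := by positivity
  have hQ : 0 ≤ a * b + a ^ 2 + ζ * b / 2 + ζ * a + 3 / 16 * ζ ^ 2 := by positivity
  have hb9 : 0 < 1 - 9 * b := by linarith
  right
  right
  constructor
  · have hpos : 0 < b ^ 3 * (1 - 9 * b) +
        (1 - 20 * s - 48 * s ^ 2 - 16 * s ^ 3 - 128 / 15 * s ^ 4) *
        (a * b + a ^ 2 + ζ * b / 2 + ζ * a + 3 / 16 * ζ ^ 2) := by
      rcases h3.lt_or_eq with hb | hb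
      · have e1 : 0 < b ^ 3 * (1 - 9 * b) := by positivity
        have e2 := mul_nonneg hbr.le hQ
        linarith
      · have e1 : 0 ≤ b ^ 3 * (1 - 9 * b) := by positivity
        have e3 : 0 < a * b + a ^ 2 + ζ * b / 2 + ζ * a + 3 / 16 * ζ ^ 2 := by
          rcases h2.lt_or_eq with ha | ha
          · positivity
          · have : 0 < ζ := by linarith
            positivity
        have e2 := mul_pos hbr e3
        linarith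
    linarith
  · have e1 := mul_nonneg hbr1.le hL
    linarith

end Pool.Agent.Work.MP_88b7aa_gt.Cb
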