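import Pool.Agent.Work.MP_88b7aa_gt.Cb.InfO
import Pool.Agent.Work.MP_88b7aa_gt.Cb.Bnd

/-!
# The `only if` direction.  Size: S-M.

PROOF.  Let `ρ, ε` be as in `DF`.  `WA n = ρ (s0 s1 s2 s1)`.  It preserves `herm` (`refl_herm`, unit vectors).  If it is elliptic, `Bnd` and `Ret`
give `k ≥ 1` such that all entries of `(WA n)^k - 1` are smaller than `ε`; `g = (s0 s1 s2 s1)^k ≠ 1` by `InfO`, and `DF` with `μ = 1` gives an entry of
`ρ g - 1` of modulus `≥ ε`, a contradiction.  The same for `WB n = ρ (s0 s1 s2)`.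
-/

namespace Pool.Agent.Work.MP_88b7aa_gt.Cb

open Pool.Agent.Work.MP_88b7aa_gt.CH

private theorem only_pres (n : Fin 3 → Fin 3 → ℂ) (hu : ∀ i, herm (n i) (n i) = 1) (i : Fin 3)
    (z w : Fin 3 → ℂ) : herm ((refl (n i)).mulVec z) ((refl (n i)).mulVec w) = herm z w :=
  refl_herm (n i) z w (hu i)

private theorem only_aux (p q r : ℕ) (hp : p ≠ 1) (hq : q ≠ 1) (hr : r ≠ 1)
    (n : Fin 3 → Fin 3 → ℂ) (hDF : DF (mcox p q r hp hq hr) n) (g : (mcox p q r hp hq hr).Group)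
    (hg : ∀ k : ℕ, 1 ≤ k → g ^ k ≠ 1) (W : Matrix (Fin 3) (Fin 3) ℂ)
    (hgW : ∀ ρ : (mcox p q r hp hq hr).Group →* Matrix (Fin 3) (Fin 3) ℂ,
      (∀ i, ρ ((mcox p q r hp hq hr).simple i) = refl (n i)) → ρ g = W)
    (hW : ∀ z w, herm (W.mulVec z) (W.mulVec w) = herm z w) : ¬ Elliptic W := by
  intro hE
  obtain ⟨ρ, hρ, ε, hε, hdisc⟩ := hDF
  obtain ⟨C, hC⟩ := Bnd W hW hE
  obtain ⟨k, hk, hret⟩ := Ret W hW C hC ε hε
  obtain ⟨i, j, hij⟩ := hdisc (g ^ k) (hg k hk) 1 (by simp)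
  have h1 : ρ (g ^ k) = W ^ k := by rw [map_pow, hgW ρ hρ]
  rw [h1] at hij
  exact absurd (hret i j) (not_lt.mpr hij)

theorem Only (p q r : ℕ) (hp : 3 ≤ p) (hpq : p ≤ q) (hqr : q ≤ r) (hr : 4 ≤ r) (θ : ℝ) (n : Fin 3 → Fin 3 → ℂ)
    (hT : IsTriangle p q r θ n) (hDF : DF (mcox p q r (by omega) (by omega) (by omega)) n) :
    ¬ Elliptic (WA n) ∧ ¬ Elliptic (WB n) := by
  have hu := hT.unit
  have hp1 : p ≠ 1 := by omega
  have hq1 : q ≠ 1 := by omega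
  have hr1 : r ≠ 1 := by omega
  have hI := fun (k : ℕ) (hk : 1 ≤ k) => InfO p q r hp hpq hqr hr (mcox p q r hp1 hq1 hr1) rfl k hk
  have hDF' : DF (mcox p q r hp1 hq1 hr1) n := hDF
  constructor
  · refine only_aux p q r hp1 hq1 hr1 n hDF' ((mcox p q r hp1 hq1 hr1).simple 0 *
      (mcox p q r hp1 hq1 hr1).simple 1 * (mcox p q r hp1 hq1 hr1).simple 2 *
      (mcox p q r hp1 hq1 hr1).simple 1) (fun k hk => (hI k hk).1) (WA n)
      (fun ρ hρ => ?_) (fun z w => ?_)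
    · rw [map_mul, map_mul, map_mul, hρ, hρ, hρ]
      rfl
    · unfold WA
      rw [← Matrix.mulVec_mulVec, ← Matrix.mulVec_mulVec, ← Matrix.mulVec_mulVec,
        ← Matrix.mulVec_mulVec, ← Matrix.mulVec_mulVec, ← Matrix.mulVec_mulVec]
      rw [only_pres n hu, only_pres n hu, only_pres n hu, only_pres n hu]
  · refine only_aux p q r hp1 hq1 hr1 n hDF' ((mcox p q r hp1 hq1 hr1).simple 0 *
      (mcox p q r hp1 hq1 hr1).simple 1 * (mcox p q r hp1 hq1 hr1).simple 2)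
      (fun k hk => (hI k hk).2) (WB n)
      (fun ρ hρ => ?_) (fun z w => ?_)
    · rw [map_mul, map_mul, hρ, hρ, hρ]
      rfl
    · unfold WB
      rw [← Matrix.mulVec_mulVec, ← Matrix.mulVec_mulVec, ← Matrix.mulVec_mulVec,
        ← Matrix.mulVec_mulVec]
      rw [only_pres n hu, only_pres n hu, only_pres n hu]

end Pool.Agent.Work.MP_88b7aa_gt.Cb
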