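import Pool.Agent.Work.MP_88b7aa_gt.Cb.Evs
import Pool.Agent.Work.MP_88b7aa_gt.Cb.Cub

/-!
# The polynomials of the checker.  Size: S.

PROOF.  Unfold (`simp only [vl, lv, pF, List.map, List.sum_cons, List.sum_nil]`, `push_cast`) and `ring`; the degree bounds by `decide`
(`dle` is decidable on explicit lists: `by unfold dle; decide` or `simp [pF]`).
-/

namespace Pool.Agent.Work.MP_88b7aa_gt.Cb

theorem vl_F (ζ a b : ℝ) : vl pF.f ζ a b =
    -16 * FD ((1 - ζ - a - b) + (1 - ζ - a) + (1 - ζ) - 1) (4 * ((1 - ζ - a - b) * (1 - ζ - a) * (1 - ζ)))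
      (DAf (1 - ζ - a - b) (1 - ζ - a) (1 - ζ)) := by
  simp only [vl, lv, pF, List.map_cons, List.map_nil, List.sum_cons, List.sum_nil, FD, DAf]
  push_cast
  ring

theorem vl_G (ζ a b : ℝ) : vl pG.f ζ a b =
    4 * FD1 ((1 - ζ - a - b) + (1 - ζ - a) + (1 - ζ) - 1) (4 * ((1 - ζ - a - b) * (1 - ζ - a) * (1 - ζ)))
      (DAf (1 - ζ - a - b) (1 - ζ - a) (1 - ζ)) := by
  simp only [vl, lv, pG, List.map_cons, List.map_nil, List.sum_cons, List.sum_nil, FD1, DAf]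
  push_cast
  ring

theorem vl_C (ζ a b : ℝ) : vl pC.f ζ a b =
    4 * FD2 ((1 - ζ - a - b) + (1 - ζ - a) + (1 - ζ) - 1) (DAf (1 - ζ - a - b) (1 - ζ - a) (1 - ζ)) := by
  simp only [vl, lv, pC, List.map_cons, List.map_nil, List.sum_cons, List.sum_nil, FD2, DAf]
  push_cast
  ring

theorem vl_PR (ζ a b : ℝ) : vl pF.f ζ a b =
    16 * (b ^ 3 * (1 - 9 * b)) + a * vl pP.f ζ a b + ζ * vl pR.f ζ a b := by
  simp only [vl, lv, pF, pP, pR, List.map_cons, List.map_nil, List.sum_cons, List.sum_nil]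
  push_cast
  ring

theorem dle_all : dle 6 pF.f ∧ dle 5 pP.f ∧ dle 5 pR.f ∧ dle 4 pG.f ∧ dle 2 pC.f := by
  unfold dle
  decide

end Pool.Agent.Work.MP_88b7aa_gt.Cb
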